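import Pool.Agent.Run7.h670.CL.Bd

/-!
# Asymptotics of the two-stage code for a fixed field
-/

set_option autoImplicit false

open Finset Filter Topology Pool.Agent.H369R2.TD

namespace Run7.h670.CL

section Seq

variable {q : ℕ} {y θ : ℝ}

/-- the size of the sets to be covered -/
noncomputable def dd (q : ℕ) (y : ℝ) (m : ℕ) : ℕ := ⌊y * (q : ℝ) ^ (m + 1)⌋₊

/-- the number of coordinates -/
noncomputable def DD (q : ℕ) (y : ℝ) (m : ℕ) : ℕ := dd q y m - (m + 1)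

/-- the size of the chosen sets -/
noncomputable def ss (q : ℕ) (y : ℝ) (m : ℕ) : ℕ := DD q y m + m

/-- the number of labels -/
noncomputable def NN (q : ℕ) (y θ : ℝ) (m : ℕ) : ℕ :=
  ⌊(dd q y m : ℝ) * (Real.exp (-(((q : ℝ) - 1) * y)) / θ)⌋₊

/-- expected number of chosen clean subsets in the clean range -/
noncomputable def WW (q : ℕ) (y θ : ℝ) (m : ℕ) : ℝ :=
  1 / ((NN q y θ m : ℝ) + 1) * (dd q y m : ℝ)

theorem tendsto_pow (hq : 3 ≤ q) : Tendsto (fun m : ℕ => (q : ℝ) ^ m) atTop atTop :=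
  tendsto_pow_atTop_atTop_of_one_lt (by exact_mod_cast (by omega : 1 < q))

theorem tendsto_inv_pow (hq : 3 ≤ q) (c : ℝ) (j : ℕ) :
    Tendsto (fun m : ℕ => c / (q : ℝ) ^ (m + j)) atTop (𝓝 0) :=
  ((tendsto_pow hq).comp (tendsto_add_atTop_nat j)).const_div_atTop c

theorem tendsto_dd (hq : 3 ≤ q) (hy : 0 < y) :
    Tendsto (fun m : ℕ => (dd q y m : ℝ) / (q : ℝ) ^ (m + 1)) atTop (𝓝 y) := by
  have hQ : ∀ m : ℕ, (0 : ℝ) < (q : ℝ) ^ (m + 1) := fun m => by
    have : (0 : ℝ) < q := by exact_mod_cast (by omega : 0 < q)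
    positivity
  have h1 := (tendsto_inv_pow hq 1 1).const_sub y
  rw [sub_zero] at h1
  refine tendsto_of_tendsto_of_tendsto_of_le_of_le h1 tendsto_const_nhds (fun m => ?_) (fun m => ?_)
  · have h2 := Nat.lt_floor_add_one (y * (q : ℝ) ^ (m + 1))
    simp only
    rw [le_div_iff₀ (hQ m), sub_mul, div_mul_cancel₀ _ (hQ m).ne']
    unfold dd
    linarith
  · have h2 := Nat.floor_le (mul_pos hy (hQ m)).le
    simp only
    rw [div_le_iff₀ (hQ m)]
    exact h2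

theorem dd_large (hq : 3 ≤ q) (hy : 0 < y) : ∀ᶠ m : ℕ in atTop, 2 * m + 3 ≤ dd q y m := by
  have hq0 : (0 : ℝ) < q := by exact_mod_cast (by omega : 0 < q)
  have hq1 : (1 : ℝ) < q := by exact_mod_cast (by omega : 1 < q)
  have h1 : Tendsto (fun m : ℕ => (m : ℝ) ^ 1 / (q : ℝ) ^ m) atTop (𝓝 0) :=
    tendsto_pow_const_div_const_pow_of_one_lt 1 hq1
  have h2 : ∀ᶠ m : ℕ in atTop, (m : ℝ) ^ 1 / (q : ℝ) ^ m < y / 8 :=
    h1.eventually_lt_const (by positivity)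
  have h3 : ∀ᶠ m : ℕ in atTop, 8 / y ≤ (q : ℝ) ^ m := tendsto_atTop.1 (tendsto_pow hq) _
  filter_upwards [h2, h3, eventually_ge_atTop 1] with m h4 h5 h6
  unfold dd
  apply Nat.le_floor
  have hQ : (0 : ℝ) < (q : ℝ) ^ m := by positivity
  rw [pow_one, div_lt_iff₀ hQ] at h4
  rw [div_le_iff₀ hy] at h5
  have h6' : (1 : ℝ) ≤ m := by exact_mod_cast h6
  rw [pow_succ]
  push_cast
  have h7 : (3 : ℝ) ≤ q := by exact_mod_cast hq
  nlinarith [mul_pos hy hQ]

theorem ss_succ (hq : 3 ≤ q) (hy : 0 < y) : ∀ᶠ m : ℕ in atTop, ss q y m + 1 = dd q y m := by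
  filter_upwards [dd_large hq hy] with m hm
  unfold ss DD
  omega

theorem tendsto_dd_atTop (hq : 3 ≤ q) (hy : 0 < y) : Tendsto (dd q y) atTop atTop := by
  refine tendsto_atTop_mono' atTop ?_ tendsto_id
  filter_upwards [dd_large hq hy] with m hm
  simp only [id]
  omega

theorem tendsto_ss_atTop (hq : 3 ≤ q) (hy : 0 < y) : Tendsto (ss q y) atTop atTop := by
  refine tendsto_atTop_mono' atTop ?_ tendsto_id
  filter_upwards [dd_large hq hy] with m hm
  simp only [id]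
  unfold ss
  omega

theorem tendsto_ss (hq : 3 ≤ q) (hy : 0 < y) :
    Tendsto (fun m : ℕ => (ss q y m : ℝ) / (q : ℝ) ^ (m + 1)) atTop (𝓝 y) := by
  have h1 := (tendsto_dd hq hy).sub (tendsto_inv_pow hq 1 1)
  rw [sub_zero] at h1
  refine h1.congr' ?_
  filter_upwards [ss_succ hq hy] with m hm
  rw [← hm]
  push_cast
  ring

theorem tendsto_ss_pred (hq : 3 ≤ q) (hy : 0 < y) :
    Tendsto (fun m : ℕ => ((ss q y m - 1 : ℕ) : ℝ) / (q : ℝ) ^ (m + 1)) atTop (𝓝 y) := by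
  have h1 := (tendsto_ss hq hy).sub (tendsto_inv_pow hq 1 1)
  rw [sub_zero] at h1
  refine h1.congr' ?_
  filter_upwards [ss_succ hq hy, dd_large hq hy] with m hm hm2
  rw [Nat.cast_sub (by omega)]
  push_cast
  ring

theorem tendsto_ss_q (hq : 3 ≤ q) (hy : 0 < y) :
    Tendsto (fun m : ℕ => (ss q y m : ℝ) / (q : ℝ) ^ m) atTop (𝓝 (q * y)) := by
  have hq0 : (0 : ℝ) < q := by exact_mod_cast (by omega : 0 < q)
  have h1 := (tendsto_ss hq hy).const_mul (q : ℝ)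
  refine h1.congr fun m => ?_
  rw [pow_succ]
  field_simp

theorem tendsto_ss_q' (hq : 3 ≤ q) (hy : 0 < y) :
    Tendsto (fun m : ℕ => (ss q y m : ℝ) / ((q : ℝ) ^ m - 1)) atTop (𝓝 (q * y)) := by
  have hq0 : (0 : ℝ) < q := by exact_mod_cast (by omega : 0 < q)
  have hq1 : (1 : ℝ) < q := by exact_mod_cast (by omega : 1 < q)
  have h2 : Tendsto (fun m : ℕ => 1 - 1 / (q : ℝ) ^ m) atTop (𝓝 (1 - 0)) :=
    ((tendsto_pow hq).const_div_atTop 1).const_sub 1
  rw [sub_zero] at h2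
  have h1 := (tendsto_ss_q hq hy).div h2 one_ne_zero
  rw [div_one] at h1
  refine h1.congr' ?_
  filter_upwards [eventually_ge_atTop 1] with m hm
  have hQ : (1 : ℝ) < (q : ℝ) ^ m := one_lt_pow₀ hq1 (by omega)
  have h3 : (q : ℝ) ^ m - 1 ≠ 0 := by linarith
  have h4 : (1 : ℝ) - 1 / (q : ℝ) ^ m ≠ 0 := by
    have : 1 / (q : ℝ) ^ m < 1 := by
      rw [div_lt_one (by linarith)]
      exact hQ
    linarith
  simp only [Pi.div_apply]
  rw [div_div, mul_sub, mul_one, mul_one_div_cancel (by positivity)]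

theorem tendsto_small (hq : 3 ≤ q) (hy : 0 < y) :
    Tendsto (fun m : ℕ => (q : ℝ) ^ m / (q : ℝ) ^ (ss q y m)) atTop (𝓝 0) := by
  have hq0 : (0 : ℝ) < q := by exact_mod_cast (by omega : 0 < q)
  have hq1 : (1 : ℝ) ≤ q := by exact_mod_cast (by omega : 1 ≤ q)
  have h1 := tendsto_inv_pow hq 1 0
  refine squeeze_zero' (Eventually.of_forall fun m => by positivity) ?_ h1
  filter_upwards [ss_succ hq hy, dd_large hq hy] with m hm hm2
  rw [add_zero, div_le_div_iff₀ (by positivity) (by positivity), one_mul, ← pow_add]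
  exact pow_le_pow_right₀ hq1 (by omega)

theorem tendsto_WW (hq : 3 ≤ q) (hy : 0 < y) (hθ : 0 < θ) :
    Tendsto (WW q y θ) atTop (𝓝 (θ * Real.exp (((q : ℝ) - 1) * y))) := by
  set c : ℝ := Real.exp (-(((q : ℝ) - 1) * y)) / θ with hc
  have hc0 : 0 < c := by positivity
  have hW : θ * Real.exp (((q : ℝ) - 1) * y) = 1 / c := by
    rw [hc, Real.exp_neg]
    field_simp
  rw [hW]
  have h1 : Tendsto (fun m : ℕ => (dd q y m : ℝ) * c) atTop atTop :=
    (tendsto_natCast_atTop_atTop.comp (tendsto_dd_atTop hq hy)).atTop_mul_const hc0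
  have h2 : Tendsto (fun u : ℝ => (1 / c) * (1 - 1 / (u + 1))) atTop (𝓝 ((1 / c) * (1 - 0))) :=
    (((tendsto_atTop_add_const_right _ _ tendsto_id).const_div_atTop 1).const_sub 1).const_mul _
  rw [sub_zero, mul_one] at h2
  refine tendsto_of_tendsto_of_tendsto_of_le_of_le (h2.comp h1) tendsto_const_nhds
    (fun m => ?_) (fun m => ?_)
  · have h3 := Nat.floor_le (by positivity : 0 ≤ (dd q y m : ℝ) * c)
    simp only [Function.comp]
    unfold WW NN
    rw [← hc]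
    have h4 : (0 : ℝ) < (dd q y m : ℝ) * c + 1 := by positivity
    have h5 : (0 : ℝ) < (⌊(dd q y m : ℝ) * c⌋₊ : ℝ) + 1 := by positivity
    have h6 : 1 / c * (1 - 1 / ((dd q y m : ℝ) * c + 1)) =
        (dd q y m : ℝ) / ((dd q y m : ℝ) * c + 1) := by
      field_simp
      ring
    rw [h6, one_div, inv_mul_eq_div]
    exact div_le_div_of_nonneg_left (Nat.cast_nonneg _) h5 (by linarith)
  · have h3 := Nat.lt_floor_add_one ((dd q y m : ℝ) * c)
    unfold WW NN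
    rw [← hc]
    have h5 : (0 : ℝ) < (⌊(dd q y m : ℝ) * c⌋₊ : ℝ) + 1 := by positivity
    rw [one_div, inv_mul_eq_div, div_le_div_iff₀ h5 hc0, one_mul]
    exact h3.le

theorem WW_nonneg (q : ℕ) (y θ : ℝ) (m : ℕ) : 0 ≤ WW q y θ m := by
  unfold WW
  positivity

end Seq

/-- the limit of the failure probability -/
noncomputable def PhiQ (q : ℕ) (y θ : ℝ) : ℝ :=
  (Real.exp (-θ) * (1 + θ) + θ ^ 2) * (rr q * Real.exp (-y)) -
    (Real.exp (-θ) + 2 * θ) * ((θ * Real.exp (((q : ℝ) - 1) * y)) *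
      ((1 - 1 / ((q : ℝ) - 1)) * Real.exp (-(q * y)))) +
    (θ * Real.exp (((q : ℝ) - 1) * y)) ^ 2 * (rr q * Real.exp (-((2 * (q : ℝ) - 1) * y)))

theorem flr_tendsto {q : ℕ} (hq : 3 ≤ q) {y θ : ℝ} (hy : 0 < y) (hθ : 0 < θ) {ε : ℝ} (hε : 0 < ε) :
    ∀ᶠ m : ℕ in atTop, flr q (DD q y m) m (NN q y θ m) θ ≤ PhiQ q y θ + ε := by
  have hq' : (3 : ℝ) ≤ q := by exact_mod_cast hq
  have hq0 : (0 : ℝ) < q := by linarith
  set U : ℕ → ℝ := fun m =>
    (Real.exp (-θ) * (1 + θ) + θ ^ 2) * (rr q * Real.exp (-((dd q y m : ℝ) / (q : ℝ) ^ (m + 1))) +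
      rr q / (q : ℝ) ^ (m + 2)) -
    (Real.exp (-θ) + 2 * θ) * (WW q y θ m * ((1 - 1 / ((q : ℝ) - 1)) *
      (Real.exp (-((ss q y m : ℝ) / ((q : ℝ) ^ m - 1))) - (q : ℝ) ^ m / (q : ℝ) ^ (ss q y m)))) +
    WW q y θ m ^ 2 * ((rr q * Real.exp (-((ss q y m : ℝ) / (q : ℝ) ^ m)) +
      rr q / (q : ℝ) ^ (m + 1)) / (dd q y m : ℝ) +
      (rr q * Real.exp (-((2 * (q : ℝ) - 1) * (((ss q y m - 1 : ℕ) : ℝ) / (q : ℝ) ^ (m + 1)))) +
      rr q / (q : ℝ) ^ (m + 2))) with hU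
  have hlim : Tendsto U atTop (𝓝 (
    (Real.exp (-θ) * (1 + θ) + θ ^ 2) * (rr q * Real.exp (-y) + 0) -
    (Real.exp (-θ) + 2 * θ) * ((θ * Real.exp (((q : ℝ) - 1) * y)) * ((1 - 1 / ((q : ℝ) - 1)) *
      (Real.exp (-(q * y)) - 0))) +
    (θ * Real.exp (((q : ℝ) - 1) * y)) ^ 2 * (0 +
      (rr q * Real.exp (-((2 * (q : ℝ) - 1) * y)) + 0)))) := by
    rw [hU]
    have t1 : Tendsto (fun m : ℕ => Real.exp (-((dd q y m : ℝ) / (q : ℝ) ^ (m + 1)))) atTop
        (𝓝 (Real.exp (-y))) := (Real.continuous_exp.tendsto _).comp (tendsto_dd hq hy).neg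
    have t2 : Tendsto (fun m : ℕ => Real.exp (-((ss q y m : ℝ) / ((q : ℝ) ^ m - 1)))) atTop
        (𝓝 (Real.exp (-(q * y)))) := (Real.continuous_exp.tendsto _).comp (tendsto_ss_q' hq hy).neg
    have t3 : Tendsto (fun m : ℕ => Real.exp (-((ss q y m : ℝ) / (q : ℝ) ^ m))) atTop
        (𝓝 (Real.exp (-(q * y)))) := (Real.continuous_exp.tendsto _).comp (tendsto_ss_q hq hy).neg
    have t4 : Tendsto (fun m : ℕ => Real.exp (-((2 * (q : ℝ) - 1) *
        (((ss q y m - 1 : ℕ) : ℝ) / (q : ℝ) ^ (m + 1))))) atTop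
        (𝓝 (Real.exp (-((2 * (q : ℝ) - 1) * y)))) :=
      (Real.continuous_exp.tendsto _).comp ((tendsto_ss_pred hq hy).const_mul _).neg
    have t5 := tendsto_WW (q := q) hq hy hθ
    have t6 : Tendsto (fun m : ℕ => (dd q y m : ℝ)) atTop atTop :=
      tendsto_natCast_atTop_atTop.comp (tendsto_dd_atTop hq hy)
    have t7 : Tendsto (fun m : ℕ => (rr q * Real.exp (-((ss q y m : ℝ) / (q : ℝ) ^ m)) +
      rr q / (q : ℝ) ^ (m + 1)) / (dd q y m : ℝ)) atTop (𝓝 0) :=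
      ((t3.const_mul _).add (tendsto_inv_pow hq (rr q) 1)).div_atTop t6
    refine Tendsto.add (Tendsto.sub ?_ ?_) ?_
    · exact ((t1.const_mul _).add (tendsto_inv_pow hq (rr q) 2)).const_mul _
    · exact (t5.mul ((t2.sub (tendsto_small hq hy)).const_mul _)).const_mul _
    · exact (t5.pow 2).mul (t7.add ((t4.const_mul _).add (tendsto_inv_pow hq (rr q) 2)))
  have hval : (Real.exp (-θ) * (1 + θ) + θ ^ 2) * (rr q * Real.exp (-y) + 0) -
    (Real.exp (-θ) + 2 * θ) * ((θ * Real.exp (((q : ℝ) - 1) * y)) * ((1 - 1 / ((q : ℝ) - 1)) *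
      (Real.exp (-(q * y)) - 0))) +
    (θ * Real.exp (((q : ℝ) - 1) * y)) ^ 2 * (0 +
      (rr q * Real.exp (-((2 * (q : ℝ) - 1) * y)) + 0)) = PhiQ q y θ := by
    unfold PhiQ
    ring
  rw [hval] at hlim
  -- the bracket of the lower bound is eventually nonnegative
  have hpos : ∀ᶠ m : ℕ in atTop, 0 ≤ Real.exp (-((ss q y m : ℝ) / ((q : ℝ) ^ m - 1))) -
      (q : ℝ) ^ m / (q : ℝ) ^ (ss q y m) := by
    have t2 : Tendsto (fun m : ℕ => Real.exp (-((ss q y m : ℝ) / ((q : ℝ) ^ m - 1))) -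
      (q : ℝ) ^ m / (q : ℝ) ^ (ss q y m)) atTop
        (𝓝 (Real.exp (-(q * y)) - 0)) :=
      ((Real.continuous_exp.tendsto _).comp (tendsto_ss_q' hq hy).neg).sub (tendsto_small hq hy)
    rw [sub_zero] at t2
    filter_upwards [t2.eventually_const_lt (Real.exp_pos _)] with m hm
    exact hm.le
  have hkq : ∀ᶠ m : ℕ in atTop, 2 * q ≤ q ^ (m + 1) := by
    filter_upwards [eventually_ge_atTop 1] with m hm
    calc 2 * q ≤ q * q := Nat.mul_le_mul_right q (by omega)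
      _ = q ^ 2 := by ring
      _ ≤ q ^ (m + 1) := Nat.pow_le_pow_right (by omega) (by omega)
  filter_upwards [hlim.eventually_lt_const (by linarith : PhiQ q y θ < PhiQ q y θ + ε), hpos, hkq,
    ss_succ hq hy, dd_large hq hy, eventually_ge_atTop 1] with m h1 h2 h3 h4 h5 h6
  refine le_trans ?_ h1.le
  have hDm : DD q y m + m = ss q y m := rfl
  have hDm1 : DD q y m + m + 1 = dd q y m := by rw [hDm]; exact h4
  have hd0 : (0 : ℝ) < (dd q y m : ℝ) := by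
    have : 0 < dd q y m := by omega
    exact_mod_cast this
  have b1 : PA q (DD q y m + m + 1) (DD q y m) (m + 1) ≤
      rr q * Real.exp (-((dd q y m : ℝ) / (q : ℝ) ^ (m + 1))) + rr q / (q : ℝ) ^ (m + 2) := by
    have := PA_le (q := q) hq (DD q y m) (m + 1)
    have e : DD q y m + (m + 1) = dd q y m := by omega
    rw [e] at this
    rw [hDm1]
    exact this
  have b2 : PA q (DD q y m + m) (DD q y m) m ≤
      rr q * Real.exp (-((ss q y m : ℝ) / (q : ℝ) ^ m)) + rr q / (q : ℝ) ^ (m + 1) := by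
    have := PA_le (q := q) hq (DD q y m) m
    rw [hDm] at this ⊢
    exact this
  have b3 : PP q (DD q y m + m) (DD q y m) (m + 1) ≤
      rr q * Real.exp (-((2 * (q : ℝ) - 1) * (((ss q y m - 1 : ℕ) : ℝ) / (q : ℝ) ^ (m + 1)))) +
      rr q / (q : ℝ) ^ (m + 2) := by
    have := PP_le (q := q) hq (D := DD q y m) (m := m) (by omega) h3
    rw [hDm] at this ⊢
    rw [← mul_div_assoc]
    exact this
  have b4 : (1 - 1 / ((q : ℝ) - 1)) *
      (Real.exp (-((ss q y m : ℝ) / ((q : ℝ) ^ m - 1))) - (q : ℝ) ^ m / (q : ℝ) ^ (ss q y m)) ≤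
      PB q (DD q y m + m) (DD q y m) m := by
    have := PB_ge (q := q) hq (D := DD q y m) (m := m) h6 (by rw [hDm]; exact h2)
    rw [hDm] at this ⊢
    exact this
  have hW0 := WW_nonneg q y θ m
  have c0 : 0 ≤ Real.exp (-θ) * (1 + θ) + θ ^ 2 := by positivity
  have c1 : 0 ≤ Real.exp (-θ) + 2 * θ := by positivity
  have hflr : flr q (DD q y m) m (NN q y θ m) θ =
      (Real.exp (-θ) * (1 + θ) + θ ^ 2) * PA q (DD q y m + m + 1) (DD q y m) (m + 1) -
      (Real.exp (-θ) + 2 * θ) * (WW q y θ m * PB q (DD q y m + m) (DD q y m) m) +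
      WW q y θ m ^ 2 * (PA q (DD q y m + m) (DD q y m) m / (dd q y m : ℝ) +
        PP q (DD q y m + m) (DD q y m) (m + 1)) := by
    unfold flr WW
    rw [hDm1]
    field_simp
  rw [hflr, hU]
  have g1 := mul_le_mul_of_nonneg_left b1 c0
  have g2 := mul_le_mul_of_nonneg_left (mul_le_mul_of_nonneg_left b4 hW0) c1
  have g3 : PA q (DD q y m + m) (DD q y m) m / (dd q y m : ℝ) ≤
      (rr q * Real.exp (-((ss q y m : ℝ) / (q : ℝ) ^ m)) +
      rr q / (q : ℝ) ^ (m + 1)) / (dd q y m : ℝ) := div_le_div_of_nonneg_right b2 hd0.le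
  have g4 := mul_le_mul_of_nonneg_left (add_le_add g3 b3) (sq_nonneg (WW q y θ m))
  simp only
  linarith

theorem cost_tendsto {q : ℕ} (hq : 3 ≤ q) {y θ : ℝ} (hy : 0 < y) (hθ : 0 < θ) {J : ℕ}
    {δ c : ℕ → ℝ} {K y' x D₁ : ℝ} (h0 : ∀ m, 0 ≤ δ m) (hc0 : c 0 = 0)
    (hc : ∀ m, m + 1 < J → ((m : ℝ) + 1) * δ m ≤ c (m + 1))
    (hK : ∀ m : ℕ, ((m : ℝ) + 1) * δ m ≤ K) (hy' : y' < y) (hx : y < x) (hJ : 1 ≤ J)
    (hD : Real.exp (-y') * Psi J c K x ≤ D₁) {ε : ℝ} (hε : 0 < ε) :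
    ∀ᶠ m : ℕ in atTop, ((ss q y m : ℝ) + 1) * cost q (DD q y m) m (NN q y θ m) δ ≤
      rr q * D₁ + rr q * (θ * Real.exp (-y)) + ε := by
  have hq' : (3 : ℝ) ≤ q := by exact_mod_cast hq
  have hq0 : (0 : ℝ) < q := by linarith
  set U : ℕ → ℝ := fun m =>
    rr q * (D₁ + K / (q : ℝ) ^ (m + 1)) +
        rr q * ((dd q y m : ℝ) / ((q : ℝ) ^ (m + 2)) ^ 2) +
    WW q y θ m * (rr q * Real.exp (-((ss q y m : ℝ) / (q : ℝ) ^ m)) + rr q / (q : ℝ) ^ (m + 1))
    with hU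
  have t0 : Tendsto (fun m : ℕ => (dd q y m : ℝ) / ((q : ℝ) ^ (m + 2)) ^ 2) atTop (𝓝 0) := by
    have h1 := (tendsto_dd hq hy).mul (tendsto_inv_pow hq 1 3)
    rw [mul_zero] at h1
    refine h1.congr fun m => ?_
    rw [div_mul_div_comm, mul_one, ← pow_add, ← pow_mul]
    congr 2
    ring
  have hlim : Tendsto U atTop (𝓝 (rr q * (D₁ + 0) + rr q * 0 +
      (θ * Real.exp (((q : ℝ) - 1) * y)) * (rr q * Real.exp (-(q * y)) + 0))) := by
    rw [hU]
    have t3 : Tendsto (fun m : ℕ => Real.exp (-((ss q y m : ℝ) / (q : ℝ) ^ m))) atTop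
        (𝓝 (Real.exp (-(q * y)))) := (Real.continuous_exp.tendsto _).comp (tendsto_ss_q hq hy).neg
    exact ((((tendsto_inv_pow hq K 1).const_add _).const_mul _).add (t0.const_mul _)).add
      ((tendsto_WW hq hy hθ).mul ((t3.const_mul _).add (tendsto_inv_pow hq (rr q) 1)))
  have hval : rr q * (D₁ + 0) + rr q * 0 +
      (θ * Real.exp (((q : ℝ) - 1) * y)) * (rr q * Real.exp (-(q * y)) + 0) =
      rr q * D₁ + rr q * (θ * Real.exp (-y)) := by
    have e : Real.exp (-y) = Real.exp (((q : ℝ) - 1) * y) * Real.exp (-(q * y)) := by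
      rw [← Real.exp_add]
      congr 1
      ring
    rw [e]
    ring
  rw [hval] at hlim
  have e1 : ∀ᶠ m : ℕ in atTop, y' ≤ (ss q y m : ℝ) / (q : ℝ) ^ (m + 1) := by
    filter_upwards [(tendsto_ss hq hy).eventually_const_lt hy'] with m hm
    exact hm.le
  have e2 : ∀ᶠ m : ℕ in atTop, ((ss q y m : ℝ) + 1) / (q : ℝ) ^ (m + 1) *
      Real.exp (1 / (q : ℝ) ^ (m + 1)) ≤ x := by
    have t1 : Tendsto (fun m : ℕ => ((ss q y m : ℝ) + 1) / (q : ℝ) ^ (m + 1) *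
      Real.exp (1 / (q : ℝ) ^ (m + 1))) atTop (𝓝 (y * Real.exp 0)) := by
      refine Tendsto.mul ?_ ((Real.continuous_exp.tendsto _).comp (tendsto_inv_pow hq 1 1))
      refine (tendsto_dd hq hy).congr' ?_
      filter_upwards [ss_succ hq hy] with m hm
      rw [← hm]
      push_cast
      ring
    rw [Real.exp_zero, mul_one] at t1
    filter_upwards [t1.eventually_lt_const hx] with m hm
    exact hm.le
  filter_upwards [hlim.eventually_lt_const (by linarith : rr q * D₁ + rr q * (θ * Real.exp (-y)) <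
    rr q * D₁ + rr q * (θ * Real.exp (-y)) + ε), e1, e2, ss_succ hq hy] with m h1 h2 h3 h4
  refine le_trans ?_ h1.le
  have hDm : DD q y m + m = ss q y m := rfl
  have hd : (dd q y m : ℝ) = (ss q y m : ℝ) + 1 := by
    rw [← h4]
    push_cast
    ring
  have b1 := P1_le (q := q) hq (D := DD q y m) (m := m) (J := J) (δ := δ) (c := c) (K := K)
    (y := y') (x := x) (D₁ := D₁) h0 hc0 hc hK (by rw [hDm]; exact h2) hJ (by rw [hDm]; exact h3) hD
  have b2 := PA_le (q := q) hq (DD q y m) m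
  rw [hDm] at b1 b2
  have hW0 := WW_nonneg q y θ m
  have g1 := mul_le_mul_of_nonneg_left b2 hW0
  have hc : ((ss q y m : ℝ) + 1) * cost q (DD q y m) m (NN q y θ m) δ =
      ((ss q y m : ℝ) + 1) * P1 q (ss q y m) (DD q y m) (m + 1) δ +
        WW q y θ m * PA q (ss q y m) (DD q y m) m := by
    unfold cost WW
    rw [hDm, hd]
    ring
  rw [hc, hU]
  simp only
  rw [hd]
  linarith

end Run7.h670.CL
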