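import Pool.Agent.Run7.h670.CL.Rnd
import Pool.Agent.H369R2.TD.Bin

/-!
# Explicit bounds for the parameters of the two-stage code
-/

set_option autoImplicit false

open Finset Pool.Agent.H369R2.TD

namespace Run7.h670.CL

/-- `q^(m²)` divided by the number of bases -/
noncomputable def rho (q m : ℕ) : ℝ := (q : ℝ) ^ (m * m) / (gl q m : ℝ)

theorem gl_cast {q : ℕ} (hq : 1 ≤ q) (m : ℕ) :
    (gl q m : ℝ) = ∏ i ∈ range m, ((q : ℝ) ^ m - (q : ℝ) ^ i) := by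
  unfold gl
  rw [Nat.cast_prod]
  refine prod_congr rfl fun i hi => ?_
  rw [mem_range] at hi
  rw [Nat.cast_sub (Nat.pow_le_pow_right hq hi.le)]
  push_cast
  rfl

theorem prod_sub_ge (a : ℝ) (ha : 0 ≤ a) (b : ℕ → ℝ) (hb : ∀ i, 0 ≤ b i) :
    ∀ m : ℕ, (∀ i < m, b i ≤ a) →
      a ^ m - a ^ (m - 1) * ∑ i ∈ range m, b i ≤ ∏ i ∈ range m, (a - b i)
  | 0, _ => by simp
  | 1, _ => by simp
  | (m + 2), h => by
    have ih := prod_sub_ge a ha b hb (m + 1) fun i hi => h i (by omega)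
    rw [prod_range_succ, sum_range_succ]
    have h1 : 0 ≤ a - b (m + 1) := by linarith [h (m + 1) (by omega)]
    have h2 := mul_le_mul_of_nonneg_right ih h1
    refine le_trans ?_ h2
    have e1 : m + 1 - 1 = m := by omega
    have e2 : m + 2 - 1 = m + 1 := by omega
    rw [e1, e2]
    have h3 : 0 ≤ a ^ m * (∑ i ∈ range (m + 1), b i) * b (m + 1) := by
      have : 0 ≤ ∑ i ∈ range (m + 1), b i := sum_nonneg fun i _ => hb i
      have := hb (m + 1)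
      positivity
    have e3 : (a ^ (m + 1) - a ^ m * ∑ i ∈ range (m + 1), b i) * (a - b (m + 1)) =
        a ^ (m + 2) - a ^ (m + 1) * (∑ i ∈ range (m + 1), b i + b (m + 1)) +
          a ^ m * (∑ i ∈ range (m + 1), b i) * b (m + 1) := by ring
    rw [e3]
    linarith

theorem rho_pos {q : ℕ} (hq : 2 ≤ q) (m : ℕ) : 0 < rho q m := by
  unfold rho
  have h1 : (0 : ℝ) < (gl q m : ℝ) := by exact_mod_cast gl_pos hq m
  have h2 : (0 : ℝ) < q := by exact_mod_cast (by omega : 0 < q)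
  positivity

theorem one_le_rho {q : ℕ} (hq : 2 ≤ q) (m : ℕ) : 1 ≤ rho q m := by
  unfold rho
  have h1 : (0 : ℝ) < (gl q m : ℝ) := by exact_mod_cast gl_pos hq m
  have h2 : (0 : ℝ) < q := by exact_mod_cast (by omega : 0 < q)
  rw [one_le_div h1, gl_cast (by omega) m]
  calc ∏ i ∈ range m, ((q : ℝ) ^ m - (q : ℝ) ^ i) ≤ ∏ _i ∈ range m, (q : ℝ) ^ m := by
        refine prod_le_prod (fun i hi => ?_) (fun i _ => ?_)
        · rw [mem_range] at hi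
          rw [sub_nonneg]
          exact pow_le_pow_right₀ (by exact_mod_cast (by omega : 1 ≤ q)) hi.le
        · have : 0 < (q : ℝ) ^ i := by positivity
          linarith
    _ = (q : ℝ) ^ (m * m) := by rw [prod_const, card_range, pow_mul]

theorem rho_le {q : ℕ} (hq : 3 ≤ q) (m : ℕ) : rho q m ≤ ((q : ℝ) - 1) / ((q : ℝ) - 2) := by
  have hq' : (3 : ℝ) ≤ q := by exact_mod_cast hq
  unfold rho
  have h1 : (0 : ℝ) < (gl q m : ℝ) := by exact_mod_cast gl_pos (by omega) m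
  rw [div_le_div_iff₀ h1 (by linarith), gl_cast (by omega) m]
  rcases Nat.eq_zero_or_pos m with rfl | hm
  · simp
    linarith
  · have h2 := prod_sub_ge ((q : ℝ) ^ m) (by positivity) (fun i => (q : ℝ) ^ i)
      (fun i => by positivity) m (fun i hi => pow_le_pow_right₀ (by linarith) hi.le)
    have h3 : (∑ i ∈ range m, (q : ℝ) ^ i) * ((q : ℝ) - 1) ≤ (q : ℝ) ^ m := by
      rw [geom_sum_mul]
      linarith
    have h4 : ((q : ℝ) ^ m) ^ m = ((q : ℝ) ^ m) ^ (m - 1) * (q : ℝ) ^ m := by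
      rw [← pow_succ]
      congr 1
      omega
    have h5 : (q : ℝ) ^ (m * m) = ((q : ℝ) ^ m) ^ m := by rw [pow_mul]
    have h6 := mul_le_mul_of_nonneg_left h2 (by linarith : (0 : ℝ) ≤ (q : ℝ) - 1)
    refine le_trans ?_ h6
    rw [h5, h4]
    have h7 : (0 : ℝ) ≤ ((q : ℝ) ^ m) ^ (m - 1) := by positivity
    nlinarith [mul_le_mul_of_nonneg_left h3 h7]

/-- the factor -/
noncomputable def rr (q : ℕ) : ℝ := ((q : ℝ) - 1) / ((q : ℝ) - 2)

theorem rr_pos {q : ℕ} (hq : 3 ≤ q) : 0 < rr q := (rho_pos (by omega) 0).trans_le (rho_le hq 0)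

/-- `1/gl` in terms of `rho` -/
theorem div_gl {q : ℕ} (hq : 2 ≤ q) (m D : ℕ) (a : ℝ) :
    a / ((q : ℝ) ^ (m * D) * (gl q m : ℝ)) = rho q m * (a / ((q : ℝ) ^ m) ^ (D + m)) := by
  have h1 : (0 : ℝ) < (gl q m : ℝ) := by exact_mod_cast gl_pos hq m
  have h2 : (0 : ℝ) < q := by exact_mod_cast (by omega : 0 < q)
  unfold rho
  rw [pow_add, ← pow_mul, ← pow_mul]
  field_simp

theorem err_eq {q : ℕ} (hq : 2 ≤ q) (D m : ℕ) :
    err q (D + m) D m = rho q (m + 1) / (q : ℝ) ^ (m + 1) := by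
  have h1 : (0 : ℝ) < (gl q (m + 1) : ℝ) := by exact_mod_cast gl_pos hq (m + 1)
  have h2 : (0 : ℝ) < q := by exact_mod_cast (by omega : 0 < q)
  unfold err rho
  rw [div_div, div_eq_div_iff (by positivity) (by positivity)]
  ring

theorem err_eq' {q : ℕ} (hq : 2 ≤ q) (D m : ℕ) :
    err q (D + m) D (m + 1) = rho q (m + 2) / ((q : ℝ) ^ (m + 2)) ^ 2 := by
  have h1 : (0 : ℝ) < (gl q (m + 1 + 1) : ℝ) := by exact_mod_cast gl_pos hq (m + 1 + 1)
  have h2 : (0 : ℝ) < q := by exact_mod_cast (by omega : 0 < q)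
  unfold err rho
  rw [div_div, div_eq_div_iff (by positivity) (by positivity)]
  ring

theorem one_sub_pow_le {Q c : ℝ} (hQ : 0 < Q) (hc : c ≤ Q) (s : ℕ) :
    (Q - c) ^ s / Q ^ s ≤ Real.exp (-(c * s / Q)) := by
  rw [← div_pow]
  have h1 : (Q - c) / Q ≤ Real.exp (-(c / Q)) := by
    have h2 := Real.one_sub_le_exp_neg (c / Q)
    have h3 : (Q - c) / Q = 1 - c / Q := by field_simp
    rw [h3]; exact h2
  have h4 : 0 ≤ (Q - c) / Q := div_nonneg (by linarith) hQ.le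
  calc ((Q - c) / Q) ^ s ≤ (Real.exp (-(c / Q))) ^ s := pow_le_pow_left₀ h4 h1 s
    _ = Real.exp (-(c * s / Q)) := by
        rw [← Real.exp_nat_mul]
        congr 1
        ring

theorem one_sub_pow_ge {Q : ℝ} (hQ : 1 < Q) (s : ℕ) :
    Real.exp (-(s / (Q - 1))) ≤ (Q - 1) ^ s / Q ^ s := by
  have hQ1 : 0 < Q - 1 := by linarith
  rw [← div_pow]
  have h1 : Real.exp (-(1 / (Q - 1))) ≤ (Q - 1) / Q := by
    rw [Real.exp_neg, inv_le_comm₀ (Real.exp_pos _) (by positivity), inv_div]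
    have h2 := Real.add_one_le_exp (1 / (Q - 1))
    have h3 : Q / (Q - 1) = 1 / (Q - 1) + 1 := by field_simp; ring
    rw [h3]
    exact h2
  calc Real.exp (-(s / (Q - 1))) = (Real.exp (-(1 / (Q - 1)))) ^ s := by
        rw [← Real.exp_nat_mul]
        congr 1
        ring
    _ ≤ ((Q - 1) / Q) ^ s := pow_le_pow_left₀ (Real.exp_pos _).le h1 s

theorem PA_le {q : ℕ} (hq : 3 ≤ q) (D m : ℕ) :
    PA q (D + m) D m ≤ rr q * Real.exp (-(((D + m : ℕ) : ℝ) / (q : ℝ) ^ m)) +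
      rr q / (q : ℝ) ^ (m + 1) := by
  have hq' : (3 : ℝ) ≤ q := by exact_mod_cast hq
  have h2 : (0 : ℝ) < q := by linarith
  have hQ : (0 : ℝ) < (q : ℝ) ^ m := by positivity
  have hQ1 : (1 : ℝ) ≤ (q : ℝ) ^ m := one_le_pow₀ (by linarith)
  unfold PA
  rw [div_gl (by omega), err_eq (by omega)]
  refine add_le_add ?_ ?_
  · have h3 := one_sub_pow_le hQ hQ1 (D + m)
    rw [one_mul] at h3
    exact mul_le_mul (rho_le hq m) h3 (div_nonneg (pow_nonneg (by linarith) _) (by positivity))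
      (rr_pos hq).le
  · exact div_le_div_of_nonneg_right (rho_le hq (m + 1)) (by positivity)

theorem PA_nonneg {q : ℕ} (hq : 3 ≤ q) (D m : ℕ) : 0 ≤ PA q (D + m) D m := by
  have hq' : (3 : ℝ) ≤ q := by exact_mod_cast hq
  have hQ1 : (1 : ℝ) ≤ (q : ℝ) ^ m := one_le_pow₀ (by linarith)
  unfold PA
  have h1 := err_nonneg q (D + m) D m
  have h3 : 0 ≤ ((q : ℝ) ^ m - 1) ^ (D + m) := pow_nonneg (by linarith) _
  positivity

theorem PP_le {q : ℕ} (hq : 3 ≤ q) {D m : ℕ} (hs : 1 ≤ D + m) (hk : 2 * q ≤ q ^ (m + 1)) :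
    PP q (D + m) D (m + 1) ≤
      rr q * Real.exp (-((2 * (q : ℝ) - 1) * ((D + m - 1 : ℕ) : ℝ) / (q : ℝ) ^ (m + 1))) +
      rr q / (q : ℝ) ^ (m + 2) := by
  have hq' : (3 : ℝ) ≤ q := by exact_mod_cast hq
  have h2 : (0 : ℝ) < q := by linarith
  have hQ : (0 : ℝ) < (q : ℝ) ^ (m + 1) := by positivity
  have hk' : 2 * (q : ℝ) - 1 ≤ (q : ℝ) ^ (m + 1) := by
    have : (2 * (q : ℝ)) ≤ (q : ℝ) ^ (m + 1) := by exact_mod_cast hk
    linarith
  unfold PP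
  rw [div_gl (by omega)]
  have e1 : err q (D + m + 1) D (m + 1) = rho q (m + 2) / (q : ℝ) ^ (m + 2) := by
    have := err_eq (q := q) (by omega) D (m + 1)
    rw [← this]
    rfl
  rw [e1]
  refine add_le_add ?_ ?_
  · have h3 := one_sub_pow_le hQ hk' (D + m - 1)
    have h4 : ((q : ℝ) ^ (m + 1)) ^ 2 * ((q : ℝ) ^ (m + 1) - (2 * (q : ℝ) - 1)) ^ (D + m - 1) /
        ((q : ℝ) ^ (m + 1)) ^ (D + (m + 1)) =
        ((q : ℝ) ^ (m + 1) - (2 * (q : ℝ) - 1)) ^ (D + m - 1) /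
          ((q : ℝ) ^ (m + 1)) ^ (D + m - 1) := by
      have h5 : D + (m + 1) = 2 + (D + m - 1) := by omega
      rw [h5, pow_add ((q : ℝ) ^ (m + 1)) 2, mul_div_mul_left _ _ (by positivity)]
    rw [h4]
    exact mul_le_mul (rho_le hq (m + 1)) h3
      (div_nonneg (pow_nonneg (by linarith) _) (by positivity)) (rr_pos hq).le
  · exact div_le_div_of_nonneg_right (rho_le hq (m + 2)) (by positivity)

theorem PB_ge {q : ℕ} (hq : 3 ≤ q) {D m : ℕ} (hm : 1 ≤ m)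
    (h0 : 0 ≤ Real.exp (-(((D + m : ℕ) : ℝ) / ((q : ℝ) ^ m - 1))) -
      (q : ℝ) ^ m / (q : ℝ) ^ (D + m)) :
    (1 - 1 / ((q : ℝ) - 1)) * (Real.exp (-(((D + m : ℕ) : ℝ) / ((q : ℝ) ^ m - 1))) -
      (q : ℝ) ^ m / (q : ℝ) ^ (D + m)) ≤ PB q (D + m) D m := by
  have hq' : (3 : ℝ) ≤ q := by exact_mod_cast hq
  have h2 : (0 : ℝ) < q := by linarith
  have hQ1 : (1 : ℝ) < (q : ℝ) ^ m := one_lt_pow₀ (by linarith) (by omega)
  have h3 := one_sub_pow_ge hQ1 (D + m)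
  unfold PB
  rw [div_gl (by omega)]
  have h4 : (1 - 1 / ((q : ℝ) - 1)) * (((q : ℝ) ^ m - 1) ^ (D + m) -
      (q : ℝ) ^ m * (((q : ℝ) ^ m) ^ (D + m) / (q : ℝ) ^ (D + m))) / ((q : ℝ) ^ m) ^ (D + m) =
      (1 - 1 / ((q : ℝ) - 1)) * (((q : ℝ) ^ m - 1) ^ (D + m) / ((q : ℝ) ^ m) ^ (D + m) -
        (q : ℝ) ^ m / (q : ℝ) ^ (D + m)) := by
    have h5 : ((q : ℝ) ^ m) ^ (D + m) ≠ 0 := by positivity
    have h6 : (q : ℝ) ^ (D + m) ≠ 0 := by positivity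
    field_simp
  rw [h4]
  have h5 : 0 ≤ 1 - 1 / ((q : ℝ) - 1) := by
    rw [sub_nonneg, div_le_one (by linarith)]
    linarith
  have h6 : (1 - 1 / ((q : ℝ) - 1)) * (Real.exp (-(((D + m : ℕ) : ℝ) / ((q : ℝ) ^ m - 1))) -
      (q : ℝ) ^ m / (q : ℝ) ^ (D + m)) ≤ (1 - 1 / ((q : ℝ) - 1)) *
      (((q : ℝ) ^ m - 1) ^ (D + m) / ((q : ℝ) ^ m) ^ (D + m) -
        (q : ℝ) ^ m / (q : ℝ) ^ (D + m)) := mul_le_mul_of_nonneg_left (by linarith) h5
  have h7 : 0 ≤ (1 - 1 / ((q : ℝ) - 1)) * (Real.exp (-(((D + m : ℕ) : ℝ) / ((q : ℝ) ^ m - 1))) -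
      (q : ℝ) ^ m / (q : ℝ) ^ (D + m)) := mul_nonneg h5 h0
  have h8 := one_le_rho (q := q) (by omega) m
  calc _ ≤ (1 - 1 / ((q : ℝ) - 1)) *
      (((q : ℝ) ^ m - 1) ^ (D + m) / ((q : ℝ) ^ m) ^ (D + m) -
        (q : ℝ) ^ m / (q : ℝ) ^ (D + m)) := h6
    _ = 1 * ((1 - 1 / ((q : ℝ) - 1)) *
      (((q : ℝ) ^ m - 1) ^ (D + m) / ((q : ℝ) ^ m) ^ (D + m) -
        (q : ℝ) ^ m / (q : ℝ) ^ (D + m))) := by rw [one_mul]
    _ ≤ _ := mul_le_mul_of_nonneg_right h8 (h7.trans h6)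

/-- the first stage -/
theorem P1_le {q : ℕ} (hq : 3 ≤ q) {D m J : ℕ} {δ c : ℕ → ℝ} {K y x D₁ : ℝ}
    (h0 : ∀ m, 0 ≤ δ m)
    (hc0 : c 0 = 0) (hc : ∀ m, m + 1 < J → ((m : ℝ) + 1) * δ m ≤ c (m + 1))
    (hK : ∀ m : ℕ, ((m : ℝ) + 1) * δ m ≤ K)
    (hy : y ≤ ((D + m : ℕ) : ℝ) / (q : ℝ) ^ (m + 1)) (hJ : 1 ≤ J)
    (hx : (((D + m : ℕ) : ℝ) + 1) / (q : ℝ) ^ (m + 1) * Real.exp (1 / (q : ℝ) ^ (m + 1)) ≤ x)
    (hD : Real.exp (-y) * Psi J c K x ≤ D₁) :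
    (((D + m : ℕ) : ℝ) + 1) * P1 q (D + m) D (m + 1) δ ≤
      rr q * (D₁ + K / (q : ℝ) ^ (m + 1)) +
        rr q * ((((D + m : ℕ) : ℝ) + 1) / ((q : ℝ) ^ (m + 2)) ^ 2) := by
  have hq' : (3 : ℝ) ≤ q := by exact_mod_cast hq
  have h2 : (0 : ℝ) < q := by linarith
  have hQ2 : 2 ≤ q ^ (m + 1) := by
    calc 2 ≤ q := by omega
      _ = q ^ 1 := (pow_one q).symm
      _ ≤ q ^ (m + 1) := Nat.pow_le_pow_right (by omega) (by omega)
  have hA := detA_le (d := D + m) (q := q ^ (m + 1)) (δ := δ) (c := c) (K := K) (y := y) (x := x)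
    (J := J) hQ2 h0 hc0 hc hK (by push_cast; exact_mod_cast hy) hJ (by push_cast; exact_mod_cast hx)
  set s := D + m with hs
  set Q : ℝ := (q : ℝ) ^ (m + 1) with hQdef
  have hQ2' : (2 : ℝ) ≤ Q := by
    rw [hQdef]
    exact_mod_cast hQ2
  have hQc : ((q ^ (m + 1) : ℕ) : ℝ) = Q := by rw [hQdef]; push_cast; rfl
  rw [hQc] at hA
  have hQ0 : 0 < Q := by linarith
  have hQ1 : 0 < Q - 1 := by linarith
  have hK0 : 0 ≤ K := (mul_nonneg (by positivity) (h0 0)).trans (hK 0)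
  -- the main sum
  have e1 : ∑ j ∈ range (s + 1), (s.choose j : ℝ) * (δ j * (Q - 1) ^ (s - j)) =
      (Q - 1) * Q ^ s * detA s (q ^ (m + 1)) δ + δ s := by
    rw [sum_range_succ, Nat.choose_self, Nat.sub_self, pow_zero]
    unfold detA
    rw [hQc, mul_sum]
    congr 1
    · refine sum_congr rfl fun j hj => ?_
      rw [mem_range] at hj
      have h3 : s - j = (s - j - 1) + 1 := by omega
      rw [h3, pow_succ]
      have h4 : s - j - 1 + 1 - 1 = s - j - 1 := by omega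
      rw [h4]
      field_simp
    · push_cast
      ring
  have hsD : D + (m + 1) = s + 1 := by omega
  have e2 : P1 q s D (m + 1) δ = rho q (m + 1) * (((Q - 1) / Q) * detA s (q ^ (m + 1)) δ +
      δ s / Q ^ (s + 1)) + rho q (m + 2) / ((q : ℝ) ^ (m + 2)) ^ 2 := by
    unfold P1
    rw [div_gl (by omega), hsD, ← hQdef, e1]
    have h3 := err_eq' (q := q) (by omega) D m
    rw [← hs] at h3
    rw [h3]
    congr 2
    generalize detA s (q ^ (m + 1)) δ = A0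
    rw [pow_succ]
    field_simp
  have hA0 : 0 ≤ detA s (q ^ (m + 1)) δ := detA_nonneg hQ2 h0
  have hs0 : (0 : ℝ) < (s : ℝ) + 1 := by positivity
  have h3 : ((s : ℝ) + 1) * (((Q - 1) / Q) * detA s (q ^ (m + 1)) δ + δ s / Q ^ (s + 1)) ≤
      D₁ + K / Q := by
    have h4 : ((s : ℝ) + 1) * (((Q - 1) / Q) * detA s (q ^ (m + 1)) δ) ≤ D₁ := by
      calc ((s : ℝ) + 1) * (((Q - 1) / Q) * detA s (q ^ (m + 1)) δ)
          = ((Q - 1) / Q) * (((s : ℝ) + 1) * detA s (q ^ (m + 1)) δ) := by ring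
        _ ≤ ((Q - 1) / Q) * (Q / (Q - 1) * (Real.exp (-y) * Psi J c K x)) :=
            mul_le_mul_of_nonneg_left hA (by positivity)
        _ = Real.exp (-y) * Psi J c K x := by
            field_simp
        _ ≤ D₁ := hD
    have h5 : ((s : ℝ) + 1) * (δ s / Q ^ (s + 1)) ≤ K / Q := by
      calc ((s : ℝ) + 1) * (δ s / Q ^ (s + 1)) = (((s : ℝ) + 1) * δ s) / Q ^ (s + 1) := by ring
        _ ≤ K / Q ^ (s + 1) := div_le_div_of_nonneg_right (hK s) (by positivity)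
        _ ≤ K / Q := by
            refine div_le_div_of_nonneg_left hK0 hQ0 ?_
            calc Q = Q ^ 1 := (pow_one Q).symm
              _ ≤ Q ^ (s + 1) := pow_le_pow_right₀ (by linarith) (by omega)
    rw [mul_add]
    linarith
  have h4 : 0 ≤ ((s : ℝ) + 1) * (((Q - 1) / Q) * detA s (q ^ (m + 1)) δ + δ s / Q ^ (s + 1)) := by
    have := h0 s
    positivity
  rw [e2]
  calc ((s : ℝ) + 1) * (rho q (m + 1) * (((Q - 1) / Q) * detA s (q ^ (m + 1)) δ +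
      δ s / Q ^ (s + 1)) + rho q (m + 2) / ((q : ℝ) ^ (m + 2)) ^ 2)
      = rho q (m + 1) * (((s : ℝ) + 1) * (((Q - 1) / Q) * detA s (q ^ (m + 1)) δ +
      δ s / Q ^ (s + 1))) + rho q (m + 2) * (((s : ℝ) + 1) / ((q : ℝ) ^ (m + 2)) ^ 2) := by ring
    _ ≤ rr q * (D₁ + K / Q) + rr q * (((s : ℝ) + 1) / ((q : ℝ) ^ (m + 2)) ^ 2) := by
        refine add_le_add (mul_le_mul (rho_le hq _) h3 h4 (rr_pos hq).le) ?_
        exact mul_le_mul_of_nonneg_right (rho_le hq _) (by positivity)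

end Run7.h670.CL
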