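import Pool.Agent.Run7.h670.CL.Lin

/-!
# Counting tuples by their columns
-/

set_option autoImplicit false

open Finset

namespace Run7.h670.CL

variable {n D : ℕ} {F : Type} [Field F] [Fintype F]

open Classical in
/-- the linearly independent `m`-tuples supported on `A` -/
noncomputable def sp (F : Type) [Field F] [Fintype F] (A : Finset (Fin n)) (m : ℕ) :
    Finset (Fin m → Fin n → F) :=
  univ.filter fun a => LinearIndependent F a ∧ ∀ i v, v ∉ A → a i v = 0

theorem mem_sp {A : Finset (Fin n)} {m : ℕ} {a : Fin m → Fin n → F} :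
    a ∈ sp F A m ↔ LinearIndependent F a ∧ ∀ i v, v ∉ A → a i v = 0 := by
  unfold sp
  simp

omit [Field F] [Fintype F] in
theorem prod_ite_card (A : Finset (Fin n)) (c : ℕ) :
    (∏ v : Fin n, if v ∈ A then c else 1) = c ^ A.card := by
  rw [Finset.prod_ite_mem, univ_inter, prod_const]

omit [Field F] [Fintype F] in
/-- columns -/
theorem card_le_pi {m : ℕ} (s : Finset (Fin m → Fin n → F)) (G : Fin n → Finset (Fin m → F))
    (h : ∀ a ∈ s, ∀ v, (fun i => a i v) ∈ G v) : s.card ≤ ∏ v, (G v).card := by
  classical
  rw [← Fintype.card_piFinset]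
  refine card_le_card_of_injOn (fun a v i => a i v) ?_ ?_
  · intro a ha
    rw [mem_coe, Fintype.mem_piFinset]
    exact h a ha
  · intro a _ b _ hab
    funext i v
    exact congrFun (congrFun hab v) i

omit [Field F] in
theorem card_univ_col (m : ℕ) : (univ : Finset (Fin m → F)).card = Fintype.card F ^ m := by
  simp

/-- tuples supported on `A` whose zero set inside `A` is contained in `Z` -/
theorem card_zero {m : ℕ} (A Z : Finset (Fin n)) (s : Finset (Fin m → Fin n → F))
    (hZA : Z ⊆ A) (h1 : ∀ a ∈ s, ∀ i v, v ∉ A → a i v = 0)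
    (h2 : ∀ a ∈ s, ∀ v ∈ A, v ∉ Z → ∃ i, a i v ≠ 0) (h3 : ∀ a ∈ s, ∀ v ∈ Z, ∀ i, a i v = 0) :
    s.card ≤ (Fintype.card F ^ m - 1) ^ (A.card - Z.card) := by
  classical
  refine (card_le_pi s (fun v => if v ∈ A \ Z then univ.erase 0 else {0}) ?_).trans ?_
  · intro a ha v
    split_ifs with hv
    · rw [mem_sdiff] at hv
      obtain ⟨i, hi⟩ := h2 a ha v hv.1 hv.2
      rw [mem_erase]
      exact ⟨fun h => hi (congrFun h i), mem_univ _⟩
    · rw [mem_singleton]
      funext i
      by_cases hA : v ∈ A
      · have hZ : v ∈ Z := by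
          by_contra hc
          exact hv (mem_sdiff.2 ⟨hA, hc⟩)
        exact h3 a ha v hZ i
      · exact h1 a ha i v hA
  · apply le_of_eq
    have e1 : ∀ v : Fin n, (if v ∈ A \ Z then (univ.erase 0 : Finset (Fin m → F)) else {0}).card =
        if v ∈ A \ Z then (Fintype.card F ^ m - 1) else 1 := by
      intro v
      split_ifs
      · rw [card_erase_of_mem (mem_univ _), card_univ_col]
      · simp
    rw [prod_congr rfl fun v _ => e1 v, prod_ite_card, card_sdiff_of_subset hZA]

/-- all tuples supported on `A` -/
theorem card_supp {m : ℕ} (A : Finset (Fin n)) (s : Finset (Fin m → Fin n → F))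
    (h1 : ∀ a ∈ s, ∀ i v, v ∉ A → a i v = 0) : s.card ≤ Fintype.card F ^ (m * A.card) := by
  classical
  refine (card_le_pi s (fun v => if v ∈ A then univ else {0}) ?_).trans ?_
  · intro a ha v
    split_ifs with hv
    · exact mem_univ _
    · rw [mem_singleton]
      funext i
      exact h1 a ha i v hv
  · apply le_of_eq
    have e1 : ∀ v : Fin n, (if v ∈ A then (univ : Finset (Fin m → F)) else {0}).card =
        if v ∈ A then (Fintype.card F ^ m) else 1 := by
      intro v
      split_ifs
      · rw [card_univ_col]
      · simp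
    rw [prod_congr rfl fun v _ => e1 v, prod_ite_card, ← pow_mul]

open Classical in
/-- the line of `p` -/
noncomputable def ln {m : ℕ} (p : Fin m → F) : Finset (Fin m → F) := univ.image fun c : F => c • p

theorem mem_ln {m : ℕ} {p r : Fin m → F} : r ∈ ln p ↔ ∃ c : F, c • p = r := by
  unfold ln
  simp

theorem card_ln {m : ℕ} {p : Fin m → F} (hp : p ≠ 0) : (ln p).card = Fintype.card F := by
  classical
  unfold ln
  rw [card_image_of_injective, card_univ]
  intro c c' h
  obtain ⟨i, hi⟩ : ∃ i, p i ≠ 0 := by
    by_contra hc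
    push Not at hc
    exact hp (funext hc)
  have := congrFun h i
  simp only [Pi.smul_apply, smul_eq_mul] at this
  exact mul_right_cancel₀ hi this

theorem card_two_ln [DecidableEq F] {m : ℕ} {p r : Fin m → F} (h1 : r ∉ ln p) (h2 : p ∉ ln r) :
    (univ \ (ln p ∪ ln r)).card = Fintype.card F ^ m - (2 * Fintype.card F - 1) := by
  classical
  have hp : p ≠ 0 := by
    rintro rfl
    exact h2 (mem_ln.2 ⟨0, by simp⟩)
  have hr : r ≠ 0 := by
    rintro rfl
    exact h1 (mem_ln.2 ⟨0, by simp⟩)
  have h3 : ln p ∩ ln r = {0} := by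
    ext z
    rw [mem_inter, mem_singleton, mem_ln, mem_ln]
    constructor
    · rintro ⟨⟨c, rfl⟩, ⟨c', h⟩⟩
      by_contra hz
      have hc : c ≠ 0 := by
        rintro rfl
        simp at hz
      apply h2
      rw [mem_ln]
      refine ⟨c⁻¹ * c', ?_⟩
      rw [mul_smul, h, smul_smul, inv_mul_cancel₀ hc, one_smul]
    · rintro rfl
      exact ⟨⟨0, by simp⟩, ⟨0, by simp⟩⟩
  have h4 := card_union_add_card_inter (ln p) (ln r)
  rw [h3, card_singleton, card_ln hp, card_ln hr] at h4
  rw [card_sdiff_of_subset (subset_univ _), card_univ_col]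
  omega

/-- tuples for which two points give clean subsets -/
theorem card_pair {m : ℕ} (A : Finset (Fin n)) {v w : Fin n} (hv : v ∈ A) (hw : w ∈ A)
    (hvw : v ≠ w) (s : Finset (Fin m → Fin n → F))
    (h1 : ∀ a ∈ s, ∀ i u, u ∉ A → a i u = 0)
    (h2 : ∀ a ∈ s, ∀ u ∈ A, u ≠ v → (fun i => a i u) ∉ ln (fun i => a i v))
    (h3 : ∀ a ∈ s, ∀ u ∈ A, u ≠ w → (fun i => a i u) ∉ ln (fun i => a i w)) :
    s.card ≤ (Fintype.card F ^ m) ^ 2 *
      (Fintype.card F ^ m - (2 * Fintype.card F - 1)) ^ (A.card - 2) := by
  classical
  have h4 : s ⊆ (univ : Finset ((Fin m → F) × (Fin m → F))).biUnion fun p =>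
      s.filter fun a => (fun i => a i v) = p.1 ∧ (fun i => a i w) = p.2 := by
    intro a ha
    rw [mem_biUnion]
    exact ⟨(fun i => a i v, fun i => a i w), mem_univ _, mem_filter.2 ⟨ha, rfl, rfl⟩⟩
  refine (card_le_card h4).trans (card_biUnion_le.trans ?_)
  have h5 : (Fintype.card F ^ m) ^ 2 = (univ : Finset ((Fin m → F) × (Fin m → F))).card := by
    simp [sq]
  rw [h5, ← smul_eq_mul, ← sum_const]
  refine sum_le_sum fun p _ => ?_
  rcases (s.filter fun a => (fun i => a i v) = p.1 ∧ (fun i => a i w) = p.2).eq_empty_or_nonempty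
    with he | ⟨a₀, ha₀⟩
  · rw [he]
    simp
  · obtain ⟨ha1, ha2, ha3⟩ := mem_filter.1 ha₀
    have e1 : p.2 ∉ ln p.1 := by
      rw [← ha2, ← ha3]
      exact h2 a₀ ha1 w hw hvw.symm
    have e2 : p.1 ∉ ln p.2 := by
      rw [← ha2, ← ha3]
      exact h3 a₀ ha1 v hv hvw
    refine (card_le_pi _ (fun u => if u = v then {p.1} else if u = w then {p.2} else
      if u ∈ A then univ \ (ln p.1 ∪ ln p.2) else {0}) ?_).trans ?_
    · intro a ha u
      obtain ⟨hb1, hb2, hb3⟩ := mem_filter.1 ha
      split_ifs with g1 g2 g3
      · rw [mem_singleton, g1, hb2]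
      · rw [mem_singleton, g2, hb3]
      · rw [mem_sdiff, mem_union, not_or]
        refine ⟨mem_univ _, ?_, ?_⟩
        · rw [← hb2]
          exact h2 a hb1 u g3 g1
        · rw [← hb3]
          exact h3 a hb1 u g3 g2
      · rw [mem_singleton]
        funext i
        exact h1 a hb1 i u g3
    · apply le_of_eq
      have e3 : ∀ u : Fin n, (if u = v then {p.1} else if u = w then {p.2} else
          if u ∈ A then univ \ (ln p.1 ∪ ln p.2) else ({0} : Finset (Fin m → F))).card =
          if u ∈ (A.erase v).erase w then (Fintype.card F ^ m - (2 * Fintype.card F - 1)) else 1 := by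
        intro u
        by_cases g1 : u = v
        · simp [g1]
        · by_cases g2 : u = w
          · simp [g2, hvw.symm]
          · by_cases g3 : u ∈ A
            · rw [if_neg g1, if_neg g2, if_pos g3, if_pos (by simp [g1, g2, g3]),
                card_two_ln e1 e2]
            · rw [if_neg g1, if_neg g2, if_neg g3, if_neg (by simp [g3])]
              simp
      rw [prod_congr rfl fun u _ => e3 u, prod_ite_card,
        card_erase_of_mem (mem_erase.2 ⟨hvw.symm, hw⟩), card_erase_of_mem hv]
      rfl

/-- the number of vectors orthogonal to a nonzero vector -/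
theorem card_orth [DecidableEq F] {m : ℕ} {c : Fin m → F} (hc : c ≠ 0) :
    (univ.filter fun p : Fin m → F => ∑ i, c i * p i = 0).card * Fintype.card F =
      Fintype.card F ^ m := by
  classical
  have hli : LinearIndependent F (fun _ : Fin 1 => c) := by
    rw [linearIndependent_unique_iff]
    exact hc
  have h1 := card_ann (D := 1) hli
  have h2 : (univ.filter fun x : Fin m → Fin 1 → F => ∀ i : Fin 1,
      ∑ v, (fun _ : Fin 1 => c) i v • x v = 0).card =
      (univ.filter fun p : Fin m → F => ∑ i, c i * p i = 0).card := by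
    refine card_bij (fun x _ v => x v 0) ?_ ?_ ?_
    · intro x hx
      rw [mem_filter] at hx ⊢
      refine ⟨mem_univ _, ?_⟩
      have := congrFun (hx.2 0) 0
      simpa [Finset.sum_apply] using this
    · intro x _ y _ hxy
      funext v j
      have : j = 0 := Subsingleton.elim _ _
      rw [this]
      exact congrFun hxy v
    · intro p hp
      rw [mem_filter] at hp
      refine ⟨fun v _ => p v, ?_, rfl⟩
      rw [mem_filter]
      refine ⟨mem_univ _, fun _ => ?_⟩
      funext j
      simpa [Finset.sum_apply] using hp.2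
  have h3 : (univ.filter fun x : Fin m → Fin 1 → F => ∀ i : Fin 1,
      ∑ v, (fun _ : Fin 1 => c) i v • x v = 0).card * Fintype.card F ^ (1 * 1) =
      Fintype.card (Fin m → Fin 1 → F) := by
    convert h1 using 2
    congr!
  rw [h2] at h3
  simpa using h3

/-- lower bound for the number of linearly independent tuples without a common zero in `A` -/
theorem card_full_ge {m : ℕ} (A : Finset (Fin n)) (P : (Fin m → Fin n → F) → Prop)
    [DecidablePred P] (hP : ∀ a, P a ↔ ∀ v ∈ A, ∃ i, a i v ≠ 0) :
    ((Fintype.card F ^ m - 1 : ℕ) : ℝ) ^ A.card -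
      (Fintype.card F : ℝ) ^ m * (((Fintype.card F : ℝ) ^ m) ^ A.card / (Fintype.card F : ℝ) ^ A.card) ≤
      (((sp F A m).filter P).card : ℝ) := by
  classical
  set q := Fintype.card F with hq
  have hq0 : (0 : ℝ) < q := by
    rw [hq]
    exact_mod_cast Fintype.card_pos
  -- all tuples without a common zero
  set U : Finset (Fin m → Fin n → F) := univ.filter fun a => (∀ i v, v ∉ A → a i v = 0) ∧ P a
    with hU
  have hUc : U.card = (q ^ m - 1) ^ A.card := by
    have e0 : U.card = (Fintype.piFinset fun v : Fin n => if v ∈ A then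
        (univ.erase 0 : Finset (Fin m → F)) else {0}).card := by
      refine card_bij (fun a _ v i => a i v) ?_ ?_ ?_
      · intro a ha
        obtain ⟨-, h1, h2⟩ := mem_filter.1 ha
        rw [Fintype.mem_piFinset]
        intro v
        split_ifs with hv
        · obtain ⟨i, hi⟩ := (hP a).1 h2 v hv
          rw [mem_erase]
          exact ⟨fun h => hi (congrFun h i), mem_univ _⟩
        · rw [mem_singleton]
          funext i
          exact h1 i v hv
      · intro a _ b _ hab
        funext i v
        exact congrFun (congrFun hab v) i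
      · intro c hc
        rw [Fintype.mem_piFinset] at hc
        refine ⟨fun i v => c v i, ?_, rfl⟩
        rw [hU, mem_filter]
        refine ⟨mem_univ _, fun i v hv => ?_, (hP _).2 fun v hv => ?_⟩
        · have := hc v
          rw [if_neg hv, mem_singleton] at this
          exact congrFun this i
        · have := hc v
          rw [if_pos hv, mem_erase] at this
          by_contra hcon
          push Not at hcon
          exact this.1 (funext hcon)
    rw [e0, Fintype.card_piFinset]
    have e1 : ∀ v : Fin n, (if v ∈ A then (univ.erase 0 : Finset (Fin m → F)) else {0}).card =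
        if v ∈ A then (q ^ m - 1) else 1 := by
      intro v
      split_ifs
      · rw [card_erase_of_mem (mem_univ _), card_univ_col]
      · simp
    rw [prod_congr rfl fun v _ => e1 v, prod_ite_card]
  -- the dependent ones
  set V : Finset (Fin m → Fin n → F) := U.filter fun a => ¬ LinearIndependent F a with hV
  have hUV : U.card = ((sp F A m).filter P).card + V.card := by
    rw [← card_filter_add_card_filter_not (s := U) (fun a => LinearIndependent F a)]
    congr 2
    ext a
    simp only [hU, mem_filter, mem_univ, true_and, mem_sp]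
    tauto
  have hVc : (V.card : ℝ) ≤ (q : ℝ) ^ m * (((q : ℝ) ^ m) ^ A.card / (q : ℝ) ^ A.card) := by
    have h4 : V ⊆ (univ.filter fun c : Fin m → F => c ≠ 0).biUnion fun c =>
        V.filter fun a => ∀ v, ∑ i, c i * a i v = 0 := by
      intro a ha
      have hnl := (mem_filter.1 ha).2
      rw [Fintype.not_linearIndependent_iff] at hnl
      obtain ⟨c, hc1, i, hi⟩ := hnl
      rw [mem_biUnion]
      refine ⟨c, mem_filter.2 ⟨mem_univ _, fun h => hi (congrFun h i)⟩, mem_filter.2 ⟨ha, fun v => ?_⟩⟩
      have := congrFun hc1 v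
      simpa [Finset.sum_apply] using this
    have h5 : ∀ c ∈ (univ.filter fun c : Fin m → F => c ≠ 0),
        (((V.filter fun a => ∀ v, ∑ i, c i * a i v = 0).card : ℕ) : ℝ) ≤
          ((q : ℝ) ^ m) ^ A.card / (q : ℝ) ^ A.card := by
      intro c hc
      have hc0 := (mem_filter.1 hc).2
      have h6 := card_orth hc0
      have h7 : (((univ.filter fun p : Fin m → F => ∑ i, c i * p i = 0).card : ℕ) : ℝ) =
          (q : ℝ) ^ m / q := by
        rw [eq_div_iff hq0.ne']
        exact_mod_cast h6
      have h8 : (V.filter fun a => ∀ v, ∑ i, c i * a i v = 0).card ≤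
          (univ.filter fun p : Fin m → F => ∑ i, c i * p i = 0).card ^ A.card := by
        refine (card_le_pi _ (fun v => if v ∈ A then
          (univ.filter fun p : Fin m → F => ∑ i, c i * p i = 0) else {0}) ?_).trans ?_
        · intro a ha v
          obtain ⟨ha1, ha2⟩ := mem_filter.1 ha
          split_ifs with hv
          · rw [mem_filter]
            exact ⟨mem_univ _, ha2 v⟩
          · rw [mem_singleton]
            funext i
            exact (mem_filter.1 (mem_filter.1 ha1).1).2.1 i v hv
        · apply le_of_eq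
          have e1 : ∀ v : Fin n, (if v ∈ A then
              (univ.filter fun p : Fin m → F => ∑ i, c i * p i = 0) else {0}).card =
              if v ∈ A then (univ.filter fun p : Fin m → F => ∑ i, c i * p i = 0).card else 1 := by
            intro v
            split_ifs
            · rfl
            · simp
          rw [prod_congr rfl fun v _ => e1 v, prod_ite_card]
      calc (((V.filter fun a => ∀ v, ∑ i, c i * a i v = 0).card : ℕ) : ℝ) ≤
          (((univ.filter fun p : Fin m → F => ∑ i, c i * p i = 0).card : ℕ) : ℝ) ^ A.card := by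
            exact_mod_cast h8
        _ = ((q : ℝ) ^ m / q) ^ A.card := by rw [h7]
        _ = _ := by rw [div_pow]
    calc (V.card : ℝ) ≤ ((∑ c ∈ (univ.filter fun c : Fin m → F => c ≠ 0),
          (V.filter fun a => ∀ v, ∑ i, c i * a i v = 0).card : ℕ) : ℝ) := by
          exact_mod_cast (card_le_card h4).trans card_biUnion_le
      _ ≤ ∑ c ∈ (univ.filter fun c : Fin m → F => c ≠ 0),
          ((q : ℝ) ^ m) ^ A.card / (q : ℝ) ^ A.card := by
          push_cast
          exact sum_le_sum h5
      _ ≤ _ := by
          rw [sum_const, nsmul_eq_mul]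
          refine mul_le_mul_of_nonneg_right ?_ (by positivity)
          have : (univ.filter fun c : Fin m → F => c ≠ 0).card ≤ q ^ m := by
            refine (card_filter_le _ _).trans ?_
            rw [card_univ_col]
          exact_mod_cast this
  have h9 : (((q ^ m - 1 : ℕ) : ℝ)) ^ A.card = (U.card : ℝ) := by
    rw [hUc]
    push_cast
    rfl
  rw [h9, hUV]
  push_cast
  linarith

end Run7.h670.CL
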