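import Pool.Agent.Run7.h670.CL.Low
import Pool.Agent.H369R2.TD.Perm
import Pool.Agent.TH527.LG.Two

/-!
# The two-stage family of a linear code with a clean second stage
-/

set_option autoImplicit false

open Finset Pool.Agent.H369R2.TD

namespace Run7.h670.CL

variable {n D N : ℕ} {F : Type} [Field F] [Fintype F]

open Classical in
/-- the family -/
noncomputable def fam (s k : ℕ) (T : ℕ → Finset (Finset (Fin n))) (x : Fin n → Fin D → F)
    (ξ : Finset (Fin n) → Fin (N + 1)) (π : Equiv.Perm (Fin n)) : Finset (Finset (Fin n)) :=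
  univ.filter fun Z => Z.card = s ∧
    ((k ≤ Module.finrank F (dep x Z) ∧ (col x Z).map π.toEmbedding ∈ T (col x Z).card) ∨
      (Cln x Z ∧ ξ Z = 0))

theorem mem_fam {s k : ℕ} {T : ℕ → Finset (Finset (Fin n))} {x : Fin n → Fin D → F}
    {ξ : Finset (Fin n) → Fin (N + 1)} {π : Equiv.Perm (Fin n)} {Z : Finset (Fin n)} :
    Z ∈ fam s k T x ξ π ↔ Z.card = s ∧
    ((k ≤ Module.finrank F (dep x Z) ∧ (col x Z).map π.toEmbedding ∈ T (col x Z).card) ∨
      (Cln x Z ∧ ξ Z = 0)) := by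
  unfold fam
  simp

/-- an uncovered set is clean and has no chosen clean subset -/
theorem uncovered {s k : ℕ} {T : ℕ → Finset (Finset (Fin n))}
    (hT1 : ∀ j, ∀ Z ∈ T j, Z.card = j)
    (hT2 : ∀ j, ∀ Y : Finset (Fin n), Y.card = j + 1 → ∃ Z ∈ T j, Z ⊆ Y)
    (hk : D + k = s + 1)
    {x : Fin n → Fin D → F} {ξ : Finset (Fin n) → Fin (N + 1)} {π : Equiv.Perm (Fin n)}
    {Y : Finset (Fin n)} (hY : Y.card = s + 1) (h : ¬ ∃ Z ∈ fam s k T x ξ π, Z ⊆ Y) :
    Cln x Y ∧ ∀ v ∈ Y, Cln x (Y.erase v) → ξ (Y.erase v) ≠ 0 := by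
  classical
  constructor
  · rw [cln_iff]
    by_contra hne
    obtain ⟨v₀, hv₀⟩ := nonempty_iff_ne_empty.2 hne
    set J := col x Y with hJ
    have hJc : ((J.map π.toEmbedding)).card = (J.card - 1) + 1 := by
      rw [card_map]
      have : 0 < J.card := card_pos.2 ⟨v₀, hv₀⟩
      omega
    obtain ⟨W, hW1, hW2⟩ := hT2 (J.card - 1) _ hJc
    obtain ⟨J', hJ', rfl⟩ := Finset.subset_map_iff.mp hW2
    have hJ'c : J'.card = J.card - 1 := by
      have := hT1 _ _ hW1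
      rwa [card_map] at this
    obtain ⟨v, hv1, hv2⟩ : ∃ v ∈ J, v ∉ J' := by
      by_contra hc
      push Not at hc
      have h1 : J ⊆ J' := fun v hv => hc v hv
      have h2 := card_le_card h1
      have : 0 < J.card := card_pos.2 ⟨v₀, hv₀⟩
      omega
    have hJ'e : J' = J.erase v := by
      apply eq_of_subset_of_card_le
      · intro u hu
        exact mem_erase.2 ⟨fun hh => hv2 (hh ▸ hu), hJ' hu⟩
      · rw [card_erase_of_mem hv1, hJ'c]
    obtain ⟨hvY, hvz⟩ := mem_col.1 hv1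
    have hdep : dep x (Y.erase v) = dep x Y := by
      apply le_antisymm (dep_mono x (erase_subset v Y))
      intro α hα
      exact mem_dep_erase.2 ⟨hα, hvz α hα⟩
    have hcol : col x (Y.erase v) = J' := by
      rw [hJ'e]
      ext u
      rw [mem_col, mem_erase, mem_erase, hJ, mem_col, hdep]
      tauto
    apply h
    refine ⟨Y.erase v, mem_fam.2 ⟨?_, Or.inl ⟨?_, ?_⟩⟩, erase_subset v Y⟩
    · rw [card_erase_of_mem hvY, hY]
      rfl
    · rw [hdep]
      have := card_le_finrank x Y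
      omega
    · rw [hcol, hJ'c]
      exact hW1
  · intro v hv hcl h0
    apply h
    refine ⟨Y.erase v, mem_fam.2 ⟨?_, Or.inr ⟨hcl, h0⟩⟩, erase_subset v Y⟩
    rw [card_erase_of_mem hv, hY]
    rfl

/-- number of labellings avoiding `0` on a family of sets -/
theorem sum_label (n N : ℕ) (𝒳 : Finset (Finset (Fin n))) :
    ∑ ξ : Finset (Fin n) → Fin (N + 1), ind (∀ Z ∈ 𝒳, ξ Z ≠ 0) =
      (Fintype.card (Finset (Fin n) → Fin (N + 1)) : ℝ) *
        (1 - 1 / ((N : ℝ) + 1)) ^ 𝒳.card := by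
  classical
  have hN : (0 : ℝ) < (N : ℝ) + 1 := by positivity
  have e1 : ∀ ξ : Finset (Fin n) → Fin (N + 1), ind (∀ Z ∈ 𝒳, ξ Z ≠ 0) =
      ∏ Z : Finset (Fin n), (if Z ∈ 𝒳 ∧ ξ Z = 0 then (0 : ℝ) else 1) := by
    intro ξ
    by_cases h : ∀ Z ∈ 𝒳, ξ Z ≠ 0
    · rw [ind_pos h]
      symm
      apply prod_eq_one
      intro Z _
      rw [if_neg]
      rintro ⟨h1, h2⟩
      exact h Z h1 h2
    · rw [ind_neg h]
      push Not at h
      obtain ⟨Z, h1, h2⟩ := h
      symm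
      apply prod_eq_zero (mem_univ Z)
      rw [if_pos ⟨h1, h2⟩]
  simp only [e1]
  rw [← Fintype.prod_sum (fun (Z : Finset (Fin n)) (c : Fin (N + 1)) =>
    (if Z ∈ 𝒳 ∧ c = 0 then (0 : ℝ) else 1))]
  have e2 : ∀ Z : Finset (Fin n), ∑ c : Fin (N + 1), (if Z ∈ 𝒳 ∧ c = 0 then (0 : ℝ) else 1) =
      ((N : ℝ) + 1) * (if Z ∈ 𝒳 then (1 - 1 / ((N : ℝ) + 1)) else 1) := by
    intro Z
    rw [Fin.sum_univ_succ]
    by_cases hZ : Z ∈ 𝒳
    · simp [hZ, Fin.succ_ne_zero]
      field_simp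
      ring
    · simp [hZ]
      ring
  rw [prod_congr rfl fun Z _ => e2 Z, prod_mul_distrib, prod_const, Finset.prod_ite_mem,
    univ_inter, prod_const, card_univ]
  congr 1
  simp

/-- number of clean subsets -/
noncomputable def cl (x : Fin n → Fin D → F) (Y : Finset (Fin n)) : ℝ :=
  ∑ v ∈ Y, ind (Cln x (Y.erase v))

omit [Fintype F] in
theorem cl_nonneg (x : Fin n → Fin D → F) (Y : Finset (Fin n)) : 0 ≤ cl x Y :=
  sum_nonneg fun _ _ => ind_nonneg _

omit [Fintype F] in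
theorem label_le (N : ℕ) {θ : ℝ} (hθ : 0 ≤ θ) (x : Fin n → Fin D → F) (Y : Finset (Fin n)) :
    ∑ ξ : Finset (Fin n) → Fin (N + 1),
      ind (∀ v ∈ Y, Cln x (Y.erase v) → ξ (Y.erase v) ≠ 0) ≤
      (Fintype.card (Finset (Fin n) → Fin (N + 1)) : ℝ) *
        ((Real.exp (-θ) * (1 + θ) + θ ^ 2) - (Real.exp (-θ) + 2 * θ) * (1 / ((N : ℝ) + 1) * cl x Y) +
          (1 / ((N : ℝ) + 1) * cl x Y) ^ 2) := by
  classical
  set 𝒳 : Finset (Finset (Fin n)) := (Y.filter fun v => Cln x (Y.erase v)).image fun v => Y.erase v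
    with h𝒳
  have h1 : ∀ ξ : Finset (Fin n) → Fin (N + 1),
      ind (∀ v ∈ Y, Cln x (Y.erase v) → ξ (Y.erase v) ≠ 0) = ind (∀ Z ∈ 𝒳, ξ Z ≠ 0) := by
    intro ξ
    congr 1
    apply propext
    constructor
    · intro h Z hZ
      obtain ⟨v, hv, rfl⟩ := mem_image.1 hZ
      obtain ⟨h2, h3⟩ := mem_filter.1 hv
      exact h v h2 h3
    · intro h v hv hc
      exact h _ (mem_image.2 ⟨v, mem_filter.2 ⟨hv, hc⟩, rfl⟩)
  simp only [h1]
  rw [sum_label]
  have h2 : (𝒳.card : ℝ) = cl x Y := by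
    rw [h𝒳, card_image_of_injOn]
    · unfold cl
      rw [card_filter]
      push_cast
      refine sum_congr rfl fun v _ => ?_
      rw [ind_eq]
    · intro v hv w hw hvw
      have hv' := (mem_filter.1 (mem_coe.1 hv)).1
      have hw' := (mem_filter.1 (mem_coe.1 hw)).1
      exact Finset.erase_injOn Y hv' hw' hvw
  refine mul_le_mul_of_nonneg_left ?_ (Nat.cast_nonneg _)
  have hN : (0 : ℝ) < (N : ℝ) + 1 := by positivity
  have h3 : 0 ≤ 1 - 1 / ((N : ℝ) + 1) := by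
    rw [sub_nonneg, div_le_one hN]
    have : (0 : ℝ) ≤ N := Nat.cast_nonneg N
    linarith
  have h4 : (1 - 1 / ((N : ℝ) + 1)) ^ 𝒳.card ≤ Real.exp (-(1 / ((N : ℝ) + 1) * cl x Y)) := by
    calc (1 - 1 / ((N : ℝ) + 1)) ^ 𝒳.card ≤ (Real.exp (-(1 / ((N : ℝ) + 1)))) ^ 𝒳.card := by
          refine pow_le_pow_left₀ h3 ?_ _
          have := Real.add_one_le_exp (-(1 / ((N : ℝ) + 1)))
          linarith
      _ = Real.exp (-(1 / ((N : ℝ) + 1) * cl x Y)) := by
          rw [← Real.exp_nat_mul, h2]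
          congr 1
          ring
  exact h4.trans (Pool.Agent.TH527.LG.exp_quad hθ (mul_nonneg (by positivity) (cl_nonneg x Y)))

omit [Fintype F] in
/-- first moment, pointwise -/
theorem moment_one {m : ℕ} (x : Fin n → Fin D → F) {Y : Finset (Fin n)}
    (hY : Y.card = D + m + 1) :
    ∑ v ∈ Y, ind (Cln x (Y.erase v) ∧ Module.finrank F (dep x (Y.erase v)) = m) ≤
      ind (Cln x Y) * cl x Y := by
  unfold cl
  rw [mul_sum]
  refine sum_le_sum fun v hv => ?_
  by_cases h : Cln x (Y.erase v) ∧ Module.finrank F (dep x (Y.erase v)) = m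
  · obtain ⟨h1, h2⟩ := h
    have h3 : Cln x Y := by
      intro u hu
      by_cases huv : u = v
      · subst huv
        have h4 := card_le_finrank x Y
        have h5 : ¬ dep x Y ≤ dep x (Y.erase u) := by
          intro h6
          have := Submodule.finrank_mono h6
          omega
        obtain ⟨α, h6, h7⟩ := SetLike.not_le_iff_exists.1 h5
        refine ⟨α, h6, fun h8 => h7 (mem_dep_erase.2 ⟨h6, h8⟩)⟩
      · obtain ⟨α, h4, h5⟩ := h1 u (mem_erase.2 ⟨huv, hu⟩)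
        exact ⟨α, dep_mono x (erase_subset v Y) h4, h5⟩
    rw [ind_pos ⟨h1, h2⟩, ind_pos h3, ind_pos h1, mul_one]
  · rw [ind_neg h]
    exact mul_nonneg (ind_nonneg _) (ind_nonneg _)

omit [Fintype F] in
/-- second moment, pointwise -/
theorem moment_two (x : Fin n → Fin D → F) (Y : Finset (Fin n)) :
    ind (Cln x Y) * cl x Y ^ 2 ≤ ∑ v ∈ Y, ind (Cln x (Y.erase v)) +
      ∑ v ∈ Y, ∑ w ∈ Y.erase v, ind (Cln x (Y.erase v) ∧ Cln x (Y.erase w)) := by
  classical
  have h1 : cl x Y ^ 2 = ∑ v ∈ Y, ind (Cln x (Y.erase v)) +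
      ∑ v ∈ Y, ∑ w ∈ Y.erase v, ind (Cln x (Y.erase v) ∧ Cln x (Y.erase w)) := by
    unfold cl
    rw [sq, sum_mul_sum, ← sum_add_distrib]
    refine sum_congr rfl fun v hv => ?_
    rw [← add_sum_erase Y _ hv]
    congr 1
    · by_cases h : Cln x (Y.erase v)
      · rw [ind_pos h]; norm_num
      · rw [ind_neg h]; norm_num
    · refine sum_congr rfl fun w _ => ?_
      rw [ind_and]
  rw [← h1]
  have := ind_le_one (Cln x Y)
  have h2 : 0 ≤ cl x Y ^ 2 := sq_nonneg _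
  nlinarith

end Run7.h670.CL
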