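import Mathlib

/-!
# Dependencies of random vectors: linear algebra and counting
-/

set_option autoImplicit false

open Finset

namespace Run7.h670.CL

variable {n D : ℕ} {F : Type} [Field F]

/-- the dependencies of the vectors `x v` supported on `A` -/
def dep (x : Fin n → Fin D → F) (A : Finset (Fin n)) : Submodule F (Fin n → F) where
  carrier := {α | (∀ v, v ∉ A → α v = 0) ∧ ∑ v, α v • x v = 0}
  add_mem' := by
    rintro α β ⟨h1, h2⟩ ⟨h3, h4⟩
    refine ⟨fun v hv => by simp [h1 v hv, h3 v hv], ?_⟩
    simp only [Pi.add_apply, add_smul, sum_add_distrib, h2, h4, add_zero]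
  zero_mem' := by simp
  smul_mem' := by
    rintro c α ⟨h1, h2⟩
    refine ⟨fun v hv => by simp [h1 v hv], ?_⟩
    simp only [Pi.smul_apply, smul_assoc, ← smul_sum, h2, smul_zero]

theorem mem_dep {x : Fin n → Fin D → F} {A : Finset (Fin n)} {α : Fin n → F} :
    α ∈ dep x A ↔ (∀ v, v ∉ A → α v = 0) ∧ ∑ v, α v • x v = 0 := Iff.rfl

/-- the map whose kernel is `dep x A` -/
def depMap (x : Fin n → Fin D → F) (A : Finset (Fin n)) :
    (Fin n → F) →ₗ[F] (Fin D → F) × ({v // v ∉ A} → F) where
  toFun α := (∑ v, α v • x v, fun v => α v.1)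
  map_add' α β := by
    simp only [Pi.add_apply, add_smul, sum_add_distrib]
    rfl
  map_smul' c α := by
    simp only [Pi.smul_apply, smul_assoc, ← smul_sum, RingHom.id_apply]
    rfl

theorem ker_depMap (x : Fin n → Fin D → F) (A : Finset (Fin n)) :
    LinearMap.ker (depMap x A) = dep x A := by
  ext α
  rw [LinearMap.mem_ker, mem_dep]
  unfold depMap
  simp only [LinearMap.coe_mk, AddHom.coe_mk, Prod.mk_eq_zero]
  constructor
  · rintro ⟨h1, h2⟩
    refine ⟨fun v hv => ?_, h1⟩
    exact congrFun h2 ⟨v, hv⟩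
  · rintro ⟨h1, h2⟩
    exact ⟨h2, funext fun v => h1 v.1 v.2⟩

theorem card_le_finrank (x : Fin n → Fin D → F) (A : Finset (Fin n)) :
    A.card ≤ D + Module.finrank F (dep x A) := by
  have h1 := LinearMap.finrank_range_add_finrank_ker (depMap x A)
  rw [ker_depMap, Module.finrank_fin_fun] at h1
  have h2 : Module.finrank F (LinearMap.range (depMap x A)) ≤ D + (n - A.card) := by
    refine (Submodule.finrank_le _).trans ?_
    rw [Module.finrank_prod, Module.finrank_fin_fun, Module.finrank_fintype_fun_eq_card]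
    have h3 : Fintype.card {v // v ∉ A} = n - A.card := by
      rw [Fintype.card_subtype_compl]
      simp
    rw [h3]
  have h3 : A.card ≤ n := by
    have := card_le_univ A
    rwa [Fintype.card_fin] at this
  omega

theorem dep_mono (x : Fin n → Fin D → F) {A B : Finset (Fin n)} (h : A ⊆ B) :
    dep x A ≤ dep x B := fun _ hα => ⟨fun v hv => hα.1 v fun h' => hv (h h'), hα.2⟩

theorem mem_dep_erase {x : Fin n → Fin D → F} {A : Finset (Fin n)} {v : Fin n} {α : Fin n → F} :
    α ∈ dep x (A.erase v) ↔ α ∈ dep x A ∧ α v = 0 := by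
  rw [mem_dep, mem_dep]
  constructor
  · rintro ⟨h1, h2⟩
    exact ⟨⟨fun w hw => h1 w fun h => hw (mem_of_mem_erase h), h2⟩, h1 v (notMem_erase v A)⟩
  · rintro ⟨⟨h1, h2⟩, h3⟩
    refine ⟨fun w hw => ?_, h2⟩
    by_cases hwv : w = v
    · rw [hwv, h3]
    · exact h1 w fun h => hw (mem_erase.2 ⟨hwv, h⟩)

section Count

variable [Fintype F]

/-- the number of bases of an `m`-dimensional space -/
def gl (q m : ℕ) : ℕ := ∏ i ∈ range m, (q ^ m - q ^ i)

theorem gl_pos {q : ℕ} (hq : 2 ≤ q) (m : ℕ) : 0 < gl q m := by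
  unfold gl
  refine prod_pos fun i hi => ?_
  rw [mem_range] at hi
  have := Nat.pow_lt_pow_right (a := q) (by omega) hi
  omega

open Classical in
/-- the linearly independent `m`-tuples in a subspace -/
noncomputable def tup (W : Submodule F (Fin n → F)) (m : ℕ) : Finset (Fin m → Fin n → F) :=
  univ.filter fun a => LinearIndependent F a ∧ ∀ i, a i ∈ W

theorem mem_tup {W : Submodule F (Fin n → F)} {m : ℕ} {a : Fin m → Fin n → F} :
    a ∈ tup W m ↔ LinearIndependent F a ∧ ∀ i, a i ∈ W := by
  unfold tup
  simp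

theorem card_tup {W : Submodule F (Fin n → F)} {m : ℕ} (hm : m ≤ Module.finrank F W) :
    (tup W m).card = ∏ i ∈ range m, (Fintype.card F ^ Module.finrank F W - Fintype.card F ^ i) := by
  classical
  have h1 := card_linearIndependent (K := F) (V := W) hm
  have h2 : Nat.card {s : Fin m → W // LinearIndependent F s} = (tup W m).card := by
    rw [Nat.card_eq_fintype_card, ← Fintype.card_coe]
    refine Fintype.card_congr ?_
    refine ⟨fun s => ⟨fun i => (s.1 i : Fin n → F), ?_⟩, fun a => ⟨fun i => ⟨a.1 i,
      (mem_tup.1 a.2).2 i⟩, ?_⟩, ?_, ?_⟩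
    · rw [mem_tup]
      refine ⟨?_, fun i => (s.1 i).2⟩
      exact (LinearMap.linearIndependent_iff W.subtype (Submodule.ker_subtype W)).2 s.2
    · have h3 := (mem_tup.1 a.2).1
      exact (LinearMap.linearIndependent_iff W.subtype (Submodule.ker_subtype W)).1 h3
    · intro s
      rfl
    · intro a
      rfl
  rw [← h2, h1, ← Fin.prod_univ_eq_prod_range]

theorem card_tup_eq {W : Submodule F (Fin n → F)} {m : ℕ} (hm : Module.finrank F W = m) :
    (tup W m).card = gl (Fintype.card F) m := by
  rw [card_tup hm.ge, hm, gl]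

theorem gl_le_card_tup {W : Submodule F (Fin n → F)} {m : ℕ} (hm : m ≤ Module.finrank F W) :
    gl (Fintype.card F) m ≤ (tup W m).card := by
  rw [card_tup hm, gl]
  refine prod_le_prod' fun i _ => ?_
  have h1 : Fintype.card F ^ m ≤ Fintype.card F ^ Module.finrank F W :=
    Nat.pow_le_pow_right Fintype.card_pos hm
  omega

/-- a linearly independent tuple has a dual tuple -/
theorem exists_dual {m : ℕ} {a : Fin m → Fin n → F} (ha : LinearIndependent F a) :
    ∃ b : Fin m → Fin n → F, ∀ i j, ∑ v, a i v * b j v = if i = j then 1 else 0 := by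
  classical
  obtain ⟨g, hg⟩ := (Fintype.linearCombination F a).exists_leftInverse_of_injective (by
    rw [LinearMap.ker_eq_bot]
    exact linearIndependent_iff_injective_fintypeLinearCombination.1 ha)
  refine ⟨fun j v => g (Pi.single v 1) j, fun i j => ?_⟩
  have h1 : g (a i) = Pi.single i 1 := by
    have h2 := LinearMap.congr_fun hg (Pi.single i 1)
    simpa [Fintype.linearCombination_apply_single] using h2
  have h3 : a i = ∑ v, a i v • Pi.single v (1 : F) := by
    have := pi_eq_sum_univ' (a i)
    rw [this]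
    funext w
    simp [Finset.sum_apply, Pi.single_apply]
  have h4 : g (a i) j = ∑ v, a i v * g (Pi.single v 1) j := by
    conv_lhs => rw [h3]
    rw [map_sum, Finset.sum_apply]
    refine sum_congr rfl fun v _ => ?_
    rw [map_smul, Pi.smul_apply, smul_eq_mul]
  rw [← h4, h1, Pi.single_apply]
  simp [eq_comm]

/-- the annihilation map of a tuple -/
def annMap {m : ℕ} (a : Fin m → Fin n → F) (D : ℕ) :
    (Fin n → Fin D → F) →ₗ[F] (Fin m → Fin D → F) where
  toFun x i := ∑ v, a i v • x v
  map_add' x y := by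
    funext i
    simp [smul_add, sum_add_distrib]
  map_smul' c x := by
    funext i
    simp only [Pi.smul_apply, RingHom.id_apply]
    rw [smul_sum]
    refine sum_congr rfl fun v _ => ?_
    rw [smul_comm]

theorem annMap_surjective {m : ℕ} {a : Fin m → Fin n → F} (ha : LinearIndependent F a) :
    Function.Surjective (annMap a D) := by
  obtain ⟨b, hb⟩ := exists_dual ha
  intro z
  refine ⟨fun v => ∑ j, b j v • z j, ?_⟩
  funext i
  change ∑ v, a i v • ∑ j, b j v • z j = z i
  have h1 : ∀ v, a i v • ∑ j, b j v • z j = ∑ j, (a i v * b j v) • z j := by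
    intro v
    rw [smul_sum]
    refine sum_congr rfl fun j _ => ?_
    rw [smul_smul]
  simp only [h1]
  rw [sum_comm]
  have h2 : ∀ j, ∑ v, (a i v * b j v) • z j = (if i = j then (1 : F) else 0) • z j := by
    intro j
    rw [← sum_smul, hb]
  simp only [h2]
  simp

open Classical in
/-- a linearly independent `m`-tuple is annihilated by a proportion `q^(-mD)` of all `x` -/
theorem card_ann {m : ℕ} {a : Fin m → Fin n → F} (ha : LinearIndependent F a) :
    (univ.filter fun x : Fin n → Fin D → F => ∀ i, ∑ v, a i v • x v = 0).card *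
      Fintype.card F ^ (m * D) = Fintype.card (Fin n → Fin D → F) := by
  have h1 := Submodule.card_eq_card_quotient_mul_card (LinearMap.ker (annMap a D))
  have h2 : Nat.card ((Fin n → Fin D → F) ⧸ LinearMap.ker (annMap a D)) =
      Nat.card (Fin m → Fin D → F) :=
    Nat.card_congr ((annMap a D).quotKerEquivOfSurjective (annMap_surjective ha)).toEquiv
  have h3 : Nat.card (Fin m → Fin D → F) = Fintype.card F ^ (m * D) := by
    rw [Nat.card_eq_fintype_card]
    simp [pow_mul, mul_comm m D]
  have h4 : Nat.card (LinearMap.ker (annMap a D)) =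
      (univ.filter fun x : Fin n → Fin D → F => ∀ i, ∑ v, a i v • x v = 0).card := by
    rw [Nat.card_eq_fintype_card]
    refine Fintype.card_of_subtype _ fun x => ?_
    rw [mem_filter, LinearMap.mem_ker]
    constructor
    · rintro ⟨-, h⟩
      exact funext h
    · intro h
      exact ⟨mem_univ _, fun i => congrFun h i⟩
  rw [h2, h3, h4, Nat.card_eq_fintype_card] at h1
  rw [h1, mul_comm]

end Count

end Run7.h670.CL
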