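import Pool.Agent.Run7.h670.CL.Prob

/-!
# Lower bound for the probability of being clean
-/

set_option autoImplicit false

open Finset

namespace Run7.h670.CL

variable {n D : ℕ} {F : Type} [Field F] [Fintype F]

open Classical in
theorem sum_ann_ge {A : Finset (Fin n)} {m : ℕ} (hq : 2 ≤ Fintype.card F) (hA : A.card = D + m)
    {a : Fin m → Fin n → F} (ha : a ∈ sp F A m) :
    (Fintype.card (Fin n → Fin D → F) : ℝ) * ((1 - 1 / ((Fintype.card F : ℝ) - 1)) /
      (Fintype.card F : ℝ) ^ (m * D)) ≤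
    ∑ x : Fin n → Fin D → F, ind ((∀ i, ∑ v, a i v • x v = 0) ∧
      Module.finrank F (dep x A) = m) := by
  have hq' : (2 : ℝ) ≤ (Fintype.card F : ℝ) := by exact_mod_cast hq
  set q : ℝ := (Fintype.card F : ℝ) with hqdef
  have hq0 : 0 < q := by linarith
  have hq1 : 0 < q - 1 := by linarith
  have h1 := card_more_le (D := D) ha
  have h2 := card_ann (D := D) (mem_sp.1 ha).1
  have h3 : ((univ.filter fun x : Fin n → Fin D → F => ∀ i, ∑ v, a i v • x v = 0).card : ℝ) =
      (Fintype.card (Fin n → Fin D → F) : ℝ) / q ^ (m * D) := by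
    rw [eq_div_iff (by positivity), hqdef]
    exact_mod_cast h2
  have h4 : ∑ x : Fin n → Fin D → F, ind ((∀ i, ∑ v, a i v • x v = 0) ∧
      Module.finrank F (dep x A) = m) =
      ((univ.filter fun x : Fin n → Fin D → F => ∀ i, ∑ v, a i v • x v = 0).card : ℝ) -
      ((univ.filter fun x : Fin n → Fin D → F => (∀ i, ∑ v, a i v • x v = 0) ∧
      m + 1 ≤ Module.finrank F (dep x A)).card : ℝ) := by
    rw [card_filter, card_filter]
    push_cast
    rw [← sum_sub_distrib]
    refine sum_congr rfl fun x _ => ?_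
    have h5 := card_le_finrank x A
    by_cases hx : ∀ i, ∑ v, a i v • x v = 0
    · by_cases hr : Module.finrank F (dep x A) = m
      · rw [ind_pos ⟨hx, hr⟩, if_pos hx, if_neg (by omega)]
        norm_num
      · rw [ind_neg (by tauto), if_pos hx, if_pos ⟨hx, by omega⟩]
        norm_num
    · rw [ind_neg (by tauto), if_neg hx, if_neg (by tauto)]
      norm_num
  rw [h4, h3]
  set M : ℝ := ((univ.filter fun x : Fin n → Fin D → F => (∀ i, ∑ v, a i v • x v = 0) ∧
      m + 1 ≤ Module.finrank F (dep x A)).card : ℝ) with hM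
  set N : ℝ := (Fintype.card (Fin n → Fin D → F) : ℝ) with hN
  have h5 : M ≤ N * (1 / (q - 1)) / q ^ (m * D) := by
    have e1 : q ^ (m + 1) - q ^ m = q ^ m * (q - 1) := by ring
    rw [e1] at h1
    have e2 : N * q ^ A.card / q ^ ((m + 1) * D) = N * q ^ m / q ^ (m * D) := by
      rw [hA, div_eq_div_iff (by positivity) (by positivity)]
      ring
    rw [e2] at h1
    have e3 : 0 < q ^ m := by positivity
    rw [← mul_assoc] at h1
    have e4 : M * q ^ m ≤ N * q ^ m / q ^ (m * D) / (q - 1) := by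
      rw [le_div_iff₀ hq1]
      exact h1
    have e5 : N * q ^ m / q ^ (m * D) / (q - 1) = (N * (1 / (q - 1)) / q ^ (m * D)) * q ^ m := by
      ring
    rw [e5] at e4
    exact le_of_mul_le_mul_right e4 e3
  have e6 : N * ((1 - 1 / (q - 1)) / q ^ (m * D)) =
      N / q ^ (m * D) - N * (1 / (q - 1)) / q ^ (m * D) := by ring
  rw [e6]
  linarith

/-- lower bound for the probability that `D + m` vectors have no common zero -/
theorem prob_cln_ge {A : Finset (Fin n)} {m : ℕ} (hq : 2 ≤ Fintype.card F)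
    (hA : A.card = D + m) :
    (Fintype.card (Fin n → Fin D → F) : ℝ) * ((1 - 1 / ((Fintype.card F : ℝ) - 1)) *
      (((Fintype.card F : ℝ) ^ m - 1) ^ A.card -
      (Fintype.card F : ℝ) ^ m * (((Fintype.card F : ℝ) ^ m) ^ A.card /
        (Fintype.card F : ℝ) ^ A.card)) /
      ((Fintype.card F : ℝ) ^ (m * D) * (gl (Fintype.card F) m : ℝ))) ≤
    ∑ x : Fin n → Fin D → F, ind (Cln x A ∧ Module.finrank F (dep x A) = m) := by
  classical
  have hq' : (2 : ℝ) ≤ (Fintype.card F : ℝ) := by exact_mod_cast hq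
  have h0 := card_full_ge (F := F) (m := m) A (fun a => ∀ v ∈ A, ∃ i, a i v ≠ 0) (fun a => Iff.rfl)
  have hone : (1 : ℕ) ≤ Fintype.card F ^ m := Nat.one_le_pow _ _ (by omega)
  rw [Nat.cast_sub hone] at h0
  push_cast at h0
  set q : ℝ := (Fintype.card F : ℝ) with hqdef
  have hq0 : 0 < q := by linarith
  have hq1 : 0 < q - 1 := by linarith
  have hr : 0 ≤ 1 - 1 / (q - 1) := by
    rw [sub_nonneg, div_le_one hq1]
    linarith
  have hg : (0 : ℝ) < (gl (Fintype.card F) m : ℝ) := by exact_mod_cast gl_pos hq m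
  set SP := (sp F A m).filter (fun a => ∀ v ∈ A, ∃ i, a i v ≠ 0) with hSP
  -- pointwise
  have h1 : ∀ x : Fin n → Fin D → F, ∑ a ∈ SP, ind ((∀ i, ∑ v, a i v • x v = 0) ∧
      Module.finrank F (dep x A) = m) ≤ (gl (Fintype.card F) m : ℝ) *
        ind (Cln x A ∧ Module.finrank F (dep x A) = m) := by
    intro x
    by_cases hx : Module.finrank F (dep x A) = m
    · by_cases hex : ∃ a ∈ SP, ∀ i, ∑ v, a i v • x v = 0
      · have hcl : Cln x A := by
          obtain ⟨a, ha, ha2⟩ := hex
          obtain ⟨ha3, ha4⟩ := mem_filter.1 ha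
          intro v hv
          obtain ⟨i, hi⟩ := ha4 v hv
          exact ⟨a i, ⟨(mem_sp.1 ha3).2 i, ha2 i⟩, hi⟩
        rw [ind_pos ⟨hcl, hx⟩, mul_one, ← card_tup_eq hx]
        have h2 : ∀ a ∈ SP, ind ((∀ i, ∑ v, a i v • x v = 0) ∧
            Module.finrank F (dep x A) = m) ≤ if a ∈ tup (dep x A) m then (1 : ℝ) else 0 := by
          intro a ha
          split_ifs with h3
          · exact ind_le_one _
          · rw [ind_neg]
            rintro ⟨h4, -⟩
            apply h3
            obtain ⟨ha3, ha4⟩ := mem_filter.1 ha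
            exact mem_tup.2 ⟨(mem_sp.1 ha3).1, fun i => ⟨(mem_sp.1 ha3).2 i, h4 i⟩⟩
        refine (sum_le_sum h2).trans ?_
        rw [← sum_filter, sum_const, nsmul_eq_mul, mul_one]
        have h3 : (SP.filter fun a => a ∈ tup (dep x A) m) ⊆ tup (dep x A) m := by
          intro a ha
          exact (mem_filter.1 ha).2
        exact_mod_cast card_le_card h3
      · have h2 : ∑ a ∈ SP, ind ((∀ i, ∑ v, a i v • x v = 0) ∧
            Module.finrank F (dep x A) = m) = 0 := by
          refine sum_eq_zero fun a ha => ind_neg ?_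
          rintro ⟨h3, -⟩
          exact hex ⟨a, ha, h3⟩
        rw [h2]
        exact mul_nonneg hg.le (ind_nonneg _)
    · have h2 : ∑ a ∈ SP, ind ((∀ i, ∑ v, a i v • x v = 0) ∧
            Module.finrank F (dep x A) = m) = 0 := by
        refine sum_eq_zero fun a ha => ind_neg ?_
        rintro ⟨-, h3⟩
        exact hx h3
      rw [h2]
      exact mul_nonneg hg.le (ind_nonneg _)
  have h2 : ∑ a ∈ SP, (Fintype.card (Fin n → Fin D → F) : ℝ) * ((1 - 1 / (q - 1)) / q ^ (m * D)) ≤
      (gl (Fintype.card F) m : ℝ) * ∑ x : Fin n → Fin D → F,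
        ind (Cln x A ∧ Module.finrank F (dep x A) = m) := by
    calc ∑ a ∈ SP, (Fintype.card (Fin n → Fin D → F) : ℝ) * ((1 - 1 / (q - 1)) / q ^ (m * D))
        ≤ ∑ a ∈ SP, ∑ x : Fin n → Fin D → F, ind ((∀ i, ∑ v, a i v • x v = 0) ∧
            Module.finrank F (dep x A) = m) :=
          sum_le_sum fun a ha => sum_ann_ge hq hA (mem_filter.1 ha).1
      _ = ∑ x : Fin n → Fin D → F, ∑ a ∈ SP, ind ((∀ i, ∑ v, a i v • x v = 0) ∧
            Module.finrank F (dep x A) = m) := sum_comm
      _ ≤ ∑ x : Fin n → Fin D → F, (gl (Fintype.card F) m : ℝ) *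
            ind (Cln x A ∧ Module.finrank F (dep x A) = m) := sum_le_sum fun x _ => h1 x
      _ = _ := by rw [mul_sum]
  rw [sum_const, nsmul_eq_mul] at h2
  have h3 : ((q ^ m - 1) ^ A.card - q ^ m * ((q ^ m) ^ A.card / q ^ A.card)) *
      ((Fintype.card (Fin n → Fin D → F) : ℝ) * ((1 - 1 / (q - 1)) / q ^ (m * D))) ≤
      (gl (Fintype.card F) m : ℝ) * ∑ x : Fin n → Fin D → F,
        ind (Cln x A ∧ Module.finrank F (dep x A) = m) :=
    (mul_le_mul_of_nonneg_right h0 (by positivity)).trans h2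
  rw [← div_le_iff₀' hg] at h3
  refine le_trans (le_of_eq ?_) h3
  field_simp

end Run7.h670.CL
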