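import Pool.Agent.Run7.h670.CL.Asy
import Pool.Agent.Run7.h538.LC.Phi

/-!
# The two-stage code and the limit constant for gap one
-/

set_option autoImplicit false

open Finset Filter Topology Pool.Agent.H369R2.TD

namespace Run7.h670.CL

open Run7.h538.LC

theorem Rnd.mono' {n d : ℕ} {a a' Φ Φ' : ℝ} (h : Rnd n d a Φ) (ha : a ≤ a') (hΦ : Φ ≤ Φ') :
    Rnd n d a' Φ' := by
  obtain ⟨Ω, i1, i2, A, h1, h2, h3⟩ := h
  refine ⟨Ω, i1, i2, A, h1, fun Z hZ => (h2 Z hZ).trans ?_, fun Y hY => (h3 Y hY).trans ?_⟩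
  · exact mul_le_mul_of_nonneg_right ha (Nat.cast_nonneg _)
  · exact mul_le_mul_of_nonneg_right hΦ (Nat.cast_nonneg _)

/-- a covering system, moved by a random permutation -/
theorem rnd_of_tur {d : ℕ} {c : ℝ} (h : Tur d c) {Φ : ℝ} (hΦ : 0 ≤ Φ) (n : ℕ) : Rnd n d c Φ := by
  classical
  obtain ⟨T, hT1, hT2, hT3⟩ := h n
  refine ⟨Equiv.Perm (Fin n), inferInstance, inferInstance,
    fun π => univ.filter fun Z => Z.map π.toEmbedding ∈ T, ?_, ?_, ?_⟩
  · intro π Z hZ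
    have := hT1 _ (mem_filter.1 hZ).2
    rwa [card_map] at this
  · intro Z hZ
    have h1 := perm_count T hT1 hT3 Z hZ
    refine le_trans (le_of_eq ?_) h1
    congr 2
    ext π
    simp
  · intro Y hY
    rw [card_filter_ind]
    have h1 : ∀ π : Equiv.Perm (Fin n), ind (¬ ∃ Z ∈ (univ.filter fun Z =>
        Z.map π.toEmbedding ∈ T), Z ⊆ Y) = 0 := by
      intro π
      apply ind_neg
      intro hcon
      apply hcon
      obtain ⟨W, hW1, hW2⟩ := hT2 (Y.map π.toEmbedding) (by rw [card_map, hY])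
      obtain ⟨Z, hZ, rfl⟩ := Finset.subset_map_iff.mp hW2
      exact ⟨Z, mem_filter.2 ⟨mem_univ _, hW1⟩, hZ⟩
    rw [sum_congr rfl fun π _ => h1 π, sum_const_zero]
    positivity

theorem rr_tendsto : Tendsto (fun q : ℕ => rr q) atTop (𝓝 1) := by
  have h1 : Tendsto (fun q : ℕ => 1 + 1 / ((q : ℝ) - 2)) atTop (𝓝 (1 + 0)) :=
    ((tendsto_atTop_add_const_right _ (-2) tendsto_natCast_atTop_atTop).const_div_atTop 1).const_add 1
  rw [add_zero] at h1
  refine h1.congr' ?_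
  filter_upwards [eventually_ge_atTop 3] with q hq
  have hq' : (3 : ℝ) ≤ q := by exact_mod_cast hq
  unfold rr
  have : (q : ℝ) - 2 ≠ 0 := by linarith
  field_simp
  ring

theorem PhiQ_eq (q : ℕ) (y θ : ℝ) : PhiQ q y θ =
    Real.exp (-y) * ((Real.exp (-θ) * (1 + θ) + θ ^ 2) * rr q -
      (Real.exp (-θ) + 2 * θ) * (θ * (1 - 1 / ((q : ℝ) - 1))) + θ ^ 2 * rr q) := by
  unfold PhiQ
  have e1 : Real.exp (((q : ℝ) - 1) * y) * Real.exp (-(q * y)) = Real.exp (-y) := by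
    rw [← Real.exp_add]
    congr 1
    ring
  have e2 : Real.exp (((q : ℝ) - 1) * y) ^ 2 * Real.exp (-((2 * (q : ℝ) - 1) * y)) =
      Real.exp (-y) := by
    rw [← Real.exp_nat_mul, ← Real.exp_add]
    congr 1
    push_cast
    ring
  have e3 : (Real.exp (-θ) * (1 + θ) + θ ^ 2) * (rr q * Real.exp (-y)) -
    (Real.exp (-θ) + 2 * θ) * ((θ * Real.exp (((q : ℝ) - 1) * y)) *
      ((1 - 1 / ((q : ℝ) - 1)) * Real.exp (-(q * y)))) +
    (θ * Real.exp (((q : ℝ) - 1) * y)) ^ 2 * (rr q * Real.exp (-((2 * (q : ℝ) - 1) * y))) =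
    (Real.exp (-θ) * (1 + θ) + θ ^ 2) * (rr q * Real.exp (-y)) -
    (Real.exp (-θ) + 2 * θ) * (θ * (1 - 1 / ((q : ℝ) - 1))) *
      (Real.exp (((q : ℝ) - 1) * y) * Real.exp (-(q * y))) +
    θ ^ 2 * rr q * (Real.exp (((q : ℝ) - 1) * y) ^ 2 *
      Real.exp (-((2 * (q : ℝ) - 1) * y))) := by ring
  rw [e3, e1, e2]
  ring

theorem PhiQ_tendsto (y θ : ℝ) :
    Tendsto (fun q : ℕ => PhiQ q y θ) atTop (𝓝 (Real.exp (-(y + θ)))) := by
  have h1 : Tendsto (fun q : ℕ => 1 - 1 / ((q : ℝ) - 1)) atTop (𝓝 (1 - 0)) :=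
    ((tendsto_atTop_add_const_right _ (-1) tendsto_natCast_atTop_atTop).const_div_atTop 1).const_sub 1
  have h2 : Tendsto (fun q : ℕ => Real.exp (-y) * ((Real.exp (-θ) * (1 + θ) + θ ^ 2) * rr q -
      (Real.exp (-θ) + 2 * θ) * (θ * (1 - 1 / ((q : ℝ) - 1))) + θ ^ 2 * rr q)) atTop
      (𝓝 (Real.exp (-y) * ((Real.exp (-θ) * (1 + θ) + θ ^ 2) * 1 -
      (Real.exp (-θ) + 2 * θ) * (θ * (1 - 0)) + θ ^ 2 * 1))) :=
    ((((rr_tendsto.const_mul _).sub ((h1.const_mul _).const_mul _)).add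
      (rr_tendsto.const_mul _))).const_mul _
  have e : Real.exp (-y) * ((Real.exp (-θ) * (1 + θ) + θ ^ 2) * 1 -
      (Real.exp (-θ) + 2 * θ) * (θ * (1 - 0)) + θ ^ 2 * 1) = Real.exp (-(y + θ)) := by
    rw [neg_add, Real.exp_add]
    ring
  rw [e] at h2
  refine h2.congr fun q => ?_
  rw [PhiQ_eq]

/-- the two-stage code: cost `D₁ + θ e^(-y)`, failure `e^(-(y+θ))` -/
theorem freq {y θ : ℝ} (hy : 0 < y) (hθ : 0 < θ) {J : ℕ}
    {δ c : ℕ → ℝ} {K y' x D₁ : ℝ} (hδ : ∀ m, Tur m (δ m)) (h0 : ∀ m, 0 ≤ δ m) (hc0 : c 0 = 0)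
    (hc : ∀ m, m + 1 < J → ((m : ℝ) + 1) * δ m ≤ c (m + 1))
    (hK : ∀ m : ℕ, ((m : ℝ) + 1) * δ m ≤ K) (hy' : y' < y) (hx : y < x) (hJ : 1 ≤ J)
    (hD : Real.exp (-y') * Psi J c K x ≤ D₁) {ε : ℝ} (hε : 0 < ε) :
    ∃ᶠ s : ℕ in atTop, ∃ a Φ : ℝ, (∀ n, Rnd n s a Φ) ∧ 0 ≤ a ∧ 0 < Φ ∧
      Φ ≤ Real.exp (-(y + θ)) + ε ∧ ((s : ℝ) + 1) * a ≤ D₁ + θ * Real.exp (-y) + ε := by
  -- choice of the prime
  have t1 : Tendsto (fun q : ℕ => rr q * D₁ + rr q * (θ * Real.exp (-y))) atTop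
      (𝓝 (1 * D₁ + 1 * (θ * Real.exp (-y)))) :=
    (rr_tendsto.mul_const _).add (rr_tendsto.mul_const _)
  rw [one_mul, one_mul] at t1
  have e1 := t1.eventually_lt_const
    (by linarith : D₁ + θ * Real.exp (-y) < D₁ + θ * Real.exp (-y) + ε / 2)
  have e2 := (PhiQ_tendsto y θ).eventually_lt_const
    (by linarith : Real.exp (-(y + θ)) < Real.exp (-(y + θ)) + ε / 2)
  obtain ⟨M, hM⟩ := eventually_atTop.1 (e1.and (e2.and (eventually_ge_atTop 3)))
  obtain ⟨q, hq1, hq2⟩ := Nat.exists_infinite_primes M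
  obtain ⟨f1, f2, f3⟩ := hM q hq1
  have : Fact q.Prime := ⟨hq2⟩
  have h1 := flr_tendsto (q := q) f3 hy hθ (by linarith : 0 < ε / 2)
  have h2 := cost_tendsto (q := q) f3 hy hθ h0 hc0 hc hK hy' hx hJ hD (by linarith : 0 < ε / 2)
  have hkq : ∀ᶠ m : ℕ in atTop, 2 * q ≤ q ^ (m + 1) := by
    filter_upwards [eventually_ge_atTop 1] with m hm
    calc 2 * q ≤ q * q := Nat.mul_le_mul_right q (by omega)
      _ = q ^ 2 := by ring
      _ ≤ q ^ (m + 1) := Nat.pow_le_pow_right (by omega) (by omega)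
  refine (tendsto_ss_atTop f3 hy).frequently (Eventually.frequently ?_)
  filter_upwards [h1, h2, hkq] with m g1 g2 g3
  have hc : Fintype.card (ZMod q) = q := ZMod.card q
  have hR : ∀ n, Rnd n (ss q y m) (cost q (DD q y m) m (NN q y θ m) δ)
      (flr q (DD q y m) m (NN q y θ m) θ) := by
    intro n
    have := rnd_two (ZMod q) (NN q y θ m) (D := DD q y m) (m := m) (by rw [hc]; omega) hθ.le
      (by rw [hc]; exact g3) hδ n
    rw [hc] at this
    exact this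
  refine ⟨cost q (DD q y m) m (NN q y θ m) δ,
    max (flr q (DD q y m) m (NN q y θ m) θ) (Real.exp (-(y + θ))),
    fun n => Rnd.mono' (hR n) le_rfl (le_max_left _ _), ?_,
    lt_max_of_lt_right (Real.exp_pos _), ?_, ?_⟩
  · unfold cost
    refine add_nonneg ?_ (mul_nonneg (by positivity) (PA_nonneg f3 _ _))
    unfold P1
    refine add_nonneg (div_nonneg (sum_nonneg fun j _ => ?_) (by positivity)) (err_nonneg _ _ _ _)
    have hq' : (3 : ℝ) ≤ q := by exact_mod_cast f3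
    have hQ : (0 : ℝ) ≤ (q : ℝ) ^ (m + 1) - 1 := by
      rw [sub_nonneg]
      exact one_le_pow₀ (by linarith)
    have := h0 j
    positivity
  · apply max_le
    · linarith
    · linarith
  · linarith

/-- combination with the limit -/
theorem comb {L : ℝ} (hL : Tendsto (GG 1) atTop (𝓝 L)) {C P : ℝ} (hP1 : P < 1)
    (hf : ∃ᶠ s : ℕ in atTop, ∃ a Φ : ℝ, (∀ n, Rnd n s a Φ) ∧ 0 ≤ a ∧ 0 < Φ ∧
      Φ ≤ P ∧ ((s : ℝ) + 1) * a ≤ C) {μ : ℝ} (hμ : 0 < μ) :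
    L ≤ (1 + μ) * C + (1 + 1 / μ) * (L * (P / (1 - P))) := by
  have hL0 : 0 ≤ L := ge_of_tendsto hL (Eventually.of_forall fun k => GG_nonneg 1 k)
  have hC0 : 0 ≤ C := by
    obtain ⟨s, a, Φ, -, h2, -, -, h5⟩ := hf.exists
    exact (mul_nonneg (by positivity) h2).trans h5
  have hP0 : 0 ≤ P := by
    obtain ⟨s, a, Φ, -, -, h3, h4, -⟩ := hf.exists
    exact h3.le.trans h4
  have h1P : 0 < 1 - P := by linarith
  -- the bound with a parameter
  have key : ∀ η : ℝ, 0 < η → η < 1 → L ≤ (1 + μ + η) * C / (1 - η) +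
      (1 + 1 / μ) * ((L + η) * (P / (1 - P))) + η := by
    intro η hη hη1
    by_contra hcon
    push Not at hcon
    have hev : ∀ᶠ r : ℕ in atTop, (1 + μ + η) * C / (1 - η) +
      (1 + 1 / μ) * ((L + η) * (P / (1 - P))) + η < GG 1 r := hL.eventually_const_lt hcon
    obtain ⟨R₀, hR₀⟩ := eventually_atTop.1 hev
    have hev2 : ∀ᶠ r : ℕ in atTop, GG 1 r < L + η := hL.eventually_lt_const (by linarith)
    obtain ⟨R₁, hR₁⟩ := eventually_atTop.1 hev2
    have hm : Tendsto (fun s : ℕ => μ * ((s : ℝ) + 1)) atTop atTop :=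
      (tendsto_atTop_add_const_right _ _ tendsto_natCast_atTop_atTop).const_mul_atTop hμ
    have hm1 : Tendsto (fun s : ℕ => ((s : ℝ) + 1)) atTop atTop :=
      tendsto_atTop_add_const_right _ _ tendsto_natCast_atTop_atTop
    obtain ⟨s, ⟨a, Φ, g1, g2, g3, g4, g5⟩, g6, g7, g8⟩ :=
      (hf.and_eventually ((tendsto_atTop.1 hm ((R₁ : ℝ) + 1)).and
        ((tendsto_atTop.1 hm1 (1 / η)).and (eventually_ge_atTop R₀)))).exists
    set d₂ : ℕ := ⌊μ * ((s : ℝ) + 1)⌋₊ with hd₂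
    have hs0 : (0 : ℝ) < (s : ℝ) + 1 := by positivity
    have k1 : (d₂ : ℝ) ≤ μ * ((s : ℝ) + 1) := Nat.floor_le (by positivity)
    have k2 : μ * ((s : ℝ) + 1) < (d₂ : ℝ) + 1 := Nat.lt_floor_add_one _
    have k3 : R₁ ≤ d₂ := by
      have : (R₁ : ℝ) < (d₂ : ℝ) + 1 := by linarith
      have : R₁ < d₂ + 1 := by exact_mod_cast this
      omega
    have hd0 : (0 : ℝ) < (d₂ : ℝ) + 1 := by positivity
    -- the second part
    have hG2 := hR₁ d₂ k3
    rw [GG_one] at hG2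
    have ht0 := tau_nonneg 1 d₂
    have hT := two_part g1 (fun n => rnd_of_tur (tur_tau d₂) (le_of_lt hη) n) g2 ht0 g3
      (g4.trans_lt hP1) hη hη1 (ε := η / ((s : ℝ) + d₂ + 1 + 1)) (by positivity)
    have hr := tau_le_of_tur hT
    have hR := hR₀ (s + d₂ + 1) (by omega)
    rw [GG_one] at hR
    have hr0 : (0 : ℝ) < (s : ℝ) + d₂ + 1 + 1 := by positivity
    have e1 : ((s + d₂ + 1 : ℕ) : ℝ) + 1 = (s : ℝ) + d₂ + 1 + 1 := by push_cast; ring
    rw [e1] at hR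
    have h1 := mul_le_mul_of_nonneg_left hr hr0.le
    have p1 : 0 < 1 - η := by linarith
    have p2 : 0 < 1 - Φ := by linarith
    have b1 : ((s : ℝ) + d₂ + 1 + 1) * (a / (1 - η)) ≤ (1 + μ + η) * C / (1 - η) := by
      rw [← mul_div_assoc]
      refine div_le_div_of_nonneg_right ?_ p1.le
      have h2 : (s : ℝ) + d₂ + 1 + 1 ≤ (1 + μ + η) * ((s : ℝ) + 1) := by
        rw [div_le_iff₀ hη] at g7
        nlinarith
      calc ((s : ℝ) + d₂ + 1 + 1) * a ≤ ((1 + μ + η) * ((s : ℝ) + 1)) * a :=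
            mul_le_mul_of_nonneg_right h2 g2
        _ = (1 + μ + η) * (((s : ℝ) + 1) * a) := by ring
        _ ≤ (1 + μ + η) * C := mul_le_mul_of_nonneg_left g5 (by positivity)
    have b2 : ((s : ℝ) + d₂ + 1 + 1) * (tau 1 d₂ * Φ / (1 - Φ)) ≤
        (1 + 1 / μ) * ((L + η) * (P / (1 - P))) := by
      have h2 : (s : ℝ) + d₂ + 1 + 1 ≤ (1 + 1 / μ) * ((d₂ : ℝ) + 1) := by
        have : (s : ℝ) + 1 ≤ 1 / μ * ((d₂ : ℝ) + 1) := by
          rw [one_div, inv_mul_eq_div, le_div_iff₀ hμ]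
          linarith
        linarith
      have h3 : Φ / (1 - Φ) ≤ P / (1 - P) := by
        rw [div_le_div_iff₀ p2 h1P]
        nlinarith
      have h4 : 0 ≤ Φ / (1 - Φ) := div_nonneg g3.le p2.le
      calc ((s : ℝ) + d₂ + 1 + 1) * (tau 1 d₂ * Φ / (1 - Φ))
          = (((s : ℝ) + d₂ + 1 + 1) * tau 1 d₂) * (Φ / (1 - Φ)) := by ring
        _ ≤ (((1 + 1 / μ) * ((d₂ : ℝ) + 1)) * tau 1 d₂) * (Φ / (1 - Φ)) :=
            mul_le_mul_of_nonneg_right (mul_le_mul_of_nonneg_right h2 ht0) h4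
        _ = (1 + 1 / μ) * ((((d₂ : ℝ) + 1) * tau 1 d₂) * (Φ / (1 - Φ))) := by ring
        _ ≤ (1 + 1 / μ) * ((L + η) * (P / (1 - P))) := by
            refine mul_le_mul_of_nonneg_left ?_ (by positivity)
            exact mul_le_mul hG2.le h3 h4 (by linarith)
    have b3 : ((s : ℝ) + d₂ + 1 + 1) * (η / ((s : ℝ) + d₂ + 1 + 1)) = η := by
      field_simp
    have b4 : ((s : ℝ) + d₂ + 1 + 1) * (a / (1 - η) + tau 1 d₂ * Φ / (1 - Φ) +
        η / ((s : ℝ) + d₂ + 1 + 1)) = ((s : ℝ) + d₂ + 1 + 1) * (a / (1 - η)) +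
        ((s : ℝ) + d₂ + 1 + 1) * (tau 1 d₂ * Φ / (1 - Φ)) +
        ((s : ℝ) + d₂ + 1 + 1) * (η / ((s : ℝ) + d₂ + 1 + 1)) := by ring
    rw [b4, b3] at h1
    linarith
  -- the limit
  have hc : Tendsto (fun η : ℝ => (1 + μ + η) * C / (1 - η) +
      (1 + 1 / μ) * ((L + η) * (P / (1 - P))) + η) (𝓝[>] 0)
      (𝓝 ((1 + μ + 0) * C / (1 - 0) + (1 + 1 / μ) * ((L + 0) * (P / (1 - P))) + 0)) := by
    refine tendsto_nhdsWithin_of_tendsto_nhds ?_
    have : ContinuousAt (fun η : ℝ => (1 + μ + η) * C / (1 - η) +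
      (1 + 1 / μ) * ((L + η) * (P / (1 - P))) + η) 0 := by
      refine ContinuousAt.add (ContinuousAt.add (ContinuousAt.div (by fun_prop) (by fun_prop) ?_)
        (by fun_prop)) (by fun_prop)
      norm_num
    exact this
  have h2 := ge_of_tendsto hc (by
    filter_upwards [self_mem_nhdsWithin, Ioo_mem_nhdsGT (show (0 : ℝ) < 1 by norm_num)]
      with η hη hη2
    exact key η hη hη2.2)
  simpa using h2

/-- the main inequality -/
theorem main {L : ℝ} (hL : Tendsto (GG 1) atTop (𝓝 L)) {y θ : ℝ} (hy : 0 < y) (hθ : 0 < θ)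
    {μ : ℝ} (hμ : 0 < μ) :
    L ≤ (1 + μ) * (S y + θ * Real.exp (-y)) +
      (1 + 1 / μ) * (L * (Real.exp (-(y + θ)) / (1 - Real.exp (-(y + θ))))) := by
  set P₀ : ℝ := Real.exp (-(y + θ)) with hP₀
  have hP1 : P₀ < 1 := Real.exp_lt_one_iff.2 (by linarith)
  -- the parameters of the first stage
  have key : ∀ ε : ℝ, 0 < ε → P₀ + ε < 1 →
      L ≤ (1 + μ) * (S y + θ * Real.exp (-y) + 2 * ε) +
      (1 + 1 / μ) * (L * ((P₀ + ε) / (1 - (P₀ + ε)))) := by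
    intro ε hε hε1
    obtain ⟨J, hJ1, hJ2⟩ : ∃ J : ℕ, 1 ≤ J ∧ Real.exp (-y) * Psi J c0 2.63 y < S y + ε := by
      have := ((psi_tendsto hy.le 2.63).eventually_lt_const
        (by linarith : S y < S y + ε)).and (eventually_ge_atTop 1)
      obtain ⟨J, h1, h2⟩ := this.exists
      exact ⟨J, h2, h1⟩
    obtain ⟨t, ht0, ht1⟩ : ∃ t : ℝ, 0 < t ∧
        Real.exp (-(y - t)) * Psi J c0 2.63 (y + t) < S y + ε := by
      have hc : Tendsto (fun t : ℝ => Real.exp (-(y - t)) * Psi J c0 2.63 (y + t)) (𝓝[>] 0)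
          (𝓝 (Real.exp (-(y - 0)) * Psi J c0 2.63 (y + 0))) := by
        refine (Continuous.tendsto ?_ 0).mono_left nhdsWithin_le_nhds
        unfold Psi
        fun_prop
      rw [sub_zero, add_zero] at hc
      obtain ⟨t, h1, h2⟩ := ((hc.eventually_lt_const hJ2).and self_mem_nhdsWithin).exists
      exact ⟨t, h2, h1⟩
    have hf := freq (y := y) (θ := θ) hy hθ (J := J) (δ := tau 1) (c := c0) (K := 2.63)
      (y' := y - t) (x := y + t) (D₁ := S y + ε) tur_tau (tau_nonneg 1) c0_zero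
      (fun m _ => (c0_succ m).ge) (fun m => by rw [← GG_one]; exact GG_one_le m)
      (by linarith) (by linarith) hJ1 ht1.le hε
    have := comb hL (C := S y + θ * Real.exp (-y) + 2 * ε) (P := P₀ + ε) hε1 (by
      refine hf.mono fun s hs => ?_
      obtain ⟨a, Φ, g1, g2, g3, g4, g5⟩ := hs
      exact ⟨a, Φ, g1, g2, g3, g4, by linarith⟩) hμ
    exact this
  have hc : Tendsto (fun ε : ℝ => (1 + μ) * (S y + θ * Real.exp (-y) + 2 * ε) +
      (1 + 1 / μ) * (L * ((P₀ + ε) / (1 - (P₀ + ε))))) (𝓝[>] 0)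
      (𝓝 ((1 + μ) * (S y + θ * Real.exp (-y) + 2 * 0) +
      (1 + 1 / μ) * (L * ((P₀ + 0) / (1 - (P₀ + 0)))))) := by
    refine tendsto_nhdsWithin_of_tendsto_nhds ?_
    have : ContinuousAt (fun ε : ℝ => (1 + μ) * (S y + θ * Real.exp (-y) + 2 * ε) +
      (1 + 1 / μ) * (L * ((P₀ + ε) / (1 - (P₀ + ε))))) 0 := by
      refine ContinuousAt.add (by fun_prop) (ContinuousAt.mul (by fun_prop)
        (ContinuousAt.mul (by fun_prop) (ContinuousAt.div (by fun_prop) (by fun_prop) ?_)))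
      rw [add_zero]
      linarith
    exact this
  have h2 := ge_of_tendsto hc (by
    filter_upwards [self_mem_nhdsWithin, Ioo_mem_nhdsGT (show (0 : ℝ) < 1 - P₀ by linarith)]
      with ε hε hε2
    exact key ε hε (by linarith [hε2.2]))
  simpa using h2

/-- the closed form -/
theorem closed {L : ℝ} (hL : Tendsto (GG 1) atTop (𝓝 L)) {y θ : ℝ} (hy : 0 < y) (hθ : 0 < θ)
    (h2 : Real.exp (-(y + θ)) < 1 / 2) :
    L ≤ (S y + θ * Real.exp (-y)) /
      (1 - Real.sqrt (Real.exp (-(y + θ)) / (1 - Real.exp (-(y + θ))))) ^ 2 := by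
  set P₀ : ℝ := Real.exp (-(y + θ)) with hP₀
  have hP0 : 0 < P₀ := Real.exp_pos _
  set r : ℝ := Real.sqrt (P₀ / (1 - P₀)) with hr
  have hp0 : 0 < P₀ / (1 - P₀) := div_pos hP0 (by linarith)
  have hp1 : P₀ / (1 - P₀) < 1 := by
    rw [div_lt_one (by linarith)]
    linarith
  have hr0 : 0 < r := Real.sqrt_pos.2 hp0
  have hr1 : r < 1 := by
    rw [hr, Real.sqrt_lt' one_pos]
    simpa using hp1
  have hrr : r ^ 2 = P₀ / (1 - P₀) := Real.sq_sqrt hp0.le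
  have h1r : 0 < 1 - r := by linarith
  have h := main hL hy hθ (μ := r / (1 - r)) (by positivity)
  rw [← hP₀, ← hrr] at h
  have e1 : 1 + r / (1 - r) = 1 / (1 - r) := by field_simp; ring
  have e2 : 1 + 1 / (r / (1 - r)) = 1 / r := by field_simp; ring
  rw [e1, e2] at h
  have e3 : 1 / r * (L * r ^ 2) = L * r := by field_simp
  rw [e3] at h
  rw [le_div_iff₀ (by positivity)]
  have h3 : L * (1 - r) ≤ 1 / (1 - r) * (S y + θ * Real.exp (-y)) := by linarith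
  rw [one_div, inv_mul_eq_div, le_div_iff₀ h1r] at h3
  calc L * (1 - r) ^ 2 = L * (1 - r) * (1 - r) := by ring
    _ ≤ _ := h3

end Run7.h670.CL
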