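import Pool.Agent.Run7.h670.CL.Main
import Pool.Agent.Run7.h125.TU.Eight2
import Pool.Agent.Run7.h538.LC.Num

/-!
# The limit for gap one is at most 1.7426
-/

set_option autoImplicit false
set_option maxHeartbeats 1000000

open Finset Filter Topology

namespace Run7.h670.CL

open Pool.Agent.H613T Pool.Agent.H369R2.TD Run7.h538.LC

/-- the table, with the better values for `j = 9, 10` -/
noncomputable def gd (j : ℕ) : ℝ :=
  if j = 9 then 9 * (6325 / 32768) else if j = 10 then 10 * (6325 / 32768) else gc j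

theorem c0_le_gd (j : ℕ) : c0 j ≤ gd j := by
  unfold gd
  split_ifs with h1 h2
  · subst h1
    rw [c0_succ 8]
    have := tau_le_of_tur Run7.h125.TU.tur_eight
    push_cast
    linarith
  · subst h2
    rw [c0_succ 9]
    have := tau_le_of_tur (Tur.succ Run7.h125.TU.tur_eight)
    push_cast
    linarith
  · exact c0_le_gc j

/-- `S(l)` is at most its truncation -/
theorem S_le' {l : ℝ} (hl : 0 ≤ l) (J : ℕ) :
    S l ≤ 2.63 + Real.exp (-l) * ∑ j ∈ range J, (gd j - 2.63) * (l ^ j / (j.factorial : ℝ)) := by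
  have hE : Real.exp (-l) * Real.exp l = 1 := by rw [← Real.exp_add]; simp
  have h1 := (hasSum_c0 hl).mul_left (Real.exp (-l))
  rw [← mul_assoc, hE, one_mul] at h1
  have h2 := ((hasSum_pow l).mul_left (Real.exp (-l))).mul_left 2.63
  rw [hE, mul_one] at h2
  have h3 : HasSum (fun j : ℕ => if j < J then
      Real.exp (-l) * ((gd j - 2.63) * (l ^ j / (j.factorial : ℝ))) else 0)
      (∑ j ∈ range J, Real.exp (-l) * ((gd j - 2.63) * (l ^ j / (j.factorial : ℝ)))) := by
    have h4 : HasSum (fun j : ℕ => if j < J then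
      Real.exp (-l) * ((gd j - 2.63) * (l ^ j / (j.factorial : ℝ))) else 0)
      (∑ j ∈ range J, (if j < J then
      Real.exp (-l) * ((gd j - 2.63) * (l ^ j / (j.factorial : ℝ))) else 0)) := by
      refine hasSum_sum_of_ne_finset_zero (fun j hj => ?_)
      rw [mem_range] at hj
      rw [if_neg hj]
    have h5 : ∑ j ∈ range J, (if j < J then
      Real.exp (-l) * ((gd j - 2.63) * (l ^ j / (j.factorial : ℝ))) else 0) =
      ∑ j ∈ range J, Real.exp (-l) * ((gd j - 2.63) * (l ^ j / (j.factorial : ℝ))) :=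
      sum_congr rfl fun j hj => by rw [if_pos (mem_range.1 hj)]
    rw [h5] at h4
    exact h4
  rw [← mul_sum] at h3
  refine hasSum_le (fun j => ?_) h1 (h2.add h3)
  have hp : 0 ≤ Real.exp (-l) * (l ^ j / (j.factorial : ℝ)) := by positivity
  by_cases hj : j < J
  · simp only [hj, if_true]
    have := c0_le_gd j
    nlinarith
  · simp only [hj, if_false]
    have := c0_le j
    nlinarith

theorem exp_up : Real.exp (51 / 10) < 164022 / 1000 := by
  have h1 : Real.exp (51 / 10) ^ 10 = Real.exp 1 ^ 51 := by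
    rw [← Real.exp_nat_mul, ← Real.exp_nat_mul]; norm_num
  have h2 := Real.exp_one_lt_d9
  refine lt_of_pow_lt_pow_left₀ 10 (by norm_num) ?_
  rw [h1]
  calc Real.exp 1 ^ 51 < 2.7182818286 ^ 51 := by gcongr
    _ < _ := by norm_num

theorem exp_lo : 16402 / 100 < Real.exp (51 / 10) := by
  have h1 : Real.exp (51 / 10) ^ 10 = Real.exp 1 ^ 51 := by
    rw [← Real.exp_nat_mul, ← Real.exp_nat_mul]; norm_num
  have h2 := Real.exp_one_gt_d9
  refine lt_of_pow_lt_pow_left₀ 10 (Real.exp_pos _).le ?_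
  rw [h1]
  calc (16402 / 100 : ℝ) ^ 10 < 2.7182818283 ^ 51 := by norm_num
    _ < _ := by gcongr

theorem exp_lo2 : 80821 < Real.exp (113 / 10) := by
  have h1 : Real.exp (113 / 10) ^ 10 = Real.exp 1 ^ 113 := by
    rw [← Real.exp_nat_mul, ← Real.exp_nat_mul]; norm_num
  have h2 := Real.exp_one_gt_d9
  refine lt_of_pow_lt_pow_left₀ 10 (Real.exp_pos _).le ?_
  rw [h1]
  calc (80821 : ℝ) ^ 10 < 2.7182818283 ^ 113 := by norm_num
    _ < _ := by gcongr

theorem S_num : S (51 / 10) ≤ 1.6926 := by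
  have hS := S_le' (l := 51 / 10) (by norm_num) 24
  have hlow : (1000 : ℝ) / 164022 ≤ Real.exp (-(51 / 10)) := by
    rw [Real.exp_neg, ← one_div, div_le_div_iff₀ (by norm_num) (Real.exp_pos _)]
    have := exp_up
    linarith
  have hsum : ∑ j ∈ range 24, (gd j - 2.63) * ((51 / 10 : ℝ) ^ j / (j.factorial : ℝ)) ≤
      - (15377 / 100) := by
    simp only [Finset.sum_range_succ, Finset.sum_range_zero, gd, gc, Pool.Agent.TH485.Uni.g,
      Pool.Agent.TH485.Uni.cN, List.getD_cons_zero, List.getD_cons_succ]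
    norm_num [Nat.factorial]
  have h3 : Real.exp (-(51 / 10)) *
      ∑ j ∈ range 24, (gd j - 2.63) * ((51 / 10 : ℝ) ^ j / (j.factorial : ℝ))
      ≤ (1000 : ℝ) / 164022 * (- (15377 / 100)) := by
    nlinarith
  have h4 : (2.63 : ℝ) + (1000 : ℝ) / 164022 * (- (15377 / 100)) ≤ 1.6926 := by norm_num
  linarith

/-- the limit is at most `1.7427` -/
theorem L_num {L : ℝ} (hL : Tendsto (GG 1) atTop (𝓝 L)) : L ≤ 1.7427 := by
  have hP : Real.exp (-(51 / 10 + 62 / 10)) < 1 / 80821 := by
    rw [show (51 / 10 + 62 / 10 : ℝ) = 113 / 10 by norm_num, Real.exp_neg, ← one_div]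
    exact one_div_lt_one_div_of_lt (by norm_num) exp_lo2
  have hP0 := Real.exp_pos (-(51 / 10 + 62 / 10))
  have h := closed hL (y := 51 / 10) (θ := 62 / 10) (by norm_num) (by norm_num) (by linarith)
  set P : ℝ := Real.exp (-(51 / 10 + 62 / 10)) with hPd
  have hq : P / (1 - P) ≤ 0.003518 ^ 2 := by
    rw [div_le_iff₀ (by linarith)]
    have : (1 : ℝ) / 80821 + 0.003518 ^ 2 * (1 / 80821) ≤ 0.003518 ^ 2 := by norm_num
    nlinarith
  have hr : Real.sqrt (P / (1 - P)) ≤ 0.003518 := by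
    rw [Real.sqrt_le_left (by norm_num)]
    exact hq
  have hr0 := Real.sqrt_nonneg (P / (1 - P))
  set r : ℝ := Real.sqrt (P / (1 - P)) with hrd
  have hy : Real.exp (-(51 / 10)) ≤ 100 / 16402 := by
    rw [Real.exp_neg, ← one_div, div_le_div_iff₀ (Real.exp_pos _) (by norm_num)]
    have := exp_lo
    linarith
  have hS := S_num
  have hd : (0.996482 : ℝ) ^ 2 ≤ (1 - r) ^ 2 := by
    gcongr
    linarith
  refine h.trans ?_
  rw [div_le_iff₀ (by nlinarith)]
  nlinarith

end Run7.h670.CL
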