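import Pool.Agent.Run7.h670.CL.Cnt

/-!
# Probabilities of the events on dependencies of random vectors
-/

set_option autoImplicit false

open Finset

namespace Run7.h670.CL

variable {n D : ℕ} {F : Type} [Field F] [Fintype F]

/-- indicator of a proposition -/
noncomputable def ind (P : Prop) : ℝ := by classical exact if P then 1 else 0

theorem ind_pos {P : Prop} (h : P) : ind P = 1 := by
  unfold ind
  simp [h]

theorem ind_neg {P : Prop} (h : ¬ P) : ind P = 0 := by
  unfold ind
  simp [h]

theorem ind_nonneg (P : Prop) : 0 ≤ ind P := by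
  by_cases h : P
  · rw [ind_pos h]; norm_num
  · rw [ind_neg h]

theorem ind_le_one (P : Prop) : ind P ≤ 1 := by
  by_cases h : P
  · rw [ind_pos h]
  · rw [ind_neg h]; norm_num

theorem ind_mono {P Q : Prop} (h : P → Q) : ind P ≤ ind Q := by
  by_cases hP : P
  · rw [ind_pos hP, ind_pos (h hP)]
  · rw [ind_neg hP]; exact ind_nonneg Q

theorem ind_and (P Q : Prop) : ind (P ∧ Q) = ind P * ind Q := by
  by_cases hP : P <;> by_cases hQ : Q <;> simp [ind, hP, hQ]

theorem ind_or_le (P Q : Prop) : ind (P ∨ Q) ≤ ind P + ind Q := by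
  by_cases hP : P <;> by_cases hQ : Q <;> simp [ind, hP, hQ]

open Classical in
theorem ind_eq (P : Prop) [Decidable P] : ind P = if P then 1 else 0 := by
  by_cases hP : P <;> simp [ind, hP]

omit [Fintype F] in
theorem finrank_span_tup {m : ℕ} {a : Fin m → Fin n → F} (ha : LinearIndependent F a) :
    Module.finrank F (Submodule.span F (Set.range a)) = m := by
  rw [finrank_span_eq_card ha, Fintype.card_fin]

theorem span_tup {W : Submodule F (Fin n → F)} {m : ℕ} (hW : Module.finrank F W = m)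
    {a : Fin m → Fin n → F} (ha : a ∈ tup W m) : Submodule.span F (Set.range a) = W := by
  obtain ⟨h1, h2⟩ := mem_tup.1 ha
  apply Submodule.eq_of_le_of_finrank_eq
  · rw [Submodule.span_le]
    rintro _ ⟨i, rfl⟩
    exact h2 i
  · rw [finrank_span_tup h1, hW]

/-- a linear relation between two coordinates of the basis holds on the whole space -/
theorem rel_of_tup {W : Submodule F (Fin n → F)} {m : ℕ} (hW : Module.finrank F W = m)
    {a : Fin m → Fin n → F} (ha : a ∈ tup W m) {u v : Fin n} {c : F}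
    (h : ∀ i, a i u = c * a i v) : ∀ α ∈ W, α u = c * α v := by
  intro α hα
  rw [← span_tup hW ha] at hα
  induction hα using Submodule.span_induction with
  | mem x hx =>
    obtain ⟨i, rfl⟩ := hx
    exact h i
  | zero => simp
  | add x y _ _ hx hy => simp only [Pi.add_apply, hx, hy]; ring
  | smul r x _ hx => simp only [Pi.smul_apply, smul_eq_mul, hx]; ring

theorem zero_of_tup {W : Submodule F (Fin n → F)} {m : ℕ} (hW : Module.finrank F W = m)
    {a : Fin m → Fin n → F} (ha : a ∈ tup W m) {v : Fin n}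
    (h : ∀ i, a i v = 0) : ∀ α ∈ W, α v = 0 := by
  intro α hα
  have := rel_of_tup hW ha (u := v) (v := v) (c := 0) (by simpa using h) α hα
  simpa using this

/-- no common zero of the dependencies -/
def Cln (x : Fin n → Fin D → F) (A : Finset (Fin n)) : Prop :=
  ∀ v ∈ A, ∃ α ∈ dep x A, α v ≠ 0

open Classical in
/-- the common zeros of the dependencies -/
noncomputable def col (x : Fin n → Fin D → F) (A : Finset (Fin n)) : Finset (Fin n) :=
  A.filter fun v => ∀ α ∈ dep x A, α v = 0

theorem mem_col {x : Fin n → Fin D → F} {A : Finset (Fin n)} {v : Fin n} :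
    v ∈ col x A ↔ v ∈ A ∧ ∀ α ∈ dep x A, α v = 0 := by
  unfold col
  simp

theorem cln_iff {x : Fin n → Fin D → F} {A : Finset (Fin n)} : Cln x A ↔ col x A = ∅ := by
  rw [eq_empty_iff_forall_notMem]
  unfold Cln
  constructor
  · intro h v hv
    obtain ⟨h1, h2⟩ := mem_col.1 hv
    obtain ⟨α, h3, h4⟩ := h v h1
    exact h4 (h2 α h3)
  · intro h v hv
    by_contra hc
    push Not at hc
    exact h v (mem_col.2 ⟨hv, hc⟩)

open Classical in
/-- bound of an indicator by numbers of tuples -/
theorem ind_le {x : Fin n → Fin D → F} {A : Finset (Fin n)} {m : ℕ} (hq : 2 ≤ Fintype.card F)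
    (E : Prop) (P : (Fin m → Fin n → F) → Prop)
    (h0 : E → m ≤ Module.finrank F (dep x A))
    (h1 : E → Module.finrank F (dep x A) = m → ∀ a ∈ tup (dep x A) m, P a) :
    ind E ≤
      (((tup (dep x A) m).filter P).card : ℝ) / (gl (Fintype.card F) m : ℝ) +
        ((tup (dep x A) (m + 1)).card : ℝ) / (gl (Fintype.card F) (m + 1) : ℝ) := by
  have g1 : (0 : ℝ) < (gl (Fintype.card F) m : ℝ) := by exact_mod_cast gl_pos hq m
  have g2 : (0 : ℝ) < (gl (Fintype.card F) (m + 1) : ℝ) := by exact_mod_cast gl_pos hq (m + 1)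
  have n1 : 0 ≤ (((tup (dep x A) m).filter P).card : ℝ) / (gl (Fintype.card F) m : ℝ) := by
    positivity
  have n2 : 0 ≤ ((tup (dep x A) (m + 1)).card : ℝ) /
      (gl (Fintype.card F) (m + 1) : ℝ) := by positivity
  by_cases hE : E
  · rw [ind_pos hE]
    rcases (h0 hE).eq_or_lt with h | h
    · have h2 : (tup (dep x A) m).filter P = tup (dep x A) m :=
        filter_true_of_mem (h1 hE h.symm)
      rw [h2, card_tup_eq h.symm] at n1 ⊢
      rw [div_self g1.ne']
      linarith
    · have h2 := gl_le_card_tup (W := dep x A) (m := m + 1) h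
      have h3 : (1 : ℝ) ≤ ((tup (dep x A) (m + 1)).card : ℝ) /
          (gl (Fintype.card F) (m + 1) : ℝ) := by
        rw [one_le_div g2]
        exact_mod_cast h2
      linarith
  · rw [ind_neg hE]
    linarith

open Classical in
/-- the expected number of tuples -/
theorem sum_tup (D : ℕ) (A : Finset (Fin n)) (m : ℕ) (P : (Fin m → Fin n → F) → Prop) :
    ∑ x : Fin n → Fin D → F, (((tup (dep x A) m).filter P).card : ℝ) =
      (((sp F A m).filter P).card : ℝ) * (Fintype.card (Fin n → Fin D → F) : ℝ) /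
        (Fintype.card F : ℝ) ^ (m * D) := by
  have hq0 : (0 : ℝ) < (Fintype.card F : ℝ) := by exact_mod_cast Fintype.card_pos
  have e1 : ∀ x : Fin n → Fin D → F, (((tup (dep x A) m).filter P).card : ℝ) =
      ∑ a ∈ (sp F A m).filter P, if (∀ i, ∑ v, a i v • x v = 0) then (1 : ℝ) else 0 := by
    intro x
    rw [← sum_filter, sum_const, nsmul_eq_mul, mul_one]
    congr 2
    ext a
    simp only [mem_filter, mem_tup, mem_sp, mem_dep]
    constructor
    · rintro ⟨⟨h1, h2⟩, h3⟩
      exact ⟨⟨⟨h1, fun i => (h2 i).1⟩, h3⟩, fun i => (h2 i).2⟩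
    · rintro ⟨⟨⟨h1, h2⟩, h3⟩, h4⟩
      exact ⟨⟨h1, fun i => ⟨h2 i, h4 i⟩⟩, h3⟩
  simp only [e1]
  rw [sum_comm]
  have e2 : ∀ a ∈ (sp F A m).filter P, ∑ x : Fin n → Fin D → F,
      (if (∀ i, ∑ v, a i v • x v = 0) then (1 : ℝ) else 0) =
      (Fintype.card (Fin n → Fin D → F) : ℝ) / (Fintype.card F : ℝ) ^ (m * D) := by
    intro a ha
    rw [← sum_filter, sum_const, nsmul_eq_mul, mul_one, eq_div_iff (by positivity)]
    exact_mod_cast card_ann (mem_sp.1 (mem_filter.1 ha).1).1
  rw [sum_congr rfl e2, sum_const, nsmul_eq_mul]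
  ring

theorem sum_tup' (D : ℕ) (A : Finset (Fin n)) (m : ℕ) :
    ∑ x : Fin n → Fin D → F, ((tup (dep x A) m).card : ℝ) =
      ((sp F A m).card : ℝ) * (Fintype.card (Fin n → Fin D → F) : ℝ) /
        (Fintype.card F : ℝ) ^ (m * D) := by
  have h := sum_tup (F := F) D A m (fun _ => True)
  have h1 : ∀ s : Finset (Fin m → Fin n → F), s.filter (fun _ => True) = s := fun s => by
    ext; simp
  simp only [filter_true] at h
  exact h

/-- the error term: too many dependencies -/
noncomputable def err (q s D m : ℕ) : ℝ :=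
  ((q : ℝ) ^ ((m + 1) * s)) / ((q : ℝ) ^ ((m + 1) * D) * (gl q (m + 1) : ℝ))

open Classical in
theorem sum_ind_le {A : Finset (Fin n)} {m : ℕ} (hq : 2 ≤ Fintype.card F)
    (E : (Fin n → Fin D → F) → Prop) (P : (Fin m → Fin n → F) → Prop) {B : ℝ}
    (h0 : ∀ x, E x → m ≤ Module.finrank F (dep x A))
    (h1 : ∀ x, E x → Module.finrank F (dep x A) = m → ∀ a ∈ tup (dep x A) m, P a)
    (hB : (((sp F A m).filter P).card : ℝ) ≤ B) :
    ∑ x : Fin n → Fin D → F, ind (E x) ≤
      (Fintype.card (Fin n → Fin D → F) : ℝ) *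
        (B / ((Fintype.card F : ℝ) ^ (m * D) * (gl (Fintype.card F) m : ℝ)) +
          err (Fintype.card F) A.card D m) := by
  have hq0 : (0 : ℝ) < (Fintype.card F : ℝ) := by exact_mod_cast Fintype.card_pos
  have g1 : (0 : ℝ) < (gl (Fintype.card F) m : ℝ) := by exact_mod_cast gl_pos hq m
  have g2 : (0 : ℝ) < (gl (Fintype.card F) (m + 1) : ℝ) := by exact_mod_cast gl_pos hq (m + 1)
  have hX : (0 : ℝ) ≤ (Fintype.card (Fin n → Fin D → F) : ℝ) := Nat.cast_nonneg _
  refine (sum_le_sum fun x _ => ind_le hq (E x) P (h0 x) (h1 x)).trans ?_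
  rw [sum_add_distrib, ← sum_div, ← sum_div, sum_tup, sum_tup']
  have e1 : ((sp F A (m + 1)).card : ℝ) ≤
      (Fintype.card F : ℝ) ^ ((m + 1) * A.card) := by
    have := card_supp (F := F) A (sp F A (m + 1)) (fun a ha => (mem_sp.1 ha).2)
    exact_mod_cast this
  have e2 : (((sp F A m).filter P).card : ℝ) * (Fintype.card (Fin n → Fin D → F) : ℝ) /
        (Fintype.card F : ℝ) ^ (m * D) / (gl (Fintype.card F) m : ℝ) ≤
      (Fintype.card (Fin n → Fin D → F) : ℝ) *
        (B / ((Fintype.card F : ℝ) ^ (m * D) * (gl (Fintype.card F) m : ℝ))) := by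
    rw [div_div, mul_comm, mul_div_assoc]
    exact mul_le_mul_of_nonneg_left (div_le_div_of_nonneg_right hB (by positivity)) hX
  have e3 : ((sp F A (m + 1)).card : ℝ) *
      (Fintype.card (Fin n → Fin D → F) : ℝ) /
        (Fintype.card F : ℝ) ^ ((m + 1) * D) / (gl (Fintype.card F) (m + 1) : ℝ) ≤
      (Fintype.card (Fin n → Fin D → F) : ℝ) * err (Fintype.card F) A.card D m := by
    unfold err
    rw [div_div, mul_comm, mul_div_assoc]
    exact mul_le_mul_of_nonneg_left (div_le_div_of_nonneg_right e1 (by positivity)) hX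
  rw [mul_add]
  exact add_le_add e2 e3

open Classical in
/-- probability that a set of `D + m` vectors has no common zero -/
theorem prob_cln {A : Finset (Fin n)} {m : ℕ} (hq : 2 ≤ Fintype.card F) (hA : A.card = D + m) :
    ∑ x : Fin n → Fin D → F, ind (Cln x A) ≤
      (Fintype.card (Fin n → Fin D → F) : ℝ) *
        (((Fintype.card F : ℝ) ^ m - 1) ^ A.card /
          ((Fintype.card F : ℝ) ^ (m * D) * (gl (Fintype.card F) m : ℝ)) +
          err (Fintype.card F) A.card D m) := by
  refine sum_ind_le (A := A) (m := m) hq (fun x => Cln x A) (fun a => ∀ v ∈ A, ∃ i, a i v ≠ 0)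
    (fun x _ => ?_) (fun x hx hr a ha v hv => ?_) ?_
  · have := card_le_finrank x A
    omega
  · by_contra hc
    push Not at hc
    obtain ⟨α, h1, h2⟩ := hx v hv
    exact h2 (zero_of_tup hr ha hc α h1)
  · have h1 := card_zero (F := F) A ∅ ((sp F A m).filter fun a => ∀ v ∈ A, ∃ i, a i v ≠ 0)
      (empty_subset _) (fun a ha => (mem_sp.1 (mem_filter.1 ha).1).2)
      (fun a ha v hv _ => (mem_filter.1 ha).2 v hv) (fun a ha v hv => absurd hv (notMem_empty v))
    rw [card_empty, Nat.sub_zero] at h1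
    have h2 : (1 : ℕ) ≤ Fintype.card F ^ m := Nat.one_le_pow _ _ (by omega)
    have h3 : (((Fintype.card F ^ m - 1 : ℕ) : ℝ)) = (Fintype.card F : ℝ) ^ m - 1 := by
      rw [Nat.cast_sub h2]
      simp
    rw [← h3]
    exact_mod_cast h1

open Classical in
/-- first stage -/
theorem prob_stage {A : Finset (Fin n)} {k : ℕ} (hq : 2 ≤ Fintype.card F)
    (T : Finset (Fin n) → Prop) :
    ∑ x : Fin n → Fin D → F, ind (k ≤ Module.finrank F (dep x A) ∧ T (col x A)) ≤
      (Fintype.card (Fin n → Fin D → F) : ℝ) *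
        ((∑ Z ∈ A.powerset, ind (T Z) * ((Fintype.card F : ℝ) ^ k - 1) ^ (A.card - Z.card)) /
          ((Fintype.card F : ℝ) ^ (k * D) * (gl (Fintype.card F) k : ℝ)) +
          err (Fintype.card F) A.card D k) := by
  refine sum_ind_le (A := A) (m := k) hq
    (fun x => k ≤ Module.finrank F (dep x A) ∧ T (col x A))
    (fun a => T (A.filter fun v => ∀ i, a i v = 0))
    (fun x hx => hx.1) (fun x hx hr a ha => ?_) ?_
  · have h1 : col x A = A.filter fun v => ∀ i, a i v = 0 := by
      ext v
      rw [mem_col, mem_filter]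
      refine and_congr_right fun _ => ⟨fun h i => h _ ((mem_tup.1 ha).2 i), fun h => ?_⟩
      exact zero_of_tup hr ha h
    rw [← h1]
    exact hx.2
  · have h2 : (1 : ℕ) ≤ Fintype.card F ^ k := Nat.one_le_pow _ _ (by omega)
    have h3 : (((Fintype.card F ^ k - 1 : ℕ) : ℝ)) = (Fintype.card F : ℝ) ^ k - 1 := by
      rw [Nat.cast_sub h2]
      simp
    have h4 : (sp F A k).filter (fun a => T (A.filter fun v => ∀ i, a i v = 0)) ⊆
        (A.powerset.filter T).biUnion fun Z => (sp F A k).filter fun a =>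
          (A.filter fun v => ∀ i, a i v = 0) = Z := by
      intro a ha
      obtain ⟨h5, h6⟩ := mem_filter.1 ha
      rw [mem_biUnion]
      exact ⟨A.filter fun v => ∀ i, a i v = 0,
        mem_filter.2 ⟨mem_powerset.2 (filter_subset _ _), h6⟩, mem_filter.2 ⟨h5, rfl⟩⟩
    have h5 : (((sp F A k).filter (fun a => T (A.filter fun v => ∀ i, a i v = 0))).card : ℝ) ≤
        ∑ Z ∈ A.powerset.filter T, (((sp F A k).filter fun a =>
          (A.filter fun v => ∀ i, a i v = 0) = Z).card : ℝ) := by
      exact_mod_cast (card_le_card h4).trans card_biUnion_le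
    refine h5.trans ?_
    rw [sum_filter]
    refine sum_le_sum fun Z hZ => ?_
    split_ifs with hT
    · rw [ind_pos hT, one_mul]
      have h6 := card_zero (F := F) A Z ((sp F A k).filter fun a =>
          (A.filter fun v => ∀ i, a i v = 0) = Z) (mem_powerset.1 hZ)
          (fun a ha => (mem_sp.1 (mem_filter.1 ha).1).2) (fun a ha v hv hvZ => by
            by_contra hc
            push Not at hc
            apply hvZ
            rw [← (mem_filter.1 ha).2, mem_filter]
            exact ⟨hv, hc⟩) (fun a ha v hv => by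
            rw [← (mem_filter.1 ha).2, mem_filter] at hv
            exact hv.2)
      rw [← h3]
      exact_mod_cast h6
    · rw [ind_neg hT, zero_mul]

open Classical in
/-- two clean subsets -/
theorem prob_pair {A : Finset (Fin n)} {k : ℕ} (hq : 2 ≤ Fintype.card F) (hA : A.card = D + k)
    {v w : Fin n} (hv : v ∈ A) (hw : w ∈ A) (hvw : v ≠ w)
    (hk : 2 * Fintype.card F ≤ Fintype.card F ^ k) :
    ∑ x : Fin n → Fin D → F, ind (Cln x (A.erase v) ∧ Cln x (A.erase w)) ≤
      (Fintype.card (Fin n → Fin D → F) : ℝ) *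
        (((Fintype.card F : ℝ) ^ k) ^ 2 *
          ((Fintype.card F : ℝ) ^ k - (2 * (Fintype.card F : ℝ) - 1)) ^ (A.card - 2) /
          ((Fintype.card F : ℝ) ^ (k * D) * (gl (Fintype.card F) k : ℝ)) +
          err (Fintype.card F) A.card D k) := by
  have key : ∀ (x : Fin n → Fin D → F) (v : Fin n), Cln x (A.erase v) →
      Module.finrank F (dep x A) = k → ∀ a ∈ tup (dep x A) k, ∀ u ∈ A, u ≠ v →
        (fun i => a i u) ∉ ln (fun i => a i v) := by
    intro x v hx hr a ha u hu huv hcon
    rw [mem_ln] at hcon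
    obtain ⟨c, hc⟩ := hcon
    obtain ⟨α, h1, h2⟩ := hx u (mem_erase.2 ⟨huv, hu⟩)
    rw [mem_dep_erase] at h1
    apply h2
    have h3 := rel_of_tup hr ha (u := u) (v := v) (c := c) (fun i => (congrFun hc i).symm) α h1.1
    rw [h3, h1.2, mul_zero]
  refine sum_ind_le (A := A) (m := k) hq
    (fun x => Cln x (A.erase v) ∧ Cln x (A.erase w))
    (fun a => (∀ u ∈ A, u ≠ v → (fun i => a i u) ∉ ln (fun i => a i v)) ∧
      (∀ u ∈ A, u ≠ w → (fun i => a i u) ∉ ln (fun i => a i w)))
    (fun x _ => ?_) (fun x hx hr a ha => ⟨key x v hx.1 hr a ha, key x w hx.2 hr a ha⟩) ?_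
  · have := card_le_finrank x A
    omega
  · have h6 := card_pair (F := F) A hv hw hvw ((sp F A k).filter fun a =>
      (∀ u ∈ A, u ≠ v → (fun i => a i u) ∉ ln (fun i => a i v)) ∧
      (∀ u ∈ A, u ≠ w → (fun i => a i u) ∉ ln (fun i => a i w)))
      (fun a ha => (mem_sp.1 (mem_filter.1 ha).1).2) (fun a ha => (mem_filter.1 ha).2.1)
      (fun a ha => (mem_filter.1 ha).2.2)
    have h3 : (((Fintype.card F ^ k - (2 * Fintype.card F - 1) : ℕ) : ℝ)) =
        (Fintype.card F : ℝ) ^ k - (2 * (Fintype.card F : ℝ) - 1) := by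
      rw [Nat.cast_sub (by omega), Nat.cast_sub (by omega)]
      push_cast
      ring
    rw [← h3]
    exact_mod_cast h6

/-- extending a tuple -/
theorem card_ext_ge {W : Submodule F (Fin n → F)} {m : ℕ} (hm : m + 1 ≤ Module.finrank F W)
    {a : Fin m → Fin n → F} (ha : a ∈ tup W m) :
    Fintype.card F ^ (m + 1) - Fintype.card F ^ m ≤
      Nat.card {b : Fin n → F // b ∈ W ∧ b ∉ Submodule.span F (Set.range a)} := by
  classical
  obtain ⟨h1, h2⟩ := mem_tup.1 ha
  have h3 : Submodule.span F (Set.range a) ≤ W := by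
    rw [Submodule.span_le]
    rintro _ ⟨i, rfl⟩
    exact h2 i
  have h4 : Nat.card (Submodule.span F (Set.range a)) = Fintype.card F ^ m := by
    rw [Module.natCard_eq_pow_finrank (K := F), finrank_span_tup h1, Nat.card_eq_fintype_card]
  have h5 : Nat.card W = Fintype.card F ^ Module.finrank F W := by
    rw [Module.natCard_eq_pow_finrank (K := F), Nat.card_eq_fintype_card]
  have h6 : Nat.card W = Nat.card (Submodule.span F (Set.range a)) +
      Nat.card {b : Fin n → F // b ∈ W ∧ b ∉ Submodule.span F (Set.range a)} := by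
    rw [Nat.card_eq_fintype_card, Nat.card_eq_fintype_card, Nat.card_eq_fintype_card,
      Fintype.card_subtype, Fintype.card_subtype, Fintype.card_subtype]
    rw [← card_filter_add_card_filter_not (s := univ.filter fun b : Fin n → F => b ∈ W)
      (fun b => b ∈ Submodule.span F (Set.range a)), filter_filter, filter_filter]
    congr 2
    ext b
    simp only [mem_filter, mem_univ, true_and]
    exact ⟨fun h => h.2, fun h => ⟨h3 h, h⟩⟩
  have h7 : Fintype.card F ^ (m + 1) ≤ Fintype.card F ^ Module.finrank F W :=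
    Nat.pow_le_pow_right Fintype.card_pos hm
  omega

open Classical in
/-- for a given tuple of dependencies, more dependencies are rare -/
theorem card_more_le {A : Finset (Fin n)} {m : ℕ}
    {a : Fin m → Fin n → F} (ha : a ∈ sp F A m) :
    (((univ.filter fun x : Fin n → Fin D → F => (∀ i, ∑ v, a i v • x v = 0) ∧
      m + 1 ≤ Module.finrank F (dep x A)).card : ℝ)) *
        ((Fintype.card F : ℝ) ^ (m + 1) - (Fintype.card F : ℝ) ^ m) ≤
      (Fintype.card (Fin n → Fin D → F) : ℝ) * (Fintype.card F : ℝ) ^ A.card /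
        (Fintype.card F : ℝ) ^ ((m + 1) * D) := by
  obtain ⟨h1, h2⟩ := mem_sp.1 ha
  have hq0 : (0 : ℝ) < (Fintype.card F : ℝ) := by exact_mod_cast Fintype.card_pos
  set B : Finset (Fin n → F) := univ.filter fun b => (∀ v, v ∉ A → b v = 0) ∧
    b ∉ Submodule.span F (Set.range a) with hB
  have hBc : (B.card : ℝ) ≤ (Fintype.card F : ℝ) ^ A.card := by
    have := card_supp (F := F) (m := 1) A (B.image fun b _ => b) (by
      intro c hc i v hv
      obtain ⟨b, hb, rfl⟩ := mem_image.1 hc
      exact (mem_filter.1 hb).2.1 v hv)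
    rw [card_image_of_injective _ (fun b b' h => congrFun h 0), one_mul] at this
    exact_mod_cast this
  have e1 : ∀ b ∈ B, ((univ.filter fun x : Fin n → Fin D → F => (∀ i, ∑ v, a i v • x v = 0) ∧
      ∑ v, b v • x v = 0).card : ℝ) = (Fintype.card (Fin n → Fin D → F) : ℝ) /
        (Fintype.card F : ℝ) ^ ((m + 1) * D) := by
    intro b hb
    have hli : LinearIndependent F (Fin.cons b a : Fin (m + 1) → Fin n → F) :=
      linearIndependent_finCons.2 ⟨h1, (mem_filter.1 hb).2.2⟩
    have h3 := card_ann (D := D) hli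
    rw [eq_div_iff (by positivity)]
    rw [← Nat.cast_pow, ← Nat.cast_mul, Nat.cast_inj, ← h3]
    congr 2
    ext x
    simp only [mem_filter, mem_univ, true_and]
    constructor
    · rintro ⟨h4, h5⟩ i
      refine Fin.cases ?_ (fun j => ?_) i
      · simpa using h5
      · simpa using h4 j
    · intro h4
      refine ⟨fun i => ?_, ?_⟩
      · simpa using h4 i.succ
      · simpa using h4 0
  have e2 : ∀ x ∈ (univ.filter fun x : Fin n → Fin D → F => (∀ i, ∑ v, a i v • x v = 0) ∧
      m + 1 ≤ Module.finrank F (dep x A)),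
      (Fintype.card F : ℝ) ^ (m + 1) - (Fintype.card F : ℝ) ^ m ≤
        ∑ b ∈ B, (if ∑ v, b v • x v = 0 then (1 : ℝ) else 0) := by
    intro x hx
    obtain ⟨-, h3, h4⟩ := mem_filter.1 hx
    have h5 : a ∈ tup (dep x A) m := mem_tup.2 ⟨h1, fun i => ⟨h2 i, h3 i⟩⟩
    have h6 := card_ext_ge h4 h5
    have h7 : Nat.card {b : Fin n → F // b ∈ dep x A ∧ b ∉ Submodule.span F (Set.range a)} =
        (B.filter fun b => ∑ v, b v • x v = 0).card := by
      rw [Nat.card_eq_fintype_card, Fintype.card_subtype]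
      congr 1
      ext b
      simp only [hB, mem_filter, mem_univ, true_and, mem_dep]
      tauto
    rw [h7] at h6
    rw [← sum_filter, sum_const, nsmul_eq_mul, mul_one]
    have h8 : Fintype.card F ^ m ≤ Fintype.card F ^ (m + 1) :=
      Nat.pow_le_pow_right Fintype.card_pos (by omega)
    have h9 : (((Fintype.card F ^ (m + 1) - Fintype.card F ^ m : ℕ)) : ℝ) =
        (Fintype.card F : ℝ) ^ (m + 1) - (Fintype.card F : ℝ) ^ m := by
      rw [Nat.cast_sub h8]
      push_cast
      ring
    rw [← h9]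
    exact_mod_cast h6
  calc (((univ.filter fun x : Fin n → Fin D → F => (∀ i, ∑ v, a i v • x v = 0) ∧
      m + 1 ≤ Module.finrank F (dep x A)).card : ℝ)) *
        ((Fintype.card F : ℝ) ^ (m + 1) - (Fintype.card F : ℝ) ^ m)
      = ∑ x ∈ (univ.filter fun x : Fin n → Fin D → F => (∀ i, ∑ v, a i v • x v = 0) ∧
      m + 1 ≤ Module.finrank F (dep x A)),
        ((Fintype.card F : ℝ) ^ (m + 1) - (Fintype.card F : ℝ) ^ m) := by
        rw [sum_const, nsmul_eq_mul]
    _ ≤ ∑ x ∈ (univ.filter fun x : Fin n → Fin D → F => (∀ i, ∑ v, a i v • x v = 0) ∧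
      m + 1 ≤ Module.finrank F (dep x A)),
        ∑ b ∈ B, (if ∑ v, b v • x v = 0 then (1 : ℝ) else 0) := sum_le_sum e2
    _ ≤ ∑ x ∈ (univ.filter fun x : Fin n → Fin D → F => (∀ i, ∑ v, a i v • x v = 0)),
        ∑ b ∈ B, (if ∑ v, b v • x v = 0 then (1 : ℝ) else 0) := by
        refine sum_le_sum_of_subset_of_nonneg ?_ fun x _ _ =>
          sum_nonneg fun b _ => by split_ifs <;> norm_num
        intro x hx
        rw [mem_filter] at hx ⊢
        exact ⟨hx.1, hx.2.1⟩
    _ = ∑ b ∈ B, ((univ.filter fun x : Fin n → Fin D → F => (∀ i, ∑ v, a i v • x v = 0) ∧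
      ∑ v, b v • x v = 0).card : ℝ) := by
        rw [sum_comm]
        refine sum_congr rfl fun b _ => ?_
        rw [← sum_filter, sum_const, nsmul_eq_mul, mul_one, filter_filter]
    _ = (B.card : ℝ) * ((Fintype.card (Fin n → Fin D → F) : ℝ) /
        (Fintype.card F : ℝ) ^ ((m + 1) * D)) := by
        rw [sum_congr rfl e1, sum_const, nsmul_eq_mul]
    _ ≤ (Fintype.card F : ℝ) ^ A.card * ((Fintype.card (Fin n → Fin D → F) : ℝ) /
        (Fintype.card F : ℝ) ^ ((m + 1) * D)) :=
        mul_le_mul_of_nonneg_right hBc (by positivity)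
    _ = _ := by ring

end Run7.h670.CL
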