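import Pool.Agent.Run7.h670.CL.Fam

/-!
# The random family
-/

set_option autoImplicit false

open Finset Pool.Agent.H369R2.TD

namespace Run7.h670.CL

variable {n D N : ℕ} {F : Type} [Field F] [Fintype F]

/-- bound for the probability that `s = D + m` vectors are clean -/
noncomputable def PA (q s D m : ℕ) : ℝ :=
  ((q : ℝ) ^ m - 1) ^ s / ((q : ℝ) ^ (m * D) * (gl q m : ℝ)) + err q s D m

/-- bound for the probability of two clean subsets -/
noncomputable def PP (q s D k : ℕ) : ℝ :=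
  ((q : ℝ) ^ k) ^ 2 * ((q : ℝ) ^ k - (2 * (q : ℝ) - 1)) ^ (s - 1) /
    ((q : ℝ) ^ (k * D) * (gl q k : ℝ)) + err q (s + 1) D k

/-- lower bound for the probability that `s = D + m` vectors are clean -/
noncomputable def PB (q s D m : ℕ) : ℝ :=
  (1 - 1 / ((q : ℝ) - 1)) * (((q : ℝ) ^ m - 1) ^ s - (q : ℝ) ^ m * (((q : ℝ) ^ m) ^ s / (q : ℝ) ^ s)) /
      ((q : ℝ) ^ (m * D) * (gl q m : ℝ))

/-- bound for the probability of being chosen in the first stage -/
noncomputable def P1 (q s D k : ℕ) (δ : ℕ → ℝ) : ℝ :=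
  (∑ j ∈ range (s + 1), (s.choose j : ℝ) * (δ j * ((q : ℝ) ^ k - 1) ^ (s - j))) /
    ((q : ℝ) ^ (k * D) * (gl q k : ℝ)) + err q s D k

theorem err_nonneg (q s D m : ℕ) : 0 ≤ err q s D m := by
  unfold err
  positivity

theorem card_filter_ind {Ω : Type} [Fintype Ω] (p : Ω → Prop) [DecidablePred p] :
    ((univ.filter p).card : ℝ) = ∑ ω, ind (p ω) := by
  rw [card_filter]
  push_cast
  refine sum_congr rfl fun ω _ => ?_
  rw [ind_eq]

theorem PP_nonneg {q s D k : ℕ} (hk : 2 * q ≤ q ^ k) : 0 ≤ PP q s D k := by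
  unfold PP
  have h : (0 : ℝ) ≤ (q : ℝ) ^ k - (2 * (q : ℝ) - 1) := by
    have : (2 * (q : ℝ)) ≤ (q : ℝ) ^ k := by exact_mod_cast hk
    linarith
  have := err_nonneg q (s + 1) D k
  positivity

/-- first stage, averaged over the permutation -/
theorem stage_one {s k : ℕ} (hq : 2 ≤ Fintype.card F) {T : ℕ → Finset (Finset (Fin n))}
    {δ : ℕ → ℝ} (hT1 : ∀ j, ∀ Z ∈ T j, Z.card = j)
    (hT3 : ∀ j, ((T j).card : ℝ) ≤ δ j * (n.choose j : ℝ)) {Z : Finset (Fin n)} (hZ : Z.card = s) :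
    ∑ π : Equiv.Perm (Fin n), ∑ x : Fin n → Fin D → F,
      ind (k ≤ Module.finrank F (dep x Z) ∧ (col x Z).map π.toEmbedding ∈ T (col x Z).card) ≤
      (Fintype.card (Equiv.Perm (Fin n)) : ℝ) * ((Fintype.card (Fin n → Fin D → F) : ℝ) *
        P1 (Fintype.card F) s D k δ) := by
  classical
  have hq' : (2 : ℝ) ≤ (Fintype.card F : ℝ) := by exact_mod_cast hq
  have hg : (0 : ℝ) < (gl (Fintype.card F) k : ℝ) := by exact_mod_cast gl_pos hq k
  have hQ : (0 : ℝ) ≤ (Fintype.card F : ℝ) ^ k - 1 := by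
    rw [sub_nonneg]
    exact one_le_pow₀ (by linarith)
  have h1 : ∀ π : Equiv.Perm (Fin n), ∑ x : Fin n → Fin D → F,
      ind (k ≤ Module.finrank F (dep x Z) ∧ (col x Z).map π.toEmbedding ∈ T (col x Z).card) ≤
      (Fintype.card (Fin n → Fin D → F) : ℝ) *
        ((∑ W ∈ Z.powerset, ind (W.map π.toEmbedding ∈ T W.card) *
          ((Fintype.card F : ℝ) ^ k - 1) ^ (Z.card - W.card)) /
          ((Fintype.card F : ℝ) ^ (k * D) * (gl (Fintype.card F) k : ℝ)) +
          err (Fintype.card F) Z.card D k) := fun π =>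
    prob_stage (D := D) (A := Z) (k := k) hq (fun W => W.map π.toEmbedding ∈ T W.card)
  refine (sum_le_sum fun π _ => h1 π).trans ?_
  rw [← mul_sum, sum_add_distrib, sum_const, card_univ, nsmul_eq_mul, ← sum_div, sum_comm, hZ]
  have h2 : ∀ W ∈ Z.powerset, ∑ π : Equiv.Perm (Fin n), ind (W.map π.toEmbedding ∈ T W.card) *
      ((Fintype.card F : ℝ) ^ k - 1) ^ (s - W.card) ≤
      (Fintype.card (Equiv.Perm (Fin n)) : ℝ) *
        (δ W.card * ((Fintype.card F : ℝ) ^ k - 1) ^ (s - W.card)) := by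
    intro W _
    rw [← sum_mul, ← card_filter_ind]
    have h3 := perm_count (T W.card) (hT1 W.card) (hT3 W.card) W rfl
    have h4 : ((univ.filter fun π : Equiv.Perm (Fin n) =>
        W.map π.toEmbedding ∈ T W.card).card : ℝ) ≤
        δ W.card * (Fintype.card (Equiv.Perm (Fin n)) : ℝ) := by
      convert h3
    calc _ ≤ (δ W.card * (Fintype.card (Equiv.Perm (Fin n)) : ℝ)) *
          ((Fintype.card F : ℝ) ^ k - 1) ^ (s - W.card) :=
          mul_le_mul_of_nonneg_right h4 (pow_nonneg hQ _)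
      _ = _ := by ring
  have h3 : ∑ W ∈ Z.powerset, ∑ π : Equiv.Perm (Fin n), ind (W.map π.toEmbedding ∈ T W.card) *
      ((Fintype.card F : ℝ) ^ k - 1) ^ (s - W.card) ≤
      (Fintype.card (Equiv.Perm (Fin n)) : ℝ) *
        ∑ j ∈ range (s + 1), (s.choose j : ℝ) * (δ j * ((Fintype.card F : ℝ) ^ k - 1) ^ (s - j)) := by
    refine (sum_le_sum h2).trans (le_of_eq ?_)
    rw [← mul_sum, Finset.sum_powerset_apply_card
      (fun j => δ j * ((Fintype.card F : ℝ) ^ k - 1) ^ (s - j)), hZ]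
    simp only [nsmul_eq_mul]
  have h4 : (∑ W ∈ Z.powerset, ∑ π : Equiv.Perm (Fin n), ind (W.map π.toEmbedding ∈ T W.card) *
      ((Fintype.card F : ℝ) ^ k - 1) ^ (s - W.card)) /
      ((Fintype.card F : ℝ) ^ (k * D) * (gl (Fintype.card F) k : ℝ)) ≤
      ((Fintype.card (Equiv.Perm (Fin n)) : ℝ) *
        ∑ j ∈ range (s + 1), (s.choose j : ℝ) * (δ j * ((Fintype.card F : ℝ) ^ k - 1) ^ (s - j))) /
      ((Fintype.card F : ℝ) ^ (k * D) * (gl (Fintype.card F) k : ℝ)) :=
    div_le_div_of_nonneg_right h3 (by positivity)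
  have h5 : (Fintype.card (Equiv.Perm (Fin n)) : ℝ) * ((Fintype.card (Fin n → Fin D → F) : ℝ) *
        P1 (Fintype.card F) s D k δ) = (Fintype.card (Fin n → Fin D → F) : ℝ) *
      (((Fintype.card (Equiv.Perm (Fin n)) : ℝ) *
        ∑ j ∈ range (s + 1), (s.choose j : ℝ) * (δ j * ((Fintype.card F : ℝ) ^ k - 1) ^ (s - j))) /
      ((Fintype.card F : ℝ) ^ (k * D) * (gl (Fintype.card F) k : ℝ)) +
      (Fintype.card (Equiv.Perm (Fin n)) : ℝ) * err (Fintype.card F) s D k) := by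
    unfold P1
    ring
  rw [h5]
  refine mul_le_mul_of_nonneg_left ?_ (Nat.cast_nonneg _)
  linarith

/-- second stage -/
theorem stage_two (N : ℕ) {m : ℕ} (hq : 2 ≤ Fintype.card F) {Z : Finset (Fin n)}
    (hZ : Z.card = D + m) :
    ∑ x : Fin n → Fin D → F, ∑ ξ : Finset (Fin n) → Fin (N + 1), ind (Cln x Z ∧ ξ Z = 0) ≤
      (Fintype.card (Fin n → Fin D → F) : ℝ) *
        ((Fintype.card (Finset (Fin n) → Fin (N + 1)) : ℝ) *
          (1 / ((N : ℝ) + 1) * PA (Fintype.card F) (D + m) D m)) := by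
  classical
  have h1 : ∑ ξ : Finset (Fin n) → Fin (N + 1), ind (ξ Z = 0) =
      (Fintype.card (Finset (Fin n) → Fin (N + 1)) : ℝ) * (1 / ((N : ℝ) + 1)) := by
    have h2 := sum_label n N {Z}
    rw [card_singleton, pow_one] at h2
    have h3 : ∀ ξ : Finset (Fin n) → Fin (N + 1), ind (ξ Z = 0) =
        1 - ind (∀ W ∈ ({Z} : Finset (Finset (Fin n))), ξ W ≠ 0) := by
      intro ξ
      by_cases h : ξ Z = 0
      · rw [ind_pos h, ind_neg]
        · ring
        · intro h4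
          exact h4 Z (mem_singleton_self Z) h
      · rw [ind_neg h, ind_pos]
        · ring
        · intro W hW
          rw [mem_singleton.1 hW]
          exact h
    simp only [h3]
    rw [sum_sub_distrib, h2, sum_const, card_univ, nsmul_eq_mul]
    ring
  have h2 : ∀ x : Fin n → Fin D → F, ∑ ξ : Finset (Fin n) → Fin (N + 1), ind (Cln x Z ∧ ξ Z = 0) =
      ind (Cln x Z) * ((Fintype.card (Finset (Fin n) → Fin (N + 1)) : ℝ) * (1 / ((N : ℝ) + 1))) := by
    intro x
    simp only [ind_and]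
    rw [← mul_sum, h1]
  simp only [h2]
  rw [← sum_mul]
  have h3 := prob_cln (D := D) (A := Z) (m := m) hq hZ
  have h4 := mul_le_mul_of_nonneg_right h3
    (by positivity : 0 ≤ (Fintype.card (Finset (Fin n) → Fin (N + 1)) : ℝ) * (1 / ((N : ℝ) + 1)))
  refine h4.trans (le_of_eq ?_)
  unfold PA
  rw [hZ]
  ring

/-- failure -/
theorem fail (N : ℕ) {m : ℕ} (hq : 2 ≤ Fintype.card F) {θ : ℝ} (hθ : 0 ≤ θ)
    (hk : 2 * Fintype.card F ≤ Fintype.card F ^ (m + 1))
    {T : ℕ → Finset (Finset (Fin n))} (hT1 : ∀ j, ∀ Z ∈ T j, Z.card = j)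
    (hT2 : ∀ j, ∀ Y : Finset (Fin n), Y.card = j + 1 → ∃ Z ∈ T j, Z ⊆ Y)
    (π : Equiv.Perm (Fin n)) {Y : Finset (Fin n)} (hY : Y.card = D + m + 1) :
    ∑ x : Fin n → Fin D → F, ∑ ξ : Finset (Fin n) → Fin (N + 1),
      ind (¬ ∃ Z ∈ fam (D + m) (m + 1) T x ξ π, Z ⊆ Y) ≤
      (Fintype.card (Fin n → Fin D → F) : ℝ) *
        ((Fintype.card (Finset (Fin n) → Fin (N + 1)) : ℝ) *
        ((Real.exp (-θ) * (1 + θ) + θ ^ 2) * PA (Fintype.card F) (D + m + 1) D (m + 1) -
          (Real.exp (-θ) + 2 * θ) * (1 / ((N : ℝ) + 1) * (((D + m + 1 : ℕ) : ℝ) *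
            PB (Fintype.card F) (D + m) D m)) +
          (1 / ((N : ℝ) + 1)) ^ 2 * (((D + m + 1 : ℕ) : ℝ) * PA (Fintype.card F) (D + m) D m +
            ((D + m + 1 : ℕ) : ℝ) ^ 2 * PP (Fintype.card F) (D + m) D (m + 1)))) := by
  classical
  set X : ℝ := (Fintype.card (Fin n → Fin D → F) : ℝ) with hX
  set Ξ : ℝ := (Fintype.card (Finset (Fin n) → Fin (N + 1)) : ℝ) with hΞ
  set w : ℝ := 1 / ((N : ℝ) + 1) with hw
  set c0 : ℝ := Real.exp (-θ) * (1 + θ) + θ ^ 2 with hc0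
  set c1 : ℝ := Real.exp (-θ) + 2 * θ with hc1
  have hX0 : 0 ≤ X := Nat.cast_nonneg _
  have hΞ0 : 0 ≤ Ξ := Nat.cast_nonneg _
  have hw0 : 0 ≤ w := by positivity
  have hc00 : 0 ≤ c0 := by positivity
  have hc10 : 0 ≤ c1 := by positivity
  have h1 : ∀ x : Fin n → Fin D → F, ∑ ξ : Finset (Fin n) → Fin (N + 1),
      ind (¬ ∃ Z ∈ fam (D + m) (m + 1) T x ξ π, Z ⊆ Y) ≤
      Ξ * (c0 * ind (Cln x Y) - c1 * w * (ind (Cln x Y) * cl x Y) +
        w ^ 2 * (ind (Cln x Y) * cl x Y ^ 2)) := by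
    intro x
    have h2 : ∀ ξ : Finset (Fin n) → Fin (N + 1),
        ind (¬ ∃ Z ∈ fam (D + m) (m + 1) T x ξ π, Z ⊆ Y) ≤
        ind (Cln x Y) * ind (∀ v ∈ Y, Cln x (Y.erase v) → ξ (Y.erase v) ≠ 0) := by
      intro ξ
      rw [← ind_and]
      exact ind_mono fun h => uncovered hT1 hT2 (by ring) hY h
    refine (sum_le_sum fun ξ _ => h2 ξ).trans ?_
    rw [← mul_sum]
    have h3 := mul_le_mul_of_nonneg_left (label_le N hθ x Y) (ind_nonneg (Cln x Y))
    refine h3.trans (le_of_eq ?_)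
    ring
  refine (sum_le_sum fun x _ => h1 x).trans ?_
  have h4 : ∑ x : Fin n → Fin D → F, Ξ * (c0 * ind (Cln x Y) - c1 * w * (ind (Cln x Y) * cl x Y) +
        w ^ 2 * (ind (Cln x Y) * cl x Y ^ 2)) =
      Ξ * (c0 * ∑ x : Fin n → Fin D → F, ind (Cln x Y) -
        c1 * w * ∑ x : Fin n → Fin D → F, ind (Cln x Y) * cl x Y +
        w ^ 2 * ∑ x : Fin n → Fin D → F, ind (Cln x Y) * cl x Y ^ 2) := by
    rw [← mul_sum, sum_add_distrib, sum_sub_distrib, ← mul_sum, ← mul_sum, ← mul_sum]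
  rw [h4]
  have h5 : ∑ x : Fin n → Fin D → F, ind (Cln x Y) ≤
      X * PA (Fintype.card F) (D + m + 1) D (m + 1) := by
    have := prob_cln (D := D) (A := Y) (m := m + 1) hq (by rw [hY]; ring)
    rw [hY] at this
    exact this
  have h6 : X * (((D + m + 1 : ℕ) : ℝ) * PB (Fintype.card F) (D + m) D m) ≤
      ∑ x : Fin n → Fin D → F, ind (Cln x Y) * cl x Y := by
    calc X * (((D + m + 1 : ℕ) : ℝ) * PB (Fintype.card F) (D + m) D m)
        = ∑ v ∈ Y, X * PB (Fintype.card F) (D + m) D m := by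
          rw [sum_const, hY, nsmul_eq_mul]
          ring
      _ ≤ ∑ v ∈ Y, ∑ x : Fin n → Fin D → F,
          ind (Cln x (Y.erase v) ∧ Module.finrank F (dep x (Y.erase v)) = m) := by
          refine sum_le_sum fun v hv => ?_
          have hc : (Y.erase v).card = D + m := by
            rw [card_erase_of_mem hv, hY]
            rfl
          have := prob_cln_ge (D := D) (A := Y.erase v) (m := m) hq hc
          rw [hc] at this
          exact this
      _ = ∑ x : Fin n → Fin D → F, ∑ v ∈ Y,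
          ind (Cln x (Y.erase v) ∧ Module.finrank F (dep x (Y.erase v)) = m) := sum_comm
      _ ≤ _ := sum_le_sum fun x _ => moment_one x hY
  have h7 : ∑ x : Fin n → Fin D → F, ind (Cln x Y) * cl x Y ^ 2 ≤
      X * (((D + m + 1 : ℕ) : ℝ) * PA (Fintype.card F) (D + m) D m +
            ((D + m + 1 : ℕ) : ℝ) ^ 2 * PP (Fintype.card F) (D + m) D (m + 1)) := by
    have hPP : 0 ≤ PP (Fintype.card F) (D + m) D (m + 1) := PP_nonneg hk
    calc ∑ x : Fin n → Fin D → F, ind (Cln x Y) * cl x Y ^ 2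
        ≤ ∑ x : Fin n → Fin D → F, (∑ v ∈ Y, ind (Cln x (Y.erase v)) +
          ∑ v ∈ Y, ∑ w ∈ Y.erase v, ind (Cln x (Y.erase v) ∧ Cln x (Y.erase w))) :=
          sum_le_sum fun x _ => moment_two x Y
      _ = ∑ v ∈ Y, ∑ x : Fin n → Fin D → F, ind (Cln x (Y.erase v)) +
          ∑ v ∈ Y, ∑ w ∈ Y.erase v, ∑ x : Fin n → Fin D → F,
            ind (Cln x (Y.erase v) ∧ Cln x (Y.erase w)) := by
          rw [sum_add_distrib, sum_comm]
          congr 1
          rw [sum_comm]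
          refine sum_congr rfl fun v _ => ?_
          rw [sum_comm]
      _ ≤ ∑ v ∈ Y, X * PA (Fintype.card F) (D + m) D m +
          ∑ v ∈ Y, ∑ w ∈ Y.erase v, X * PP (Fintype.card F) (D + m) D (m + 1) := by
          refine add_le_add (sum_le_sum fun v hv => ?_) (sum_le_sum fun v hv =>
            sum_le_sum fun w hw => ?_)
          · have hc : (Y.erase v).card = D + m := by
              rw [card_erase_of_mem hv, hY]
              rfl
            have := prob_cln (D := D) (A := Y.erase v) (m := m) hq hc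
            rw [hc] at this
            exact this
          · obtain ⟨h8, h9⟩ := mem_erase.1 hw
            have := prob_pair (D := D) (A := Y) (k := m + 1) hq (by rw [hY]; ring) hv h9
              (Ne.symm h8) hk
            rw [hY] at this
            unfold PP
            have e : D + m + 1 - 2 = D + m - 1 := by omega
            rw [e] at this
            exact this
      _ ≤ _ := by
          rw [sum_const, hY, nsmul_eq_mul]
          have h8 : ∑ v ∈ Y, ∑ w ∈ Y.erase v, X * PP (Fintype.card F) (D + m) D (m + 1) ≤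
              ((D + m + 1 : ℕ) : ℝ) ^ 2 * (X * PP (Fintype.card F) (D + m) D (m + 1)) := by
            calc ∑ v ∈ Y, ∑ w ∈ Y.erase v, X * PP (Fintype.card F) (D + m) D (m + 1)
                ≤ ∑ v ∈ Y, ((D + m + 1 : ℕ) : ℝ) * (X * PP (Fintype.card F) (D + m) D (m + 1)) := by
                  refine sum_le_sum fun v hv => ?_
                  rw [sum_const, nsmul_eq_mul]
                  refine mul_le_mul_of_nonneg_right ?_ (mul_nonneg hX0 hPP)
                  have : (Y.erase v).card ≤ D + m + 1 := by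
                    rw [← hY]
                    exact card_le_card (erase_subset _ _)
                  exact_mod_cast this
              _ = _ := by
                  rw [sum_const, hY, nsmul_eq_mul]
                  ring
          linarith
  have h8 := mul_le_mul_of_nonneg_left h5 hc00
  have h9 := mul_le_mul_of_nonneg_left h6 (mul_nonneg hc10 hw0)
  have h10 := mul_le_mul_of_nonneg_left h7 (sq_nonneg w)
  calc Ξ * (c0 * ∑ x : Fin n → Fin D → F, ind (Cln x Y) -
        c1 * w * ∑ x : Fin n → Fin D → F, ind (Cln x Y) * cl x Y +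
        w ^ 2 * ∑ x : Fin n → Fin D → F, ind (Cln x Y) * cl x Y ^ 2)
      ≤ Ξ * (c0 * (X * PA (Fintype.card F) (D + m + 1) D (m + 1)) -
        c1 * w * (X * (((D + m + 1 : ℕ) : ℝ) * PB (Fintype.card F) (D + m) D m)) +
        w ^ 2 * (X * (((D + m + 1 : ℕ) : ℝ) * PA (Fintype.card F) (D + m) D m +
            ((D + m + 1 : ℕ) : ℝ) ^ 2 * PP (Fintype.card F) (D + m) D (m + 1)))) :=
        mul_le_mul_of_nonneg_left (by linarith) hΞ0
    _ = _ := by ring

/-- the cost of the two-stage code -/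
noncomputable def cost (q D m N : ℕ) (δ : ℕ → ℝ) : ℝ :=
  P1 q (D + m) D (m + 1) δ + 1 / ((N : ℝ) + 1) * PA q (D + m) D m

/-- the failure probability of the two-stage code -/
noncomputable def flr (q D m N : ℕ) (θ : ℝ) : ℝ :=
  (Real.exp (-θ) * (1 + θ) + θ ^ 2) * PA q (D + m + 1) D (m + 1) -
    (Real.exp (-θ) + 2 * θ) * (1 / ((N : ℝ) + 1) * (((D + m + 1 : ℕ) : ℝ) * PB q (D + m) D m)) +
    (1 / ((N : ℝ) + 1)) ^ 2 * (((D + m + 1 : ℕ) : ℝ) * PA q (D + m) D m +
      ((D + m + 1 : ℕ) : ℝ) ^ 2 * PP q (D + m) D (m + 1))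

theorem rnd_two (F : Type) [Field F] [Fintype F] (N : ℕ) {D m : ℕ} (hq : 2 ≤ Fintype.card F)
    {θ : ℝ} (hθ : 0 ≤ θ)
    (hk : 2 * Fintype.card F ≤ Fintype.card F ^ (m + 1)) {δ : ℕ → ℝ} (hδ : ∀ j, Tur j (δ j))
    (n : ℕ) : Rnd n (D + m) (cost (Fintype.card F) D m N δ) (flr (Fintype.card F) D m N θ) := by
  classical
  choose T hT1 hT2 hT3 using fun j => hδ j n
  refine ⟨(Fin n → Fin D → F) × (Finset (Fin n) → Fin (N + 1)) × Equiv.Perm (Fin n),
    inferInstance, inferInstance, fun ω => fam (D + m) (m + 1) T ω.1 ω.2.1 ω.2.2, ?_, ?_, ?_⟩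
  · intro ω Z hZ
    exact (mem_fam.1 hZ).1
  · intro Z hZ
    rw [card_filter_ind, Fintype.sum_prod_type, Fintype.card_prod, Fintype.card_prod]
    simp only [Fintype.sum_prod_type]
    have h1 : ∀ (x : Fin n → Fin D → F) (ξ : Finset (Fin n) → Fin (N + 1)) (π : Equiv.Perm (Fin n)),
        ind (Z ∈ fam (D + m) (m + 1) T x ξ π) ≤
        ind (m + 1 ≤ Module.finrank F (dep x Z) ∧
          (col x Z).map π.toEmbedding ∈ T (col x Z).card) + ind (Cln x Z ∧ ξ Z = 0) := by
      intro x ξ π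
      refine le_trans (ind_mono fun h => (mem_fam.1 h).2) (ind_or_le _ _)
    have h2 : ∑ x : Fin n → Fin D → F, ∑ ξ : Finset (Fin n) → Fin (N + 1),
        ∑ π : Equiv.Perm (Fin n), ind (Z ∈ fam (D + m) (m + 1) T x ξ π) ≤
        ∑ x : Fin n → Fin D → F, ∑ ξ : Finset (Fin n) → Fin (N + 1),
        ∑ π : Equiv.Perm (Fin n), (ind (m + 1 ≤ Module.finrank F (dep x Z) ∧
          (col x Z).map π.toEmbedding ∈ T (col x Z).card) + ind (Cln x Z ∧ ξ Z = 0)) :=
      sum_le_sum fun x _ => sum_le_sum fun ξ _ => sum_le_sum fun π _ => h1 x ξ π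
    refine h2.trans ?_
    simp only [sum_add_distrib]
    have h3 := stage_one (D := D) (k := m + 1) hq (hT1) (hT3) hZ
    have h4 := stage_two (D := D) N (m := m) hq hZ
    have e3 : ∑ x : Fin n → Fin D → F, ∑ _ξ : Finset (Fin n) → Fin (N + 1),
        ∑ π : Equiv.Perm (Fin n), ind (m + 1 ≤ Module.finrank F (dep x Z) ∧
          (col x Z).map π.toEmbedding ∈ T (col x Z).card) =
        (Fintype.card (Finset (Fin n) → Fin (N + 1)) : ℝ) *
          ∑ π : Equiv.Perm (Fin n), ∑ x : Fin n → Fin D → F,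
            ind (m + 1 ≤ Module.finrank F (dep x Z) ∧
          (col x Z).map π.toEmbedding ∈ T (col x Z).card) := by
      simp only [sum_const, card_univ, nsmul_eq_mul]
      rw [← mul_sum, sum_comm]
    have e4 : ∑ x : Fin n → Fin D → F, ∑ ξ : Finset (Fin n) → Fin (N + 1),
        ∑ _π : Equiv.Perm (Fin n), ind (Cln x Z ∧ ξ Z = 0) =
        (Fintype.card (Equiv.Perm (Fin n)) : ℝ) * ∑ x : Fin n → Fin D → F,
          ∑ ξ : Finset (Fin n) → Fin (N + 1), ind (Cln x Z ∧ ξ Z = 0) := by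
      simp only [sum_const, card_univ, nsmul_eq_mul]
      simp only [← mul_sum]
    rw [e3, e4]
    have h5 := mul_le_mul_of_nonneg_left h3
      (Nat.cast_nonneg (Fintype.card (Finset (Fin n) → Fin (N + 1))) : (0 : ℝ) ≤ _)
    have h6 := mul_le_mul_of_nonneg_left h4
      (Nat.cast_nonneg (Fintype.card (Equiv.Perm (Fin n))) : (0 : ℝ) ≤ _)
    refine (add_le_add h5 h6).trans (le_of_eq ?_)
    unfold cost
    push_cast
    ring
  · intro Y hY
    rw [card_filter_ind, Fintype.sum_prod_type, Fintype.card_prod, Fintype.card_prod]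
    simp only [Fintype.sum_prod_type]
    have e1 : ∑ x : Fin n → Fin D → F, ∑ ξ : Finset (Fin n) → Fin (N + 1),
        ∑ π : Equiv.Perm (Fin n), ind (¬ ∃ Z ∈ fam (D + m) (m + 1) T x ξ π, Z ⊆ Y) =
        ∑ π : Equiv.Perm (Fin n), ∑ x : Fin n → Fin D → F, ∑ ξ : Finset (Fin n) → Fin (N + 1),
          ind (¬ ∃ Z ∈ fam (D + m) (m + 1) T x ξ π, Z ⊆ Y) :=
      (sum_congr rfl fun x _ => sum_comm).trans sum_comm
    rw [e1]
    refine (sum_le_sum fun π _ => fail N hq hθ hk hT1 hT2 π hY).trans (le_of_eq ?_)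
    rw [sum_const, card_univ, nsmul_eq_mul]
    unfold flr
    push_cast
    ring

end Run7.h670.CL
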